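import Pool.Agent.Work.MP_72041b_co.PL.Stmts

set_option autoImplicit false

namespace Pool.Agent.Potatoes.PL

open MeasureTheory Set Metric
open scoped RealInnerProductSpace Pointwise

namespace AuxAff

/-- the linear part -/
noncomputable def L (A B : ℝ × ℝ) : (ℝ × ℝ) →ₗ[ℝ] (ℝ × ℝ) :=
  LinearMap.coprod (LinearMap.toSpanSingleton ℝ (ℝ × ℝ) A) (LinearMap.toSpanSingleton ℝ (ℝ × ℝ) B)

lemma L_apply (A B z : ℝ × ℝ) : L A B z = z.1 • A + z.2 • B := by
  simp [L]

lemma L_det (A B : ℝ × ℝ) : LinearMap.det (L A B) = A.1 * B.2 - A.2 * B.1 := by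
  rw [← LinearMap.det_toMatrix (Module.Basis.finTwoProd ℝ), Matrix.det_fin_two]
  simp only [LinearMap.toMatrix_apply, L_apply, Module.Basis.finTwoProd_zero,
    Module.Basis.finTwoProd_one, Module.Basis.coe_finTwoProd_repr]
  simp
  ring

lemma L_inj (A B : ℝ × ℝ) (h : A.1 * B.2 - A.2 * B.1 ≠ 0) : Function.Injective (L A B) := by
  intro z w hzw
  rw [L_apply, L_apply, Prod.ext_iff] at hzw
  obtain ⟨h1, h2⟩ := hzw
  simp only [Prod.fst_add, Prod.smul_fst, smul_eq_mul, Prod.snd_add, Prod.smul_snd] at h1 h2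
  refine Prod.ext ?_ ?_
  · have : (z.1 - w.1) * (A.1 * B.2 - A.2 * B.1) = 0 := by
      linear_combination B.2 * h1 - B.1 * h2
    rcases mul_eq_zero.1 this with h' | h'
    · linarith
    · exact absurd h' h
  · have : (z.2 - w.2) * (A.1 * B.2 - A.2 * B.1) = 0 := by
      linear_combination A.1 * h2 - A.2 * h1
    rcases mul_eq_zero.1 this with h' | h'
    · linarith
    · exact absurd h' h

/-- the affine homeomorphism -/
noncomputable def Phi (A B c₀ : ℝ × ℝ) (h : A.1 * B.2 - A.2 * B.1 ≠ 0) : (ℝ × ℝ) ≃ₜ (ℝ × ℝ) :=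
  ((LinearEquiv.ofInjectiveEndo (L A B) (L_inj A B h)).toContinuousLinearEquiv.toHomeomorph).trans
    (Homeomorph.addLeft c₀)

lemma Phi_apply (A B c₀ : ℝ × ℝ) (h : A.1 * B.2 - A.2 * B.1 ≠ 0) (z : ℝ × ℝ) :
    Phi A B c₀ h z = c₀ + z.1 • A + z.2 • B := by
  have : Phi A B c₀ h z = c₀ + L A B z := rfl
  rw [this, L_apply, add_assoc]

lemma Phi_coe (A B c₀ : ℝ × ℝ) (h : A.1 * B.2 - A.2 * B.1 ≠ 0) :
    (fun z : ℝ × ℝ => c₀ + z.1 • A + z.2 • B) = Phi A B c₀ h := by
  funext z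
  rw [Phi_apply]

lemma preim (A B c₀ : ℝ × ℝ) (K : Set (ℝ × ℝ)) :
    (fun z : ℝ × ℝ => c₀ + z.1 • A + z.2 • B) ⁻¹' K = L A B ⁻¹' ((fun z => c₀ + z) ⁻¹' K) := by
  ext z
  simp only [mem_preimage, L_apply, add_assoc]

end AuxAff

open AuxAff in
theorem pr_Aff : S_Aff := by
  intro K A B c₀ hK hdet
  have hint : interior ((fun z : ℝ × ℝ => c₀ + z.1 • A + z.2 • B) ⁻¹' K)
      = (fun z : ℝ × ℝ => c₀ + z.1 • A + z.2 • B) ⁻¹' interior K := by
    rw [Phi_coe A B c₀ hdet, Homeomorph.preimage_interior]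
  refine ⟨⟨?_, ?_, ?_⟩, ?_, ?_⟩
  · rw [Phi_coe A B c₀ hdet]
    exact (Homeomorph.isCompact_preimage _).2 hK.compact
  · rw [preim]
    exact (hK.convex.translate_preimage_right c₀).linear_preimage (L A B)
  · rw [hint]
    obtain ⟨w, hw⟩ := hK.inner
    refine ⟨(Phi A B c₀ hdet).symm w, ?_⟩
    rw [Phi_coe A B c₀ hdet, mem_preimage, Homeomorph.apply_symm_apply]
    exact hw
  · have hd : LinearMap.det (L A B) ≠ 0 := by rw [L_det]; exact hdet
    have h1 := Measure.addHaar_preimage_linearMap (volume : Measure (ℝ × ℝ)) hd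
      ((fun z => c₀ + z) ⁻¹' K)
    rw [← preim, measure_preimage_add] at h1
    have h2 : volume.real ((fun z : ℝ × ℝ => c₀ + z.1 • A + z.2 • B) ⁻¹' K)
        = |(LinearMap.det (L A B))⁻¹| * volume.real K := by
      unfold Measure.real
      rw [h1, ENNReal.toReal_mul, ENNReal.toReal_ofReal (abs_nonneg _)]
    rw [h2, L_det, abs_inv, ← mul_assoc, mul_inv_cancel₀ (abs_pos.2 hdet).ne', one_mul]
  · intro a b c hD
    have hmem : ∀ w, w ∈ interior K → ∃ z ∈ interior ((fun z : ℝ × ℝ => c₀ + z.1 • A + z.2 • B) ⁻¹' K),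
        w = c₀ + z.1 • A + z.2 • B := by
      intro w hw
      refine ⟨(Phi A B c₀ hdet).symm w, ?_, ?_⟩
      · rw [hint, Phi_coe A B c₀ hdet, mem_preimage, Homeomorph.apply_symm_apply]
        exact hw
      · rw [← Phi_apply A B c₀ hdet, Homeomorph.apply_symm_apply]
    refine ⟨?_, ?_⟩
    · intro i j hcon
      refine hD.1 i j ?_
      rw [hint, mem_preimage]
      convert hcon using 1
      ext
      · simp only [Prod.fst_add, Prod.smul_fst, smul_eq_mul, Prod.snd_add, Prod.smul_snd]; ring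
      · simp only [Prod.fst_add, Prod.smul_fst, smul_eq_mul, Prod.snd_add, Prod.smul_snd]; ring
    · intro i j hij u hu v hv hcon
      obtain ⟨z, hz, rfl⟩ := hmem u hu
      obtain ⟨w, hw, rfl⟩ := hmem v hv
      refine hD.2 i j hij z hz w hw ?_
      apply L_inj A B hdet
      rw [map_sub, map_add, map_smul, map_smul]
      simp only [L_apply]
      rw [← hcon]
      abel

end Pool.Agent.Potatoes.PL
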