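import Pool.Agent.Work.MP_72041b_co.LV.Stmts

set_option autoImplicit false

/-!
# MP_72041b_co, block PL: large total volume in the plane

`f 2 a b = (L + o(1)) √b` with `4√3/π ≤ L² ≤ 4/√3`, that is `1.4850 ≤ L ≤ 1.5197`.
-/

namespace Pool.Agent.Potatoes.PL

open MeasureTheory Set Metric
open scoped RealInnerProductSpace Pointwise

/-! ## Double lattices -/

/-- convex bodies in `ℝ × ℝ` -/
structure Bd (K : Set (ℝ × ℝ)) : Prop where
  compact : IsCompact K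
  convex : Convex ℝ K
  inner : (interior K).Nonempty

/-- half-length data: `l` is the length of the longest horizontal chord, it is at the height `ys`,
the heights with a chord of length at least `l / 2` are those between `y2` and `y1` -/
structure HL (K : Set (ℝ × ℝ)) (l y2 y1 p2 p1 e ys : ℝ) : Prop where
  hl : 0 < l
  hy : y2 < y1
  h2 : y2 ≤ ys
  h1 : ys ≤ y1
  max : ∀ x x' y, (x, y) ∈ K → (x', y) ∈ K → x' - x ≤ l
  E1 : (e, ys) ∈ K
  E2 : (e + l, ys) ∈ K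
  T1 : (p1, y1) ∈ K
  T2 : (p1 + l / 2, y1) ∈ K
  B1 : (p2, y2) ∈ K
  B2 : (p2 + l / 2, y2) ∈ K
  out : ∀ x x' y, (x, y) ∈ K → (x', y) ∈ K → (y < y2 ∨ y1 < y) → x' - x < l / 2

/-- half-length data exist -/
def S_HL : Prop := ∀ K : Set (ℝ × ℝ), Bd K → ∃ l y2 y1 p2 p1 e ys : ℝ, HL K l y2 y1 p2 p1 e ys

/-- the translates of `K` by `2 (i a + j b)` and of `2 c - K` by `2 (i a + j b)` do not overlap -/
def DLat (K : Set (ℝ × ℝ)) (a b c : ℝ × ℝ) : Prop :=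
  (∀ i j : ℤ, c + (i : ℝ) • a + (j : ℝ) • b ∉ interior K) ∧
  ∀ i j : ℤ, (i ≠ 0 ∨ j ≠ 0) → ∀ u ∈ interior K, ∀ v ∈ interior K,
    u - v ≠ (2 * (i : ℝ)) • a + (2 * (j : ℝ)) • b

/-- half-length data give a double lattice -/
def S_DL : Prop := ∀ (K : Set (ℝ × ℝ)) (l y2 y1 p2 p1 e ys : ℝ), Bd K →
  HL K l y2 y1 p2 p1 e ys → DLat K (l / 2, 0) (p1 - p2, y1 - y2) (p1, y1)

/-- Affine images. `Φ z = c₀ + z.1 • A + z.2 • B` is an affine homeomorphism of the plane (inverse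
by Cramer's rule, write it down explicitly). The preimage of `K` is the image of `K` under the
inverse, hence compact and convex; `interior (Φ ⁻¹' K) = Φ ⁻¹' interior K` (`Homeomorph`). Volume:
`Measure.addHaar_preimage_linearMap` or `Measure.addHaar_image_linearMap` and translation
invariance; the determinant of `z ↦ z.1 • A + z.2 • B` is `A.1 * B.2 - A.2 * B.1` (matrix of the
map in `Basis.finTwoProd ℝ`, `LinearMap.det_toLin`, `Matrix.det_fin_two`). `DLat`: the map is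
affine, `Φ (c + i a + j b) = Φ c + i (lin a) + j (lin b)` and `Φ u - Φ v = lin (u - v)`, `lin`
injective. -/
def S_Aff : Prop := ∀ (K : Set (ℝ × ℝ)) (A B c₀ : ℝ × ℝ), Bd K → A.1 * B.2 - A.2 * B.1 ≠ 0 →
  Bd ((fun z : ℝ × ℝ => c₀ + z.1 • A + z.2 • B) ⁻¹' K) ∧
  volume.real K = |A.1 * B.2 - A.2 * B.1| *
    volume.real ((fun z : ℝ × ℝ => c₀ + z.1 • A + z.2 • B) ⁻¹' K) ∧
  ∀ a b c : ℝ × ℝ, DLat ((fun z : ℝ × ℝ => c₀ + z.1 • A + z.2 • B) ⁻¹' K) a b c →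
    DLat K (a.1 • A + a.2 • B) (b.1 • A + b.2 • B) (c₀ + c.1 • A + c.2 • B)

/-- a trapezoid inside a convex body -/
def S_Trap : Prop := ∀ (K : Set (ℝ × ℝ)) (α β q q' p p' : ℝ), Bd K → α ≤ β → 0 ≤ p → 0 ≤ p' →
  (α, q) ∈ K → (α, q + p) ∈ K → (β, q') ∈ K → (β, q' + p') ∈ K →
  (p + p') / 2 * (β - α) ≤ volume.real (K ∩ {z | α < z.1 ∧ z.1 < β})

/-- the inequality in normalised coordinates: `K` contains the unit square and a horizontal chord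
of length 2, and the half-length data of `K` for vertical chords are `2 h, x2, x1, ...` -/
def S_Ineq : Prop := ∀ (K : Set (ℝ × ℝ)) (e ys h x2 x1 q2 q1 g xs : ℝ), Bd K →
  ((0 : ℝ), (0 : ℝ)) ∈ K → ((1 : ℝ), (0 : ℝ)) ∈ K → ((0 : ℝ), (1 : ℝ)) ∈ K →
  ((1 : ℝ), (1 : ℝ)) ∈ K → (e, ys) ∈ K → (e + 2, ys) ∈ K →
  HL {z : ℝ × ℝ | (z.2, z.1) ∈ K} (2 * h) x2 x1 q2 q1 g xs →
  √3 ≤ volume.real K ∨ √3 * (h * (x1 - x2)) ≤ volume.real K

/-- the bound for double lattices: density `√3 / 2` -/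
def S_Half : Prop := ∀ K : Set (ℝ × ℝ), Bd K → ∃ a b c : ℝ × ℝ, DLat K a b c ∧
  a.1 * b.2 - a.2 * b.1 ≠ 0 ∧ √3 * |a.1 * b.2 - a.2 * b.1| ≤ volume.real K

/-- Many copies in a large square. Let `D = |a.1| + |a.2| + |b.1| + |b.2|`,
`R = 2 * |c.1| + 2 * |c.2| + 1`, `C = 2 * R + 4 * D + 1` (or larger). Index set
`I = {(i, j) : ℤ × ℤ | R ≤ 2 i a + 2 j b ≤ M - R in both coordinates}`, finite because the
determinant is not `0` (Cramer: `i` and `j` are bounded; or intersect with a box). Places: for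
each `(i, j) ∈ I` the two maps `z ↦ z + λ` and `z ↦ (2 c + λ) - z`, `λ = 2 i a + 2 j b`. They map
the unit square into `[0, M]²`. No overlap: same sign `u + λ = v + λ'` contradicts `DLat.2`;
opposite signs `u + λ = 2 c + λ' - v` gives `(u + v) / 2 = c + (i' - i) a + (j' - j) b` and
`(u + v) / 2 ∈ interior K` by convexity, contradicts `DLat.1`. Number: every point `x` of the
square `[R + 2 D, M - R - 2 D]²` is `2 s a + 2 t b` (Cramer), `i = ⌊s⌋, j = ⌊t⌋` is in `I`, so the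
square is covered by the parallelograms `λ + {2 s a + 2 t b | 0 ≤ s, t ≤ 1}`, each of volume
`4 |det (a, b)|` (by `S_Aff` applied to the parallelogram, or directly), so
`(M - 2 R - 4 D) ^ 2 ≤ #I * 4 |det|` and `n = 2 #I`. -/
def S_Pal : Prop := ∀ (K : Set (ℝ × ℝ)) (a b c : ℝ × ℝ), Bd K → DLat K a b c →
  a.1 * b.2 - a.2 * b.1 ≠ 0 → ∃ C : ℝ, 0 < C ∧ ∀ M : ℝ, C ≤ M →
  ∃ (n : ℕ) (σ : Fin n → ℝ) (τ : Fin n → ℝ × ℝ), (∀ s, σ s = 1 ∨ σ s = -1) ∧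
    (∀ s, ∀ x y : ℝ, 0 ≤ x → x ≤ 1 → 0 ≤ y → y ≤ 1 → (0 ≤ σ s * x + (τ s).1 ∧
      σ s * x + (τ s).1 ≤ M) ∧ (0 ≤ σ s * y + (τ s).2 ∧ σ s * y + (τ s).2 ≤ M)) ∧
    (∀ s s', s ≠ s' → ∀ u ∈ interior K, ∀ v ∈ interior K, σ s • u + τ s ≠ σ s' • v + τ s') ∧
    (M - C) ^ 2 ≤ n * (2 * |a.1 * b.2 - a.2 * b.1|)

/-- Finitely many shapes. Take `n` large (`ε = 3 / n`, `8 ε ≤ η c`, `ε ≤ 1`), grid points
`g = (i / n, j / n)`, `i j : Fin (n + 1)`; the label of `H` is the set of the grid points `g` with a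
point of `H` at sup-distance at most `1 / n` (a `Finset`/`Set` of a finite type, transported to
`Fin m` by an equivalence as in `LV/I_Cls.lean`), `hull` of a label is the convex hull of the union
of the closed boxes `g + [-2/n, 2/n]²`. (`Metric.closedBall` in `ℝ × ℝ` is a box.) Then
`H ⊆ interior (hull)`, `hull ⊆ H + [-ε, ε]²` (this set is convex and contains the boxes). Volume of
`H + [-ε, ε]²`: first `H + [-ε, ε] × {0}`: by Fubini (`Measure.prod_apply`, sections are compact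
intervals, each non-empty horizontal section of length `p` becomes a section of length `p + 2 ε`,
the heights are in `[0, 1]`) its volume is at most `vol H + 2 ε`; then the same with vertical
sections, widths in `[-ε, 1 + ε]`: at most `vol H + 2 ε + 2 ε (1 + 2 ε) ≤ vol H + 8 ε`. (Any other
proof is fine.) -/
def S_Hull : Prop := ∀ c η : ℝ, 0 < c → 0 < η →
  ∃ (m : ℕ) (lab : Set (ℝ × ℝ) → Fin m) (hull : Fin m → Set (ℝ × ℝ)),
    ∀ H : Set (ℝ × ℝ), Bd H → (∀ z ∈ H, 0 ≤ z.1 ∧ z.1 ≤ 1 ∧ 0 ≤ z.2 ∧ z.2 ≤ 1) →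
      c ≤ volume.real H → Bd (hull (lab H)) ∧ H ⊆ interior (hull (lab H)) ∧
        volume.real (hull (lab H)) ≤ (1 + η) * volume.real H

/-- the coordinates of a point of the plane -/
def p2 (x : E 2) : ℝ × ℝ := (x 0, x 1)

/-- Bodies in `E 2` and in `ℝ × ℝ`: `p2` is a linear homeomorphism which preserves the volume
(`EuclideanSpace.volume_preserving_symm_measurableEquiv_toLp` or the like and
`volume_preserving_finTwoArrow`). -/
def S_Conv : Prop := ∀ H : Set (E 2), IsBody H → Bd (p2 '' H) ∧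
  volume.real (p2 '' H) = volume.real H ∧ p2 '' interior H = interior (p2 '' H)

/-- The pallets (from `S_Half`, `S_Hull`, `S_Pal`, `S_Conv`): take `η > 0` with
`2 (1 + η) / √3 < Q`, the labels and hulls of `S_Hull` (label of `H` = label of `p2 '' H`); for
the labels `j` of bodies as in the statement the hull has a double lattice (`S_Half`), `C j` and
places (`S_Pal`); `M` so large that `(M + 1) ^ 2 * (2 (1 + η) / √3) ≤ Q (M - C j) ^ 2` for all `j`.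
Then `(M - C j) ^ 2 ≤ n j * 2 |det|`, `√3 |det| ≤ vol (hull) ≤ (1 + η) vol H`. For the other
labels `n j = 0`. A box with side `M` (and margins) has `M` (and margins) has `n j` places for bodies with label `j` -/
def S_Slots : Prop := ∀ c Q : ℝ, 0 < c → 2 / √3 < Q →
  ∃ (M : ℝ) (m : ℕ) (lab : Set (E 2) → Fin m) (n : Fin m → ℕ)
    (σ : (j : Fin m) → Fin (n j) → ℝ) (τ : (j : Fin m) → Fin (n j) → E 2), 0 < M ∧
    (∀ j s, σ j s = 1 ∨ σ j s = -1) ∧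
    (∀ j s, ∀ x ∈ LV.ubox 2, ∀ l, 0 ≤ σ j s * x l + τ j s l ∧ σ j s * x l + τ j s l ≤ M) ∧
    ∀ H : Set (E 2), IsBody H → H ⊆ LV.ubox 2 → c ≤ volume.real H →
      (M + 1) ^ 2 ≤ Q * (n (lab H) * volume.real H) ∧
      ∀ H' : Set (E 2), IsBody H' → H' ⊆ LV.ubox 2 → c ≤ volume.real H' → lab H' = lab H →
        ∀ s s' : Fin (n (lab H)), s ≠ s' → ∀ x ∈ H, ∀ y ∈ H',
          σ (lab H) s • x + τ (lab H) s ≠ σ (lab H) s' • y + τ (lab H) s'

/-- Assignment of places: `1 ≤ R n v i` for all `i` and the sum of the `v i` is finite, so the index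
type is finite with `N ≤ R n ∑ v` elements; enumerate it, `pal = rank / n`, `slot = rank % n`. -/
def S_Asg : Prop := ∀ (ι : Type) (v : ι → ℝ) (n : ℕ) (R : ℝ), 0 < R →
  (∀ i, 1 ≤ R * (n * v i)) → Summable v → ∃ (pal : ι → ℕ) (slot : ι → Fin n),
    (∀ i j, i ≠ j → pal i = pal j → slot i ≠ slot j) ∧ ∀ i, (pal i : ℝ) ≤ R * ∑' j, v j

/-- Packing of normalised bodies by translations and point reflections: adapt `LV/I_Pck.lean`
(import it and reuse `AuxPck.total`, `AuxPck.w` etc.): choose `δ, Q` with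
`2 / √3 < Q < (1 - δ) θ ^ 2`, the pallets of `S_Slots c Q`, classes `(q i, lab (H i))`, in each
class the assignment `S_Asg` with `R = Q / (M + 1) ^ 2` instead of `S_Grd`; the pallet of class
`(q, j)` is a box with edges `(M + 1) * 2 * (1/2)^(q l)`, packed by `LV.S_Bx 2 (1/2) δ` (`U = 2 * (M + 1)`);
total `U ^ 2 (4 m) + Q t ≤ (1 - δ) θ ^ 2 t` for large `t`. -/
def S_PckP : Prop := ∀ c θ : ℝ, 0 < c → 0 < θ → 2 / √3 < θ ^ 2 → ∃ t₀ : ℝ, 0 < t₀ ∧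
  ∀ t : ℝ, t₀ ≤ t → ∀ (ι : Type) [Countable ι] (q : ι → Fin 2 → ℕ) (H : ι → Set (E 2)),
  (∀ i, IsBody (H i)) → (∀ i, H i ⊆ LV.ubox 2) → (∀ i, c ≤ volume.real (H i)) →
  (Summable fun i => (∏ l, 2 * (1 / 2 : ℝ) ^ q i l) * volume.real (H i)) →
  ∑' i, (∏ l, 2 * (1 / 2 : ℝ) ^ q i l) * volume.real (H i) ≤ t →
  ∃ (σ : ι → ℝ) (τ : ι → E 2), (∀ i, σ i = 1 ∨ σ i = -1) ∧
    (∀ i, ∀ x ∈ H i, ∀ l, 0 ≤ τ i l + σ i * (2 * (1 / 2 : ℝ) ^ q i l * x l) ∧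
      τ i l + σ i * (2 * (1 / 2 : ℝ) ^ q i l * x l) ≤ θ * √t) ∧
    ∀ i j, i ≠ j → ∀ x ∈ H i, ∀ y ∈ H j,
      τ i + σ i • LV.dil (fun l => 2 * (1 / 2 : ℝ) ^ q i l) x ≠
        τ j + σ j • LV.dil (fun l => 2 * (1 / 2 : ℝ) ^ q j l) y

/-- The upper bound: adapt `LV/I_Up4.lean` (from `LV.S_Nrm` with `k = 2` and `S_PckP`); the
isometries are `x ↦ σ i • g i x + (τ i - half)`. -/
def S_UpP : Prop := ∀ θ : ℝ, 0 < θ → 2 / √3 < θ ^ 2 → ∃ t₀ : ℝ, 0 < t₀ ∧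
  ∀ t : ℝ, t₀ ≤ t → Works 2 1 t (√2 * (θ * √t))

/-! ## Thue's theorem -/

/-- (Cap) A circular segment is at most a fixed part of its sector: `w` is a vector of length `d`,
`1 ≤ d < 2 / √3`, the disc has radius `1 / √3`, the segment is cut off by the perpendicular
bisector of `0` and `w`, the sector has the half angle `ψ = arccos (√3 d / 2) ≤ π / 6`. Proof: `R = 1 / √3`,
`d / 2 = R cos ψ`. By a linear isometry (`reflection`, `reflection_sub`-like: there is a linear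
isometry taking `w` to `EuclideanSpace.single 0 ‖w‖`) assume `w = d e₀`. In coordinates the segment is
`{d/2 ≤ x, x² + y² < R²}` (`regionBetween` of `∓ √(R² - x²)` over `Ico (d/2) R`), its volume is
`∫_(d/2)^R 2 √(R² - x²) = R² (ψ - sin ψ cos ψ) =: S` (antiderivative
`x √(R² - x²) + R² arcsin (x / R)`). The sector contains the segment and, disjoint from it, the
triangle `{0 < x < d/2, |y| < x tan ψ}` of volume `R² sin ψ cos ψ =: T`. With `q = 3√3 / (2π)` the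
claim `S ≤ (1 - q) (S + T)` is `q R² ψ ≤ R² sin ψ cos ψ`, i.e. `(3√3/π) ψ ≤ sin (2ψ)`, which is the
concavity of `sin` on `[0, π/3]` (`strictConcaveOn_sin_Icc`). -/
def S_Cap : Prop := ∀ w : E 2, 1 ≤ ‖w‖ → ‖w‖ < 2 / √3 →
  volume.real {x : E 2 | ‖x‖ < 1 / √3 ∧ ‖w‖ ^ 2 / 2 ≤ ⟪x, w⟫} ≤
    (1 - 3 * √3 / (2 * Real.pi)) *
      volume.real {x : E 2 | ‖x‖ < 1 / √3 ∧ ‖x‖ * (√3 / 2 * ‖w‖) * ‖w‖ < ⟪x, w⟫}

/-- (Sec) The sectors of different neighbours are disjoint. Let `a = ‖w‖²`, `b = ‖w'‖²`,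
`a, b ∈ [1, 4/3)`, `x ≠ 0` and normalise `‖x‖ = 1`: `p = ⟪x, w⟫ / √a > (√3/2) √a =: P`,
`q = ⟪x, w'⟫ / √b > (√3/2) √b =: P'`. Gram: `⟪w, w'⟫ / √(ab) ≥ p q - √(1-p²) √(1-q²) > P P' - √(1-P²) √(1-P'²)`,
and `2 ⟪w, w'⟫ ≤ a + b - 1`. So it suffices that
`(a + b - 1) ≤ (3/2) a b - 2 √(a b (1 - 3a/4) (1 - 3b/4))`; squaring, with `a = 1 + s`, `b = 1 + t`:
`((3/2)ab - a - b + 1)² - 4ab(1-3a/4)(1-3b/4) = s + t + s² + t² + s t ≥ 0`, and
`(3/2)ab - a - b + 1 > 0`. (Or with angles: `InnerProductGeometry.angle` and its triangle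
inequality.) -/
def S_Sec : Prop := ∀ w w' x : E 2, 1 ≤ ‖w‖ → ‖w‖ < 2 / √3 → 1 ≤ ‖w'‖ → ‖w'‖ < 2 / √3 →
  1 ≤ ‖w - w'‖ → ‖x‖ * (√3 / 2 * ‖w‖) * ‖w‖ < ⟪x, w⟫ →
  ¬ ‖x‖ * (√3 / 2 * ‖w'‖) * ‖w'‖ < ⟪x, w'⟫

/-- (Thue, from Cap and Sec) `R = 1 / √3`, `D i = {x | ‖x - c i‖ < R ∧ ∀ j ≠ i, ‖x - c i‖ < ‖x - c j‖}`:
pairwise disjoint, contained in the square `|x l| ≤ (s + 2) / 2` of volume `(s + 2) ^ 2`. Volume of
`D i` at least `√3 / 2`: the ball `B (c i) R` (volume `π / 3`, `EuclideanSpace.volume_ball_fin_two`) is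
covered by `D i` and the segments `{‖x - c i‖ < R, ‖w‖²/2 ≤ ⟪x - c i, w⟫}`, `w = c j - c i`, which are
empty if `‖w‖ ≥ 2 R`; by `S_Cap` the sum of their volumes is at most `(1 - 3√3/(2π))` times the sum
of the volumes of the sectors, which are disjoint (`S_Sec`) subsets of the ball. -/
def S_Thue : Prop := ∀ (N : ℕ) (s : ℝ) (c : Fin N → E 2), 0 ≤ s → (∀ i l, |c i l| ≤ s / 2) →
  (∀ i j, i ≠ j → 1 ≤ dist (c i) (c j)) → (N : ℝ) * (√3 / 2) ≤ (s + 2) ^ 2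

/-- The lower bound: adapt `LV/I_LowB.lean` (discs of radius `1 / 2`, volume `π / 4`), with
`S_Thue` instead of `LV.S_Bli`. -/
def S_LowT : Prop := ∀ t c : ℝ, 1 < t → 0 < c → Works 2 1 t c →
  (t - 1) * (2 * √3 / Real.pi) ≤ (c / √2 + 2) ^ 2

/-! ## The theorem -/

/-- The theorem: adapt `LV/I_Main.lean` (`k = 2`; `LV.S_Lim` gives `L`). -/
def S_MainP : Prop := ∃ L : ℝ, 0 < L ∧ 4 * √3 / Real.pi ≤ L ^ 2 ∧ L ^ 2 ≤ 4 / √3 ∧
  (∀ ε : ℝ, 0 < ε → ∃ B : ℝ, 0 < B ∧ ∀ a b : ℝ, 0 < a → B * a ^ 2 ≤ b →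
    |f 2 a b - L * √b| ≤ ε * √b) ∧
  ∀ a b : ℝ, 0 < a → a ^ 2 ≤ b → L * √(b - a ^ 2) ≤ f 2 a b

end Pool.Agent.Potatoes.PL
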