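import Mathlib
import Pool.Agent.Work.MP_72041b_co.PL.Stmts

/-!
# Item Asg: assignment of places
-/

set_option autoImplicit false

namespace Pool.Agent.Potatoes.PL

theorem pr_Asg : S_Asg := by
  intro ι v n R hR h hs
  rcases isEmpty_or_nonempty ι with hE | ⟨⟨i₀⟩⟩
  · exact ⟨fun i => (hE.false i).elim, fun i => (hE.false i).elim,
      fun i => (hE.false i).elim, fun i => (hE.false i).elim⟩
  have hn : 0 < n := by
    rcases Nat.eq_zero_or_pos n with h0 | h0
    · exfalso
      have := h i₀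
      rw [h0] at this
      norm_num at this
    · exact h0
  have hn' : (0 : ℝ) < n := by exact_mod_cast hn
  have hv : ∀ i, (R * n)⁻¹ ≤ v i := by
    intro i
    rw [inv_le_iff_one_le_mul₀ (by positivity)]
    calc (1 : ℝ) ≤ R * (n * v i) := h i
      _ = v i * (R * n) := by ring
  have hfin : Finite ι := by
    have h1 := hs.tendsto_cofinite_zero.eventually (gt_mem_nhds (show (0 : ℝ) < (R * n)⁻¹ by positivity))
    rw [Filter.eventually_cofinite] at h1
    have h2 : {i | ¬ v i < (R * n)⁻¹} = Set.univ :=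
      Set.eq_univ_of_forall (fun i => not_lt.2 (hv i))
    rw [h2] at h1
    exact Set.finite_univ_iff.1 h1
  have hft : Fintype ι := Fintype.ofFinite ι
  have hcard : (Fintype.card ι : ℝ) ≤ R * n * ∑' j, v j := by
    rw [tsum_fintype, Finset.mul_sum]
    calc (Fintype.card ι : ℝ) = ∑ _i : ι, (1 : ℝ) := by simp
      _ ≤ ∑ i, R * n * v i := Finset.sum_le_sum (fun i _ => by
        calc (1 : ℝ) ≤ R * (n * v i) := h i
          _ = R * n * v i := by ring)
  let e := Fintype.equivFin ι
  refine ⟨fun i => (e i : ℕ) / n, fun i => ⟨(e i : ℕ) % n, Nat.mod_lt _ hn⟩, ?_, ?_⟩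
  · intro i j hij hp hsl
    apply hij
    apply e.injective
    apply Fin.ext
    have h1 : (e i : ℕ) % n = (e j : ℕ) % n := by simpa using hsl
    have hp' : (e i : ℕ) / n = (e j : ℕ) / n := hp
    rw [← Nat.div_add_mod (e i : ℕ) n, ← Nat.div_add_mod (e j : ℕ) n, h1, hp']
  · intro i
    have h1 : (((e i : ℕ) / n : ℕ) : ℝ) ≤ (e i : ℕ) / n := Nat.cast_div_le
    have h2 : ((e i : ℕ) : ℝ) ≤ Fintype.card ι := by exact_mod_cast (e i).2.le
    calc (((e i : ℕ) / n : ℕ) : ℝ) ≤ (e i : ℕ) / n := h1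
      _ ≤ R * ∑' j, v j := by
        rw [div_le_iff₀ hn']
        calc ((e i : ℕ) : ℝ) ≤ Fintype.card ι := h2
          _ ≤ R * n * ∑' j, v j := hcard
          _ = R * (∑' j, v j) * n := by ring

end Pool.Agent.Potatoes.PL
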