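import Pool.Agent.Work.MP_72041b_co.PL.Stmts

set_option autoImplicit false

/-!
# MP_72041b_co, block PL: Cap (a circular segment against its sector)
-/

namespace Pool.Agent.Potatoes.PL

namespace AuxCap

open MeasureTheory Set Metric
open scoped RealInnerProductSpace

/-- the antiderivative of the height of a disc of radius `R` -/
theorem hasDerivAt_area (R x : ℝ) (hR : 0 < R) (h1 : -R < x) (h2 : x < R) :
    HasDerivAt (fun x => x * √(R ^ 2 - x ^ 2) + R ^ 2 * Real.arcsin (x / R))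
      (2 * √(R ^ 2 - x ^ 2)) x := by
  have hpos : 0 < R ^ 2 - x ^ 2 := by nlinarith
  have hne : R ^ 2 - x ^ 2 ≠ 0 := hpos.ne'
  have hx1 : x / R ≠ -1 := by
    intro h
    rw [div_eq_iff hR.ne'] at h
    linarith
  have hx2 : x / R ≠ 1 := by
    intro h
    rw [div_eq_iff hR.ne'] at h
    linarith
  have hd1 : HasDerivAt (fun x : ℝ => R ^ 2 - x ^ 2) (-(2 * x)) x := by
    have := (hasDerivAt_pow 2 x).const_sub (R ^ 2)
    simpa using this
  have hd2 : HasDerivAt (fun x : ℝ => √(R ^ 2 - x ^ 2)) (-(2 * x) / (2 * √(R ^ 2 - x ^ 2))) x :=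
    hd1.sqrt hne
  have hd3 := (hasDerivAt_id x).mul hd2
  have hd4 : HasDerivAt (fun x : ℝ => x / R) (1 / R) x := (hasDerivAt_id x).div_const R
  have hd5 : HasDerivAt (fun x : ℝ => Real.arcsin (x / R)) (1 / √(1 - (x / R) ^ 2) * (1 / R)) x := by
    have h := HasDerivAt.comp x (h₂ := Real.arcsin) (Real.hasDerivAt_arcsin hx1 hx2) hd4
    exact h
  have hd6 := hd3.add (hd5.const_mul (R ^ 2))
  have hs : 0 < √(R ^ 2 - x ^ 2) := Real.sqrt_pos.2 hpos
  have hsq : √(R ^ 2 - x ^ 2) ^ 2 = R ^ 2 - x ^ 2 := Real.sq_sqrt hpos.le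
  have hroot : √(1 - (x / R) ^ 2) = √(R ^ 2 - x ^ 2) / R := by
    rw [show 1 - (x / R) ^ 2 = (R ^ 2 - x ^ 2) / R ^ 2 by field_simp, Real.sqrt_div hpos.le,
      Real.sqrt_sq hR.le]
  refine hd6.congr_deriv ?_
  rw [hroot]
  simp only [id]
  field_simp
  rw [hsq]
  ring

/-- the area of a circular segment -/
theorem integral_seg (R κ : ℝ) (hR : 0 < R) (hκ0 : 0 < κ) (hκ1 : κ < 1) :
    ∫ x in (R * κ)..R, 2 * √(R ^ 2 - x ^ 2) =
      R ^ 2 * (Real.arccos κ - κ * √(1 - κ ^ 2)) := by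
  have hle : R * κ ≤ R := by nlinarith
  have hcont : Continuous (fun x : ℝ => 2 * √(R ^ 2 - x ^ 2)) := by fun_prop
  rw [intervalIntegral.integral_eq_sub_of_hasDerivAt_of_le hle
    (f := fun x => x * √(R ^ 2 - x ^ 2) + R ^ 2 * Real.arcsin (x / R))]
  · have h1 : √(R ^ 2 - R ^ 2) = 0 := by simp
    have h2 : √(R ^ 2 - (R * κ) ^ 2) = R * √(1 - κ ^ 2) := by
      rw [show R ^ 2 - (R * κ) ^ 2 = R ^ 2 * (1 - κ ^ 2) by ring, Real.sqrt_mul (by positivity),
        Real.sqrt_sq hR.le]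
    have h3 : R * κ / R = κ := by field_simp
    simp only [h1, h2, h3, div_self hR.ne', Real.arcsin_one]
    rw [Real.arccos]
    ring
  · apply Continuous.continuousOn
    have := Real.continuous_arcsin
    fun_prop
  · intro x hx
    apply hasDerivAt_area R x hR
    · have := hx.1
      nlinarith [mul_pos hR hκ0]
    · exact hx.2
  · exact hcont.intervalIntegrable _ _

/-- volume of a region between two continuous functions over a compact interval -/
theorem vol_region (f g : ℝ → ℝ) (hf : Continuous f) (hg : Continuous g) (a b : ℝ) (hab : a ≤ b)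
    (hfg : ∀ x ∈ Icc a b, f x ≤ g x) :
    volume.real (regionBetween f g (Icc a b)) = ∫ x in a..b, (g x - f x) := by
  have h1 := volume_regionBetween_eq_integral (μ := volume) (f := f) (g := g) (s := Icc a b)
    (hf.integrableOn_Icc) (hg.integrableOn_Icc) measurableSet_Icc hfg
  have h2 : volume (regionBetween f g (Icc a b)) =
      ENNReal.ofReal (∫ y in Icc a b, (g - f) y) := by
    rw [← h1]
    rfl
  rw [Measure.real, h2, ENNReal.toReal_ofReal]
  · rw [intervalIntegral.integral_of_le hab, integral_Icc_eq_integral_Ioc]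
    rfl
  · apply setIntegral_nonneg measurableSet_Icc
    intro x hx
    exact sub_nonneg.2 (hfg x hx)

/-- the inequality in the plane `ℝ × ℝ` -/
theorem plane (R κ : ℝ) (hR : 0 < R) (hκ0 : √3 / 2 ≤ κ) (hκ1 : κ < 1) :
    volume.real {z : ℝ × ℝ | z.1 ^ 2 + z.2 ^ 2 < R ^ 2 ∧ R * κ ≤ z.1} ≤
      (1 - 3 * √3 / (2 * Real.pi)) *
        volume.real {z : ℝ × ℝ | z.1 ^ 2 + z.2 ^ 2 < R ^ 2 ∧ √(z.1 ^ 2 + z.2 ^ 2) * κ < z.1} := by
  have h3 : 0 < √3 := Real.sqrt_pos.2 (by norm_num)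
  have hκp : 0 < κ := lt_of_lt_of_le (by positivity) hκ0
  set σ := √(1 - κ ^ 2) with hσ
  have hσ2 : σ ^ 2 = 1 - κ ^ 2 := Real.sq_sqrt (by nlinarith)
  have hσp : 0 < σ := Real.sqrt_pos.2 (by nlinarith)
  set A := {z : ℝ × ℝ | z.1 ^ 2 + z.2 ^ 2 < R ^ 2 ∧ R * κ ≤ z.1} with hA
  set B := {z : ℝ × ℝ | z.1 ^ 2 + z.2 ^ 2 < R ^ 2 ∧ √(z.1 ^ 2 + z.2 ^ 2) * κ < z.1} with hB
  set T := regionBetween (fun x => -(x * (σ / κ))) (fun x => x * (σ / κ)) (Icc 0 (R * κ)) with hT
  -- the segment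
  have hAeq : A = regionBetween (fun x => -√(R ^ 2 - x ^ 2)) (fun x => √(R ^ 2 - x ^ 2))
      (Icc (R * κ) R) := by
    ext ⟨x, y⟩
    simp only [hA, mem_ofPred_eq, regionBetween, mem_Icc, mem_Ioo]
    constructor
    · rintro ⟨h1, h2⟩
      have hx0 : 0 < x := lt_of_lt_of_le (mul_pos hR hκp) h2
      have hxR : x ≤ R := by
        by_contra hcon
        push Not at hcon
        nlinarith [sq_nonneg y]
      have hy : y ^ 2 < R ^ 2 - x ^ 2 := by linarith
      have habs : |y| < √(R ^ 2 - x ^ 2) := by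
        rw [← Real.sqrt_sq_eq_abs]
        exact Real.sqrt_lt_sqrt (sq_nonneg y) hy
      exact ⟨⟨h2, hxR⟩, (abs_lt.1 habs).1, (abs_lt.1 habs).2⟩
    · rintro ⟨⟨h1, h2⟩, h4, h5⟩
      have habs : |y| < √(R ^ 2 - x ^ 2) := abs_lt.2 ⟨h4, h5⟩
      have hx0 : 0 < x := lt_of_lt_of_le (mul_pos hR hκp) h1
      have hnn : 0 ≤ R ^ 2 - x ^ 2 := by nlinarith
      have := (Real.lt_sqrt (abs_nonneg y)).1 habs
      rw [sq_abs] at this
      exact ⟨by linarith, h1⟩
  have hle : R * κ ≤ R := by nlinarith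
  have hAvol : volume.real A = R ^ 2 * (Real.arccos κ - κ * σ) := by
    rw [hAeq, vol_region _ _ (by fun_prop) (by fun_prop) _ _ hle, hσ,
      ← integral_seg R κ hR hκp hκ1]
    · apply intervalIntegral.integral_congr
      intro x _
      simp only
      ring
    · intro x _
      have := Real.sqrt_nonneg (R ^ 2 - x ^ 2)
      linarith
  have hTvol : volume.real T = R ^ 2 * (κ * σ) := by
    rw [hT, vol_region _ _ (by fun_prop) (by fun_prop) _ _ (by positivity)]
    · have h1 : ∀ x : ℝ, x * (σ / κ) - -(x * (σ / κ)) = (2 * (σ / κ)) * x := by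
        intro x
        ring
      simp only [h1]
      rw [intervalIntegral.integral_const_mul, integral_id]
      field_simp
      ring
    · intro x hx
      have := mul_nonneg hx.1 (div_pos hσp hκp).le
      linarith
  -- inclusions
  have hAB : A ⊆ B := by
    rintro ⟨x, y⟩ ⟨h1, h2⟩
    refine ⟨h1, ?_⟩
    simp only at h1 h2 ⊢
    have h4 : √(x ^ 2 + y ^ 2) < R := by
      rw [Real.sqrt_lt' hR]
      exact h1
    nlinarith
  have hTB : T ⊆ B := by
    rintro ⟨x, y⟩ hz
    simp only [hT, regionBetween, mem_ofPred_eq, mem_Icc, mem_Ioo] at hz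
    obtain ⟨⟨h1, h2⟩, h4, h5⟩ := hz
    have habs : |y| < x * (σ / κ) := abs_lt.2 ⟨h4, h5⟩
    have hx0 : 0 < x := by
      rcases h1.lt_or_eq with h | h
      · exact h
      · rw [← h, zero_mul] at habs
        exact absurd habs (not_lt.2 (abs_nonneg y))
    have hy2 : y ^ 2 * κ ^ 2 < x ^ 2 * σ ^ 2 := by
      have h6 : |y| * κ < x * σ := by
        rw [← mul_div_assoc, lt_div_iff₀ hκp] at habs
        exact habs
      have h7 : (|y| * κ) ^ 2 < (x * σ) ^ 2 :=
        pow_lt_pow_left₀ h6 (by positivity) (by norm_num)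
      rw [mul_pow, mul_pow, sq_abs] at h7
      exact h7
    have hkey : (x ^ 2 + y ^ 2) * κ ^ 2 < x ^ 2 := by
      rw [hσ2] at hy2
      nlinarith
    refine ⟨?_, ?_⟩
    · simp only
      have h8 : x ^ 2 ≤ (R * κ) ^ 2 := pow_le_pow_left₀ h1 h2 2
      have h9 : (x ^ 2 + y ^ 2) * κ ^ 2 < R ^ 2 * κ ^ 2 := by
        calc (x ^ 2 + y ^ 2) * κ ^ 2 < x ^ 2 := hkey
          _ ≤ (R * κ) ^ 2 := h8
          _ = R ^ 2 * κ ^ 2 := by ring
      exact lt_of_mul_lt_mul_right h9 (by positivity)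
    · simp only
      have h8 : (√(x ^ 2 + y ^ 2) * κ) ^ 2 < x ^ 2 := by
        rw [mul_pow, Real.sq_sqrt (by positivity)]
        exact hkey
      exact lt_of_pow_lt_pow_left₀ 2 hx0.le h8
  have hBfin : volume B ≠ ⊤ := by
    have hsub : B ⊆ Icc (-R) R ×ˢ Icc (-R) R := by
      rintro ⟨x, y⟩ ⟨h1, -⟩
      simp only at h1
      have hx : |x| ≤ R := abs_le_of_sq_le_sq (by nlinarith [sq_nonneg y]) hR.le
      have hy : |y| ≤ R := abs_le_of_sq_le_sq (by nlinarith [sq_nonneg x]) hR.le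
      exact ⟨⟨(abs_le.1 hx).1, (abs_le.1 hx).2⟩, ⟨(abs_le.1 hy).1, (abs_le.1 hy).2⟩⟩
    have hc : IsCompact (Icc (-R) R ×ˢ Icc (-R) R) := isCompact_Icc.prod isCompact_Icc
    exact ((measure_mono hsub).trans_lt hc.measure_lt_top).ne
  have hTm : MeasurableSet T := measurableSet_regionBetween (by fun_prop) (by fun_prop)
    measurableSet_Icc
  -- almost disjoint: the intersection lies on a vertical line
  have hdisj : volume (A ∩ T) = 0 := by
    have hsub : A ∩ T ⊆ {R * κ} ×ˢ (univ : Set ℝ) := by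
      rintro ⟨x, y⟩ ⟨⟨-, h2⟩, hz⟩
      simp only [hT, regionBetween, mem_ofPred_eq, mem_Icc, mem_Ioo] at hz
      refine ⟨?_, mem_univ _⟩
      simp only at h2 ⊢
      exact le_antisymm hz.1.2 h2
    refine measure_mono_null hsub ?_
    rw [Measure.volume_eq_prod, Measure.prod_prod]
    simp
  have hsum : volume.real A + volume.real T ≤ volume.real B := by
    have h1 : volume.real (A ∪ T) = volume.real A + volume.real T := by
      rw [Measure.real, Measure.real, Measure.real,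
        measure_union₀ hTm.nullMeasurableSet hdisj, ENNReal.toReal_add]
      · exact ((measure_mono hAB).trans_lt (lt_top_iff_ne_top.2 hBfin)).ne
      · exact ((measure_mono hTB).trans_lt (lt_top_iff_ne_top.2 hBfin)).ne
    rw [← h1]
    exact measureReal_mono (union_subset hAB hTB) hBfin
  -- the angle
  set ψ := Real.arccos κ with hψ
  have hψ0 : 0 ≤ ψ := Real.arccos_nonneg κ
  have hcos : Real.cos ψ = κ := Real.cos_arccos (by linarith) hκ1.le
  have hsin : Real.sin ψ = σ := Real.sin_arccos κ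
  have hψ1 : ψ ≤ Real.pi / 6 := by
    have h1 : Real.arccos κ ≤ Real.arccos (√3 / 2) := Real.arccos_le_arccos hκ0
    have h2 : Real.arccos (√3 / 2) = Real.pi / 6 := by
      rw [← Real.cos_pi_div_six, Real.arccos_cos (by positivity) (by linarith [Real.pi_pos])]
    rw [h2] at h1
    exact h1
  have hpi := Real.pi_pos
  have hconc : 3 * √3 / Real.pi * ψ ≤ Real.sin (2 * ψ) := by
    have hc := strictConcaveOn_sin_Icc.concaveOn
    set t := 6 * ψ / Real.pi with ht
    have ht0 : 0 ≤ t := by positivity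
    have ht1 : t ≤ 1 := by
      rw [ht, div_le_one hpi]
      linarith
    have m0 : (0 : ℝ) ∈ Icc 0 Real.pi := ⟨le_rfl, hpi.le⟩
    have m1 : Real.pi / 3 ∈ Icc 0 Real.pi := ⟨by positivity, by linarith⟩
    have h1 := hc.2 m0 m1 (sub_nonneg.2 ht1) ht0 (by ring)
    simp only [smul_eq_mul, mul_zero, Real.sin_zero, zero_add] at h1
    rw [Real.sin_pi_div_three] at h1
    have h2 : t * (Real.pi / 3) = 2 * ψ := by
      rw [ht]
      field_simp
      ring
    rw [h2] at h1
    calc 3 * √3 / Real.pi * ψ = t * (√3 / 2) := by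
          rw [ht]
          field_simp
          ring
      _ ≤ _ := h1
  rw [Real.sin_two_mul, hcos, hsin] at hconc
  set q := 3 * √3 / (2 * Real.pi) with hq
  have hq1 : q * ψ ≤ κ * σ := by
    have : 3 * √3 / Real.pi = 2 * q := by
      rw [hq]
      field_simp
    rw [this] at hconc
    linarith
  have hq0 : 0 < q := by positivity
  have hq2 : q ≤ 1 := by
    rw [hq, div_le_one (by positivity)]
    have h31 : √3 ≤ 1.8 := by
      rw [Real.sqrt_le_left (by norm_num)]
      norm_num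
    have := Real.pi_gt_three
    linarith
  have hfinal : volume.real A ≤ (1 - q) * (volume.real A + volume.real T) := by
    rw [hAvol, hTvol]
    have hR2 : 0 < R ^ 2 := by positivity
    nlinarith [mul_le_mul_of_nonneg_left hq1 hR2.le]
  calc volume.real A ≤ (1 - q) * (volume.real A + volume.real T) := hfinal
    _ ≤ (1 - q) * volume.real B := mul_le_mul_of_nonneg_left hsum (by linarith)

theorem vol_coord (S : Set (ℝ × ℝ)) :
    volume.real {x : E 2 | (x 0, x 1) ∈ S} = volume.real S := by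
  have h : MeasurePreserving (MeasurableEquiv.finTwoArrow (α := ℝ)) volume volume :=
    volume_preserving_finTwoArrow ℝ
  have h2 : MeasurePreserving (MeasurableEquiv.toLp 2 (Fin 2 → ℝ)).symm volume volume :=
    EuclideanSpace.volume_preserving_symm_measurableEquiv_toLp (Fin 2)
  have h3 : {x : E 2 | (x 0, x 1) ∈ S} = (MeasurableEquiv.toLp 2 (Fin 2 → ℝ)).symm ⁻¹'
      ((MeasurableEquiv.finTwoArrow (α := ℝ)) ⁻¹' S) := rfl
  rw [h3, Measure.real, h2.measure_preimage_equiv, h.measure_preimage_equiv, Measure.real]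

theorem norm_two (x : E 2) : ‖x‖ = √(x 0 ^ 2 + x 1 ^ 2) := by
  rw [EuclideanSpace.norm_eq, Fin.sum_univ_two]
  simp

/-- the inequality for a multiple of the first basis vector -/
theorem basis_case (d : ℝ) (h1 : 1 ≤ d) (h2 : d < 2 / √3) :
    volume.real {x : E 2 | ‖x‖ < 1 / √3 ∧ d ^ 2 / 2 ≤ d * x 0} ≤
      (1 - 3 * √3 / (2 * Real.pi)) *
        volume.real {x : E 2 | ‖x‖ < 1 / √3 ∧ ‖x‖ * (√3 / 2 * d) * d < d * x 0} := by
  have h3 : 0 < √3 := Real.sqrt_pos.2 (by norm_num)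
  have h33 : √3 ^ 2 = 3 := Real.sq_sqrt (by norm_num)
  have hd : 0 < d := by linarith
  have hR : 0 < 1 / √3 := by positivity
  have hκ1 : √3 / 2 * d < 1 := by
    rw [lt_div_iff₀ h3] at h2
    linarith
  have hκ0 : √3 / 2 ≤ √3 / 2 * d := by nlinarith
  have hRκ : 1 / √3 * (√3 / 2 * d) = d / 2 := by field_simp
  have hp := plane (1 / √3) (√3 / 2 * d) hR hκ0 hκ1
  have hnorm : ∀ x : E 2, ‖x‖ < 1 / √3 ↔ x 0 ^ 2 + x 1 ^ 2 < (1 / √3) ^ 2 := by
    intro x
    rw [norm_two, Real.sqrt_lt' hR]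
  have e1 : {x : E 2 | ‖x‖ < 1 / √3 ∧ d ^ 2 / 2 ≤ d * x 0} =
      {x : E 2 | (x 0, x 1) ∈ {z : ℝ × ℝ | z.1 ^ 2 + z.2 ^ 2 < (1 / √3) ^ 2 ∧
        1 / √3 * (√3 / 2 * d) ≤ z.1}} := by
    ext x
    simp only [mem_ofPred_eq, hnorm, hRκ]
    refine and_congr_right fun _ => ?_
    rw [show d ^ 2 / 2 = d * (d / 2) by ring]
    exact mul_le_mul_iff_right₀ hd
  have e2 : {x : E 2 | ‖x‖ < 1 / √3 ∧ ‖x‖ * (√3 / 2 * d) * d < d * x 0} =
      {x : E 2 | (x 0, x 1) ∈ {z : ℝ × ℝ | z.1 ^ 2 + z.2 ^ 2 < (1 / √3) ^ 2 ∧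
        √(z.1 ^ 2 + z.2 ^ 2) * (√3 / 2 * d) < z.1}} := by
    ext x
    simp only [mem_ofPred_eq, hnorm, norm_two x]
    refine and_congr_right fun _ => ?_
    rw [mul_comm _ d]
    exact mul_lt_mul_iff_right₀ hd
  rw [e1, e2, vol_coord, vol_coord]
  exact hp

end AuxCap

open MeasureTheory Set AuxCap
open scoped RealInnerProductSpace

theorem pr_Cap : S_Cap := by
  intro w h1 h2
  set d := ‖w‖ with hd
  set v : E 2 := EuclideanSpace.single 0 d with hv
  have hvn : ‖v‖ = d := by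
    rw [norm_two, hv]
    simp only [PiLp.single_apply, if_true]
    rw [if_neg (by decide), zero_pow two_ne_zero, add_zero, Real.sqrt_sq (by linarith)]
  set L : E 2 ≃ₗᵢ[ℝ] E 2 := (Submodule.span ℝ {w - v})ᗮ.reflection with hL
  have hLw : L w = v := Submodule.reflection_sub (by rw [hvn])
  have hpres : MeasurePreserving L volume volume := L.measurePreserving
  have hinner : ∀ x : E 2, ⟪x, w⟫ = d * (L x) 0 := by
    intro x
    rw [← L.inner_map_map x w, hLw, hv, real_inner_comm, EuclideanSpace.inner_single_left]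
    simp
  have key : ∀ P : E 2 → Prop, volume.real {x : E 2 | P (L x)} = volume.real {x : E 2 | P x} := by
    intro P
    have h3 : {x : E 2 | P (L x)} = L.toMeasurableEquiv ⁻¹' {x : E 2 | P x} := rfl
    have h4 : MeasurePreserving L.toMeasurableEquiv volume volume := hpres
    rw [h3, Measure.real, h4.measure_preimage_equiv, Measure.real]
  have hb := basis_case d h1 h2
  rw [← key (fun x => ‖x‖ < 1 / √3 ∧ d ^ 2 / 2 ≤ d * x 0),
    ← key (fun x => ‖x‖ < 1 / √3 ∧ ‖x‖ * (√3 / 2 * d) * d < d * x 0)] at hb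
  simp only [L.norm_map, ← hinner] at hb
  exact hb

end Pool.Agent.Potatoes.PL
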