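import Pool.Agent.Work.MP_72041b_co.PL.Stmts

set_option autoImplicit false

namespace Pool.Agent.Potatoes.PL

open MeasureTheory Set Metric
open scoped RealInnerProductSpace Pointwise

namespace AuxConv

/-- `p2` as a continuous linear equivalence. -/
noncomputable def L2 : E 2 ≃L[ℝ] ℝ × ℝ :=
  (PiLp.continuousLinearEquiv 2 ℝ (fun _ : Fin 2 => ℝ)).trans
    (ContinuousLinearEquiv.finTwoArrow ℝ ℝ)

theorem L2_eq : (L2 : E 2 → ℝ × ℝ) = p2 := by
  funext x
  rfl

theorem mp : MeasurePreserving (p2 : E 2 → ℝ × ℝ) volume volume := by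
  have h1 := PiLp.volume_preserving_ofLp (Fin 2)
  have h2 := volume_preserving_finTwoArrow ℝ
  have h3 := h2.comp h1
  exact h3

end AuxConv

theorem pr_Conv : S_Conv := by
  intro H hH
  rw [← AuxConv.L2_eq]
  have hint : AuxConv.L2 '' interior H = interior (AuxConv.L2 '' H) :=
    AuxConv.L2.toHomeomorph.image_interior H
  refine ⟨⟨?_, ?_, ?_⟩, ?_, hint⟩
  · exact hH.compact.image AuxConv.L2.continuous
  · exact hH.convex.linear_image (AuxConv.L2 : E 2 →ₗ[ℝ] ℝ × ℝ)
  · rw [← hint]
    exact hH.inner.image _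
  · have hmp : MeasurePreserving (AuxConv.L2 : E 2 → ℝ × ℝ) volume volume := by
      rw [AuxConv.L2_eq]; exact AuxConv.mp
    have hm : MeasurableSet (AuxConv.L2 '' H) :=
      (hH.compact.image AuxConv.L2.continuous).measurableSet
    have h := hmp.measure_preimage hm.nullMeasurableSet
    rw [preimage_image_eq H AuxConv.L2.injective] at h
    simp only [Measure.real, h]

end Pool.Agent.Potatoes.PL
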