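import Pool.Agent.Work.MP_72041b_co.PL.I_HL

set_option autoImplicit false

/-!
# MP_72041b_co, block PL, item DL: half-length data give a double lattice
-/

namespace Pool.Agent.Potatoes.PL

open MeasureTheory Set Metric
open scoped RealInnerProductSpace Pointwise

namespace AuxDL

open AuxHL

lemma mid {K : Set (ℝ × ℝ)} (hK : Convex ℝ K) {x y x' y' : ℝ} (h : (x, y) ∈ K)
    (h' : (x', y') ∈ K) : ((x + x') / 2, (y + y') / 2) ∈ K := by
  have := seg hK h h' (s := 1 / 2) (by norm_num) (by norm_num)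
  have e1 : (1 - 1 / 2) * x + 1 / 2 * x' = (x + x') / 2 := by ring
  have e2 : (1 - 1 / 2) * y + 1 / 2 * y' = (y + y') / 2 := by ring
  rwa [e1, e2] at this

lemma ext_top {K : Set (ℝ × ℝ)} {l y2 y1 p2 p1 e ys : ℝ} (hK : Bd K)
    (h : HL K l y2 y1 p2 p1 e ys) {x y : ℝ} (hxy : (x, y) ∈ K) : y ≤ 2 * y1 - ys := by
  by_contra hc
  push Not at hc
  have h1 := mid hK.convex h.E1 hxy
  have h2 := mid hK.convex h.E2 hxy
  have := h.out _ _ _ h1 h2 (Or.inr (by linarith))
  linarith

lemma ext_bot {K : Set (ℝ × ℝ)} {l y2 y1 p2 p1 e ys : ℝ} (hK : Bd K)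
    (h : HL K l y2 y1 p2 p1 e ys) {x y : ℝ} (hxy : (x, y) ∈ K) : 2 * y2 - ys ≤ y := by
  by_contra hc
  push Not at hc
  have h1 := mid hK.convex h.E1 hxy
  have h2 := mid hK.convex h.E2 hxy
  have := h.out _ _ _ h1 h2 (Or.inl (by linarith))
  linarith

/-- a small cross around an interior point -/
lemma cross {K : Set (ℝ × ℝ)} {z : ℝ × ℝ} (hz : z ∈ interior K) : ∃ ε : ℝ, 0 < ε ∧
    (z.1 + ε, z.2) ∈ K ∧ (z.1 - ε, z.2) ∈ K ∧ (z.1, z.2 + ε) ∈ K ∧ (z.1, z.2 - ε) ∈ K := by
  obtain ⟨r, hr, hb⟩ := Metric.mem_nhds_iff.1 (mem_interior_iff_mem_nhds.1 hz)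
  have hd : ∀ s t : ℝ, |s| < r → |t| < r → (z.1 + s, z.2 + t) ∈ K := by
    intro s t hs ht
    apply hb
    rw [mem_ball, Prod.dist_eq, Real.dist_eq, Real.dist_eq]
    simp only [add_sub_cancel_left]
    exact max_lt hs ht
  have h0 : |(0 : ℝ)| < r := by simpa using hr
  have h1 : |r / 2| < r := by rw [abs_of_pos (by linarith)]; linarith
  have h2 : |-(r / 2)| < r := by rw [abs_neg]; exact h1
  refine ⟨r / 2, by linarith, ?_, ?_, ?_, ?_⟩
  · simpa using hd _ _ h1 h0
  · simpa [sub_eq_add_neg] using hd _ _ h2 h0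
  · simpa using hd _ _ h0 h1
  · simpa [sub_eq_add_neg] using hd _ _ h0 h2

/-- the heights `y1` and `y2`: `Y` is the height, chords of length at least `l / 2` do not exist
at the heights on the line between `Y` and `Y + δ` -/
lemma level {K : Set (ℝ × ℝ)} (hK : Convex ℝ K) {l p Y x₀ ε δ : ℝ} (hl : 0 < l) (hε : 0 < ε)
    (hT1 : (p, Y) ∈ K) (hT2 : (p + l / 2, Y) ∈ K) (hx : x₀ ≤ p ∨ p + l / 2 ≤ x₀)
    (h1 : (x₀ + ε, Y) ∈ K) (h2 : (x₀ - ε, Y) ∈ K) (h3 : (x₀, Y + δ) ∈ K)
    (hout : ∀ x x' s, 0 < s → s < 1 → (x, Y + s * δ) ∈ K → (x', Y + s * δ) ∈ K →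
      x' - x < l / 2) : False := by
  have key : ∀ q q', (q, Y) ∈ K → (q', Y) ∈ K → l / 2 + ε ≤ q' - q → False := by
    intro q q' hq hq' hqq
    have hs0 : 0 < ε / (l / 2 + ε) := by positivity
    have hs1 : ε / (l / 2 + ε) < 1 := by
      rw [div_lt_one (by positivity)]
      linarith
    have h4 := seg hK hq h3 hs0.le hs1.le
    have h5 := seg hK hq' h3 hs0.le hs1.le
    have e1 : (1 - ε / (l / 2 + ε)) * Y + ε / (l / 2 + ε) * (Y + δ) =
        Y + ε / (l / 2 + ε) * δ := by ring
    rw [e1] at h4 h5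
    have h6 := hout _ _ _ hs0 hs1 h4 h5
    have h7 : (1 - ε / (l / 2 + ε)) * (l / 2 + ε) = l / 2 := by
      field_simp
      ring
    have h8 : (1 - ε / (l / 2 + ε)) * (l / 2 + ε) ≤ (1 - ε / (l / 2 + ε)) * (q' - q) :=
      mul_le_mul_of_nonneg_left hqq (by linarith)
    nlinarith
  rcases hx with hx | hx
  · exact key _ _ h2 hT2 (by linarith)
  · exact key _ _ hT1 h1 (by linarith)

lemma int_cases (i : ℤ) (l p : ℝ) (hl : 0 < l) : p + (i : ℝ) * (l / 2) ≤ p ∨
    p + l / 2 ≤ p + (i : ℝ) * (l / 2) := by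
  rcases le_or_gt i 0 with hi | hi
  · left
    have : (i : ℝ) ≤ 0 := by exact_mod_cast hi
    nlinarith
  · right
    have : (1 : ℝ) ≤ i := by exact_mod_cast hi
    nlinarith

end AuxDL

open AuxDL

theorem pr_DL : S_DL := by
  intro K l y2 y1 p2 p1 e ys hK h
  have hl := h.hl
  have hy := h.hy
  have hys1 := h.h1
  have hys2 := h.h2
  refine ⟨?_, ?_⟩
  · intro i j hz
    have e0 : ((p1, y1) : ℝ × ℝ) + (i : ℝ) • ((l / 2, 0) : ℝ × ℝ) +
        (j : ℝ) • ((p1 - p2, y1 - y2) : ℝ × ℝ) =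
        (p1 + i * (l / 2) + j * (p1 - p2), y1 + j * (y1 - y2)) := by
      ext
      · simp
      · simp
    rw [e0] at hz
    obtain ⟨ε, hε, c1, c2, c3, c4⟩ := cross hz
    simp only at c1 c2 c3 c4
    have t1 := ext_top hK h c3
    have t2 := ext_bot hK h c4
    rcases lt_trichotomy j 0 with hj | hj | hj
    · rcases eq_or_lt_of_le (Int.lt_iff_add_one_le.1 hj) with hj1 | hj1
      · have hj2 : j = -1 := by omega
        subst hj2
        have e1 : p1 + (i : ℝ) * (l / 2) + ((-1 : ℤ) : ℝ) * (p1 - p2) = p2 + i * (l / 2) := by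
          push_cast
          ring
        have e2 : y1 + ((-1 : ℤ) : ℝ) * (y1 - y2) = y2 := by
          push_cast
          ring
        rw [e1, e2] at c1 c2 c4
        refine level hK.convex hl hε h.B1 h.B2 (int_cases i l p2 hl) c1 c2
          (δ := -ε) (by rw [← sub_eq_add_neg]; exact c4) ?_
        intro x x' s hs0 _ hx hx'
        exact h.out _ _ _ hx hx' (Or.inl (by nlinarith))
      · have h3 : (j : ℝ) ≤ -2 := by
          have : j ≤ -2 := by omega
          exact_mod_cast this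
        nlinarith
    · subst hj
      have e1 : p1 + (i : ℝ) * (l / 2) + ((0 : ℤ) : ℝ) * (p1 - p2) = p1 + i * (l / 2) := by
        push_cast
        ring
      have e2 : y1 + ((0 : ℤ) : ℝ) * (y1 - y2) = y1 := by
        push_cast
        ring
      rw [e1, e2] at c1 c2 c3
      refine level hK.convex hl hε h.T1 h.T2 (int_cases i l p1 hl) c1 c2 c3 ?_
      intro x x' s hs0 _ hx hx'
      exact h.out _ _ _ hx hx' (Or.inr (by nlinarith))
    · have h3 : (1 : ℝ) ≤ j := by exact_mod_cast hj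
      nlinarith
  · intro i j hij u hu v hv huv
    obtain ⟨ε, hε, c1, c2, c3, c4⟩ := cross hu
    obtain ⟨ε', hε', d1, d2, d3, d4⟩ := cross hv
    have huK : (u.1, u.2) ∈ K := interior_subset hu
    have hvK : (v.1, v.2) ∈ K := interior_subset hv
    have e1 : u.1 - v.1 = i * l + 2 * j * (p1 - p2) := by
      have := congrArg Prod.fst huv
      simp only [Prod.fst_sub, Prod.fst_add, Prod.smul_fst, smul_eq_mul] at this
      rw [this]
      ring
    have e2 : u.2 - v.2 = 2 * j * (y1 - y2) := by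
      have := congrArg Prod.snd huv
      simp only [Prod.snd_sub, Prod.snd_add, Prod.smul_snd, smul_eq_mul] at this
      rw [this]
      ring
    have t1 := ext_top hK h c3
    have t2 := ext_bot hK h c4
    have t3 := ext_top hK h d3
    have t4 := ext_bot hK h d4
    rcases lt_trichotomy j 0 with hj | hj | hj
    · have h3 : (j : ℝ) ≤ -1 := by
        have : j ≤ -1 := by omega
        exact_mod_cast this
      nlinarith
    · subst hj
      have e3 : u.2 = v.2 := by
        simp only [Int.cast_zero, mul_zero, zero_mul] at e2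
        linarith
      have e4 : u.1 - v.1 = i * l := by
        simp only [Int.cast_zero, mul_zero, zero_mul, add_zero] at e1
        exact e1
      rcases lt_trichotomy i 0 with hi | hi | hi
      · have h3 : (i : ℝ) ≤ -1 := by
          have : i ≤ -1 := by omega
          exact_mod_cast this
        rw [← e3] at d1
        have := h.max _ _ _ huK d1
        nlinarith
      · simp [hi] at hij
      · have h3 : (1 : ℝ) ≤ i := by exact_mod_cast hi
        rw [e3] at c1
        have := h.max _ _ _ hvK c1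
        nlinarith
    · have h3 : (1 : ℝ) ≤ j := by exact_mod_cast hj
      nlinarith

end Pool.Agent.Potatoes.PL
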