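import Pool.Agent.Work.MP_72041b_co.PL.Stmts

set_option autoImplicit false

/-!
# MP_72041b_co, block PL, items HL and DL: half-length data and double lattices
-/

namespace Pool.Agent.Potatoes.PL

open MeasureTheory Set Metric
open scoped RealInnerProductSpace Pointwise

namespace AuxHL

/-- points of a horizontal chord -/
lemma seg_h {K : Set (ℝ × ℝ)} (hK : Convex ℝ K) {x x' t y : ℝ} (h : (x, y) ∈ K)
    (h' : (x', y) ∈ K) (h1 : x ≤ t) (h2 : t ≤ x') : (t, y) ∈ K := by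
  rcases eq_or_lt_of_le (h1.trans h2) with h3 | h3
  · have : t = x := by linarith
    rw [this]
    exact h
  · have h4 := hK h h' (a := (x' - t) / (x' - x)) (b := (t - x) / (x' - x))
      (div_nonneg (by linarith) (by linarith)) (div_nonneg (by linarith) (by linarith))
      (by
        have : x' - x ≠ 0 := by linarith
        field_simp
        ring)
    have e : ((x' - t) / (x' - x)) • ((x, y) : ℝ × ℝ) + ((t - x) / (x' - x)) • ((x', y) : ℝ × ℝ) =
        (t, y) := by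
      have : x' - x ≠ 0 := by linarith
      ext
      · simp only [Prod.smul_mk, Prod.mk_add_mk, smul_eq_mul]
        field_simp
        ring
      · simp only [Prod.smul_mk, Prod.mk_add_mk, smul_eq_mul]
        field_simp
        ring
    rwa [e] at h4

/-- points of a segment -/
lemma seg {K : Set (ℝ × ℝ)} (hK : Convex ℝ K) {x y x' y' s : ℝ} (h : (x, y) ∈ K)
    (h' : (x', y') ∈ K) (h1 : 0 ≤ s) (h2 : s ≤ 1) :
    ((1 - s) * x + s * x', (1 - s) * y + s * y') ∈ K := by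
  have h4 := hK h h' (a := 1 - s) (b := s) (by linarith) h1 (by ring)
  simpa using h4

end AuxHL

open AuxHL

theorem pr_HL : S_HL := by
  intro K hK
  let P : Set ((ℝ × ℝ) × (ℝ × ℝ)) := {w | w.1 ∈ K ∧ w.2 ∈ K ∧ w.1.2 = w.2.2}
  have hP : IsCompact P := by
    have : P = (K ×ˢ K) ∩ {w | w.1.2 = w.2.2} := by
      ext w
      simp [P, and_assoc]
    rw [this]
    exact (hK.compact.prod hK.compact).inter_right (isClosed_eq (by fun_prop) (by fun_prop))
  obtain ⟨z, hz⟩ := hK.inner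
  obtain ⟨r, hr, hb⟩ := Metric.mem_nhds_iff.1 (mem_interior_iff_mem_nhds.1 hz)
  have hzK : z ∈ K := interior_subset hz
  obtain ⟨w, hw, hmax⟩ := hP.exists_isMaxOn (f := fun w : (ℝ × ℝ) × (ℝ × ℝ) => w.2.1 - w.1.1)
    ⟨(z, z), hzK, hzK, rfl⟩ (by fun_prop)
  obtain ⟨⟨e, ys⟩, ⟨e', ys'⟩⟩ := w
  obtain ⟨hE1, hE2, hys⟩ := hw
  simp only at hE1 hE2 hys
  subst hys
  obtain ⟨l, hl⟩ : ∃ l, l = e' - e := ⟨_, rfl⟩
  have hmax' : ∀ x x' y, (x, y) ∈ K → (x', y) ∈ K → x' - x ≤ l := by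
    intro x x' y h h'
    have : (((x, y), (x', y)) : (ℝ × ℝ) × (ℝ × ℝ)) ∈ P := ⟨h, h', rfl⟩
    have := hmax this
    simp only [mem_setOf_eq] at this
    linarith
  have he' : e' = e + l := by linarith
  rw [he'] at hE2
  have hd : ∀ s t : ℝ, |s| < r → |t| < r → (z.1 + s, z.2 + t) ∈ K := by
    intro s t hs ht
    apply hb
    rw [mem_ball, Prod.dist_eq, Real.dist_eq, Real.dist_eq]
    simp only [add_sub_cancel_left]
    exact max_lt hs ht
  have hlp : 0 < l := by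
    have h1 := hd 0 0 (by simpa using hr) (by simpa using hr)
    have h2 := hd (r / 2) 0 (by rw [abs_of_pos (by linarith)]; linarith) (by simpa using hr)
    have := hmax' _ _ _ h1 h2
    linarith
  -- heights with chords of length `l / 2`
  let Z : Set (ℝ × ℝ) := {z | z ∈ K ∧ (z.1 + l / 2, z.2) ∈ K}
  have hZ : IsCompact Z := by
    have : Z = K ∩ (fun z : ℝ × ℝ => (z.1 + l / 2, z.2)) ⁻¹' K := rfl
    rw [this]
    exact hK.compact.inter_right (hK.compact.isClosed.preimage (by fun_prop))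
  have hEZ : (e, ys) ∈ Z := ⟨hE1, seg_h hK.convex hE1 hE2 (by linarith) (by linarith)⟩
  obtain ⟨⟨p1, y1⟩, ⟨hT1, hT2⟩, htop⟩ := hZ.exists_isMaxOn (f := fun z : ℝ × ℝ => z.2)
    ⟨_, hEZ⟩ (by fun_prop)
  obtain ⟨⟨p2, y2⟩, ⟨hB1, hB2⟩, hbot⟩ := hZ.exists_isMinOn (f := fun z : ℝ × ℝ => z.2)
    ⟨_, hEZ⟩ (by fun_prop)
  simp only at hT1 hT2 hB1 hB2
  have htop' : ∀ x y, (x, y) ∈ Z → y ≤ y1 := fun x y h => htop h
  have hbot' : ∀ x y, (x, y) ∈ Z → y2 ≤ y := fun x y h => hbot h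
  have hmid : ∀ v1 v2, (v1, v2) ∈ K → ((1 - 1 / 2) * e + 1 / 2 * v1,
      (1 - 1 / 2) * ys + 1 / 2 * v2) ∈ Z := by
    intro v1 v2 hv
    refine ⟨seg hK.convex hE1 hv (by norm_num) (by norm_num), ?_⟩
    have := seg hK.convex hE2 hv (s := 1 / 2) (by norm_num) (by norm_num)
    have e1 : (1 - 1 / 2) * (e + l) + 1 / 2 * v1 = (1 - 1 / 2) * e + 1 / 2 * v1 + l / 2 := by ring
    rw [e1] at this
    exact this
  refine ⟨l, y2, y1, p2, p1, e, ys, hlp, ?_, hbot' _ _ hEZ, htop' _ _ hEZ, hmax', hE1, hE2, hT1,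
    hT2, hB1, hB2, ?_⟩
  · have h1 := hd 0 (r / 2) (by simpa using hr) (by rw [abs_of_pos (by linarith)]; linarith)
    have h2 := hd 0 (-(r / 2)) (by simpa using hr)
      (by rw [abs_neg, abs_of_pos (by linarith)]; linarith)
    have h3 := htop' _ _ (hmid _ _ h1)
    have h4 := hbot' _ _ (hmid _ _ h2)
    linarith
  · intro x x' y h h' hy
    by_contra hc
    push Not at hc
    have h1 : (x, y) ∈ Z := ⟨h, seg_h hK.convex h h' (by linarith) (by linarith)⟩
    have h2 := htop' _ _ h1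
    have h3 := hbot' _ _ h1
    rcases hy with hy | hy <;> linarith

end Pool.Agent.Potatoes.PL
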