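import Pool.Agent.Work.MP_72041b_co.PL.Stmts

set_option autoImplicit false

/-!
# Item Hull: finitely many shapes with outer hulls
-/

namespace Pool.Agent.Potatoes.PL

open MeasureTheory Set Metric
open scoped RealInnerProductSpace Pointwise

namespace AuxHull

/-- one-dimensional enlargement -/
theorem vol_line (S : Set ℝ) (hS : IsCompact S) (hc : Convex ℝ S) (ε : ℝ) (hε : 0 ≤ ε) :
    volume (S + Icc (-ε) ε) ≤ volume S + ENNReal.ofReal (2 * ε) := by
  rcases S.eq_empty_or_nonempty with rfl | hne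
  · simp
  · have h := eq_Icc_of_connected_compact ⟨hne, hc.isPreconnected⟩ hS
    have hab : sInf S ≤ sSup S := by
      obtain ⟨x, hx⟩ := hne
      rw [h] at hx
      exact hx.1.trans hx.2
    generalize sInf S = a at h hab
    generalize sSup S = b at h hab
    subst h
    have h1 : Icc a b + Icc (-ε) ε ⊆ Icc (a - ε) (b + ε) := by
      rintro _ ⟨x, hx, t, ht, rfl⟩
      simp only [mem_Icc] at hx ht ⊢
      constructor <;> linarith [hx.1, hx.2, ht.1, ht.2]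
    refine (measure_mono h1).trans ?_
    rw [Real.volume_Icc, Real.volume_Icc, ← ENNReal.ofReal_add (by linarith) (by linarith)]
    apply ENNReal.ofReal_le_ofReal
    linarith

theorem sec_compact1 {K : Set (ℝ × ℝ)} (hK : IsCompact K) (y : ℝ) :
    IsCompact ((fun x : ℝ => (x, y)) ⁻¹' K) :=
  (hK.image continuous_fst).of_isClosed_subset
    (hK.isClosed.preimage (by fun_prop)) fun x hx => ⟨(x, y), hx, rfl⟩

theorem sec_compact2 {K : Set (ℝ × ℝ)} (hK : IsCompact K) (x : ℝ) :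
    IsCompact (Prod.mk x ⁻¹' K) :=
  (hK.image continuous_snd).of_isClosed_subset
    (hK.isClosed.preimage (by fun_prop)) fun y hy => ⟨(x, y), hy, rfl⟩

theorem sec_convex1 {K : Set (ℝ × ℝ)} (hK : Convex ℝ K) (y : ℝ) :
    Convex ℝ ((fun x : ℝ => (x, y)) ⁻¹' K) := by
  intro u hu v hv a b ha hb hab
  have h := hK hu hv ha hb hab
  have e : a • (u, y) + b • (v, y) = (a • u + b • v, y) := by
    ext
    · simp
    · simp only [Prod.smul_mk, Prod.mk_add_mk, smul_eq_mul]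
      rw [← add_mul, hab, one_mul]
  rw [e] at h
  exact h

theorem sec_convex2 {K : Set (ℝ × ℝ)} (hK : Convex ℝ K) (x : ℝ) :
    Convex ℝ (Prod.mk x ⁻¹' K) := by
  intro u hu v hv a b ha hb hab
  have h := hK hu hv ha hb hab
  have e : a • (x, u) + b • (x, v) = (x, a • u + b • v) := by
    ext
    · simp only [Prod.smul_mk, Prod.mk_add_mk, smul_eq_mul]
      rw [← add_mul, hab, one_mul]
    · simp
  rw [e] at h
  exact h

/-- enlargement in the first coordinate -/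
theorem vol1 (K : Set (ℝ × ℝ)) (hK : IsCompact K) (hc : Convex ℝ K) (α β ε : ℝ) (hε : 0 ≤ ε)
    (hb : ∀ z ∈ K, α ≤ z.2 ∧ z.2 ≤ β) :
    volume (K + Icc (-ε) ε ×ˢ {(0 : ℝ)}) ≤
      volume K + ENNReal.ofReal (2 * ε) * ENNReal.ofReal (β - α) := by
  have hm : MeasurableSet (K + Icc (-ε) ε ×ˢ {(0 : ℝ)}) :=
    (hK.add (isCompact_Icc.prod isCompact_singleton)).measurableSet
  rw [Measure.volume_eq_prod, Measure.prod_apply_symm hm, Measure.prod_apply_symm hK.measurableSet]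
  have h1 : ∀ y : ℝ, volume ((fun x : ℝ => (x, y)) ⁻¹' (K + Icc (-ε) ε ×ˢ {(0 : ℝ)})) ≤
      volume ((fun x : ℝ => (x, y)) ⁻¹' K) +
        (Icc α β).indicator (fun _ => ENNReal.ofReal (2 * ε)) y := by
    intro y
    by_cases hy : y ∈ Icc α β
    · rw [indicator_of_mem hy]
      refine (measure_mono ?_).trans
        (vol_line _ (sec_compact1 hK y) (sec_convex1 hc y) ε hε)
      rintro x ⟨⟨a, b⟩, hab, ⟨t, s⟩, ht, e⟩
      obtain ⟨ht1, ht2⟩ := ht
      simp only [mem_singleton_iff] at ht2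
      subst ht2
      simp only [Prod.mk_add_mk, add_zero, Prod.mk.injEq] at e
      obtain ⟨e1, e2⟩ := e
      subst e2
      exact ⟨a, hab, t, ht1, e1⟩
    · rw [indicator_of_notMem hy, add_zero]
      have h2 : (fun x : ℝ => (x, y)) ⁻¹' (K + Icc (-ε) ε ×ˢ {(0 : ℝ)}) = ∅ := by
        rw [eq_empty_iff_forall_notMem]
        rintro x ⟨⟨a, b⟩, hab, ⟨t, s⟩, ht, e⟩
        obtain ⟨ht1, ht2⟩ := ht
        simp only [mem_singleton_iff] at ht2
        subst ht2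
        simp only [Prod.mk_add_mk, add_zero, Prod.mk.injEq] at e
        obtain ⟨e1, e2⟩ := e
        subst e2
        exact hy (hb _ hab)
      rw [h2]
      simp
  refine (lintegral_mono h1).trans ?_
  rw [lintegral_add_right _ (measurable_const.indicator measurableSet_Icc),
    lintegral_indicator_const measurableSet_Icc, Real.volume_Icc]

/-- enlargement in the second coordinate -/
theorem vol2 (K : Set (ℝ × ℝ)) (hK : IsCompact K) (hc : Convex ℝ K) (α β ε : ℝ) (hε : 0 ≤ ε)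
    (hb : ∀ z ∈ K, α ≤ z.1 ∧ z.1 ≤ β) :
    volume (K + {(0 : ℝ)} ×ˢ Icc (-ε) ε) ≤
      volume K + ENNReal.ofReal (2 * ε) * ENNReal.ofReal (β - α) := by
  have hm : MeasurableSet (K + {(0 : ℝ)} ×ˢ Icc (-ε) ε) :=
    (hK.add (isCompact_singleton.prod isCompact_Icc)).measurableSet
  rw [Measure.volume_eq_prod, Measure.prod_apply hm, Measure.prod_apply hK.measurableSet]
  have h1 : ∀ x : ℝ, volume (Prod.mk x ⁻¹' (K + {(0 : ℝ)} ×ˢ Icc (-ε) ε)) ≤
      volume (Prod.mk x ⁻¹' K) +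
        (Icc α β).indicator (fun _ => ENNReal.ofReal (2 * ε)) x := by
    intro x
    by_cases hx : x ∈ Icc α β
    · rw [indicator_of_mem hx]
      refine (measure_mono ?_).trans
        (vol_line _ (sec_compact2 hK x) (sec_convex2 hc x) ε hε)
      rintro y ⟨⟨a, b⟩, hab, ⟨t, s⟩, ht, e⟩
      obtain ⟨ht1, ht2⟩ := ht
      simp only [mem_singleton_iff] at ht1
      subst ht1
      simp only [Prod.mk_add_mk, add_zero, Prod.mk.injEq] at e
      obtain ⟨e1, e2⟩ := e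
      subst e1
      exact ⟨b, hab, s, ht2, e2⟩
    · rw [indicator_of_notMem hx, add_zero]
      have h2 : Prod.mk x ⁻¹' (K + {(0 : ℝ)} ×ˢ Icc (-ε) ε) = ∅ := by
        rw [eq_empty_iff_forall_notMem]
        rintro y ⟨⟨a, b⟩, hab, ⟨t, s⟩, ht, e⟩
        obtain ⟨ht1, ht2⟩ := ht
        simp only [mem_singleton_iff] at ht1
        subst ht1
        simp only [Prod.mk_add_mk, add_zero, Prod.mk.injEq] at e
        obtain ⟨e1, e2⟩ := e
        subst e1
        exact hx (hb _ hab)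
      rw [h2]
      simp
  refine (lintegral_mono h1).trans ?_
  rw [lintegral_add_right _ (measurable_const.indicator measurableSet_Icc),
    lintegral_indicator_const measurableSet_Icc, Real.volume_Icc]

theorem vol_box (H : Set (ℝ × ℝ)) (hH : Bd H) (h01 : ∀ z ∈ H, 0 ≤ z.1 ∧ z.1 ≤ 1 ∧ 0 ≤ z.2 ∧ z.2 ≤ 1)
    (ε : ℝ) (hε : 0 ≤ ε) (hε1 : ε ≤ 1) :
    volume.real (H + closedBall (0 : ℝ × ℝ) ε) ≤ volume.real H + 8 * ε := by
  have hc1 : IsCompact (H + Icc (-ε) ε ×ˢ {(0 : ℝ)}) :=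
    hH.compact.add (isCompact_Icc.prod isCompact_singleton)
  have hv1 : Convex ℝ (H + Icc (-ε) ε ×ˢ {(0 : ℝ)}) :=
    hH.convex.add ((convex_Icc _ _).prod (convex_singleton _))
  have hb1 : ∀ z ∈ H + Icc (-ε) ε ×ˢ {(0 : ℝ)}, -ε ≤ z.1 ∧ z.1 ≤ 1 + ε := by
    rintro _ ⟨⟨a, b⟩, hab, ⟨t, s⟩, ht, rfl⟩
    obtain ⟨ht1, ht2⟩ := ht
    obtain ⟨g1, g2, -, -⟩ := h01 _ hab
    simp only [mem_Icc] at ht1
    simp only [Prod.mk_add_mk]
    simp only at g1 g2
    constructor <;> linarith [ht1.1, ht1.2]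
  have k1 := vol1 H hH.compact hH.convex 0 1 ε hε fun z hz => ⟨(h01 z hz).2.2.1, (h01 z hz).2.2.2⟩
  have k2 := vol2 _ hc1 hv1 (-ε) (1 + ε) ε hε hb1
  have hsub : H + closedBall (0 : ℝ × ℝ) ε ⊆
      H + Icc (-ε) ε ×ˢ {(0 : ℝ)} + {(0 : ℝ)} ×ˢ Icc (-ε) ε := by
    rintro _ ⟨z, hz, ⟨t, s⟩, ht, rfl⟩
    rw [mem_closedBall_zero_iff, Prod.norm_mk, max_le_iff, Real.norm_eq_abs, Real.norm_eq_abs,
      abs_le, abs_le] at ht
    refine ⟨z + (t, 0), ⟨z, hz, (t, 0), ⟨ht.1, rfl⟩, rfl⟩, (0, s), ⟨rfl, ht.2⟩, ?_⟩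
    simp only
    rw [add_assoc]
    congr 1
    ext <;> simp
  have hfin : volume H ≠ ⊤ := hH.compact.measure_ne_top
  have k3 : volume (H + closedBall (0 : ℝ × ℝ) ε) ≤ ENNReal.ofReal (volume.real H + 8 * ε) := by
    refine (measure_mono hsub).trans (k2.trans ((add_le_add k1 le_rfl).trans ?_))
    rw [← ENNReal.ofReal_mul (by linarith), ← ENNReal.ofReal_mul (by linarith),
      ← ENNReal.ofReal_toReal hfin, ← ENNReal.ofReal_add ENNReal.toReal_nonneg (by nlinarith),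
      ← ENNReal.ofReal_add (by have := ENNReal.toReal_nonneg (a := volume H); nlinarith) (by nlinarith)]
    apply ENNReal.ofReal_le_ofReal
    simp only [Measure.real]
    nlinarith
  have k4 : 0 ≤ volume.real H + 8 * ε := by positivity
  calc volume.real (H + closedBall (0 : ℝ × ℝ) ε)
      ≤ (ENNReal.ofReal (volume.real H + 8 * ε)).toReal :=
        ENNReal.toReal_mono ENNReal.ofReal_ne_top k3
    _ = _ := ENNReal.toReal_ofReal k4

/-- the grid points -/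
noncomputable def pt (n : ℕ) (g : Fin (n + 1) × Fin (n + 1)) : ℝ × ℝ :=
  (((g.1 : ℕ) : ℝ) / n, ((g.2 : ℕ) : ℝ) / n)

theorem near1 (n : ℕ) (hn : 0 < n) (x : ℝ) (h0 : 0 ≤ x) (h1 : x ≤ 1) :
    ∃ i : Fin (n + 1), |x - ((i : ℕ) : ℝ) / n| ≤ 1 / n := by
  have hn' : (0 : ℝ) < n := by exact_mod_cast hn
  have h2 : ⌊(n : ℝ) * x⌋₊ ≤ n := by
    have : ((⌊(n : ℝ) * x⌋₊ : ℕ) : ℝ) ≤ n := (Nat.floor_le (by positivity)).trans (by nlinarith)
    exact_mod_cast this
  refine ⟨⟨⌊(n : ℝ) * x⌋₊, by omega⟩, ?_⟩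
  have h3 := Nat.floor_le (show 0 ≤ (n : ℝ) * x by positivity)
  have h4 := Nat.lt_floor_add_one ((n : ℝ) * x)
  show |x - ((⌊(n : ℝ) * x⌋₊ : ℕ) : ℝ) / n| ≤ 1 / n
  generalize ((⌊(n : ℝ) * x⌋₊ : ℕ) : ℝ) = f at h3 h4
  have h5 : x - f / n = (n * x - f) / n := by field_simp
  rw [h5, abs_div, abs_of_pos hn']
  apply div_le_div_of_nonneg_right _ hn'.le
  rw [abs_le]
  constructor <;> linarith

theorem near2 (n : ℕ) (hn : 0 < n) (z : ℝ × ℝ) (h : 0 ≤ z.1 ∧ z.1 ≤ 1 ∧ 0 ≤ z.2 ∧ z.2 ≤ 1) :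
    ∃ g, dist z (pt n g) ≤ 1 / n := by
  obtain ⟨i, hi⟩ := near1 n hn z.1 h.1 h.2.1
  obtain ⟨j, hj⟩ := near1 n hn z.2 h.2.2.1 h.2.2.2
  refine ⟨(i, j), ?_⟩
  rw [Prod.dist_eq, max_le_iff, Real.dist_eq, Real.dist_eq]
  exact ⟨hi, hj⟩

/-- the labels -/
def lb (n : ℕ) (H : Set (ℝ × ℝ)) : Set (Fin (n + 1) × Fin (n + 1)) :=
  {g | ∃ z ∈ H, dist z (pt n g) ≤ 1 / n}

/-- the hulls -/
noncomputable def hl (n : ℕ) (S : Set (Fin (n + 1) × Fin (n + 1))) : Set (ℝ × ℝ) :=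
  convexHull ℝ (pt n '' S) + closedBall 0 (2 / n)

theorem hl_compact (n : ℕ) (S : Set (Fin (n + 1) × Fin (n + 1))) : IsCompact (hl n S) :=
  ((S.toFinite.image _).isCompact_convexHull ℝ).add (isCompact_closedBall _ _)

theorem hl_convex (n : ℕ) (S : Set (Fin (n + 1) × Fin (n + 1))) : Convex ℝ (hl n S) :=
  (convex_convexHull ℝ _).add (convex_closedBall _ _)

theorem sub_interior (n : ℕ) (hn : 0 < n) (H : Set (ℝ × ℝ))
    (h : ∀ z ∈ H, 0 ≤ z.1 ∧ z.1 ≤ 1 ∧ 0 ≤ z.2 ∧ z.2 ≤ 1) : H ⊆ interior (hl n (lb n H)) := by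
  have hn' : (0 : ℝ) < n := by exact_mod_cast hn
  intro z hz
  obtain ⟨g, hg⟩ := near2 n hn z (h z hz)
  refine mem_interior.mpr ⟨ball z (1 / n), ?_, isOpen_ball, mem_ball_self (by positivity)⟩
  intro w hw
  refine ⟨pt n g, subset_convexHull ℝ _ ⟨g, ⟨z, hz, hg⟩, rfl⟩, w - pt n g, ?_, by simp⟩
  rw [mem_closedBall_zero_iff, ← dist_eq_norm]
  calc dist w (pt n g) ≤ dist w z + dist z (pt n g) := dist_triangle _ _ _
    _ ≤ 1 / n + 1 / n := add_le_add (mem_ball.mp hw).le hg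
    _ = 2 / n := by ring

theorem hl_sub (n : ℕ) (hn : 0 < n) (H : Set (ℝ × ℝ)) (hc : Convex ℝ H) :
    hl n (lb n H) ⊆ H + closedBall 0 (3 / n) := by
  have hn' : (0 : ℝ) < n := by exact_mod_cast hn
  have h1 : convexHull ℝ (pt n '' lb n H) ⊆ H + closedBall 0 (1 / n) := by
    refine convexHull_min ?_ (hc.add (convex_closedBall _ _))
    rintro _ ⟨g, ⟨z, hz, hg⟩, rfl⟩
    refine ⟨z, hz, pt n g - z, ?_, by simp⟩
    rw [mem_closedBall_zero_iff, ← dist_eq_norm, dist_comm]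
    exact hg
  rintro _ ⟨w, hw, v, hv, rfl⟩
  obtain ⟨z, hz, u, hu, rfl⟩ := h1 hw
  refine ⟨z, hz, u + v, ?_, by simp [add_assoc]⟩
  rw [mem_closedBall_zero_iff] at *
  calc ‖u + v‖ ≤ ‖u‖ + ‖v‖ := norm_add_le _ _
    _ ≤ 1 / n + 2 / n := add_le_add hu hv
    _ = 3 / n := by ring

end AuxHull

open AuxHull in
theorem pr_Hull : S_Hull := by
  intro c η hc hη
  obtain ⟨n, hn⟩ := exists_nat_gt (max 3 (24 / (η * c)))
  have hn3 : (3 : ℝ) < n := (le_max_left _ _).trans_lt hn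
  have hn24 : 24 / (η * c) < n := (le_max_right _ _).trans_lt hn
  have hn' : (0 : ℝ) < n := by linarith
  have hn0 : 0 < n := by exact_mod_cast hn'
  have hηc : 0 < η * c := mul_pos hη hc
  have e8 : 8 * (3 / n) ≤ η * c := by
    rw [div_lt_iff₀ hηc] at hn24
    rw [← mul_div_assoc, div_le_iff₀ hn']
    linarith
  let φ := Finite.equivFin (Set (Fin (n + 1) × Fin (n + 1)))
  refine ⟨_, fun H => φ (lb n H), fun j => hl n (φ.symm j), ?_⟩
  intro H hH h01 hvol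
  simp only [Equiv.symm_apply_apply]
  have hsub := sub_interior n hn0 H h01
  have hne : H.Nonempty := by
    rw [nonempty_iff_ne_empty]
    rintro rfl
    simp at hvol
    linarith
  refine ⟨⟨hl_compact n _, hl_convex n _, hne.mono hsub⟩, hsub, ?_⟩
  have h3n : 3 / (n : ℝ) ≤ 1 := by
    rw [div_le_one hn']
    exact hn3.le
  calc volume.real (hl n (lb n H)) ≤ volume.real (H + closedBall (0 : ℝ × ℝ) (3 / n)) :=
        measureReal_mono (hl_sub n hn0 H hH.convex)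
          ((hH.compact.add (isCompact_closedBall _ _)).measure_ne_top)
    _ ≤ volume.real H + 8 * (3 / n) := vol_box H hH h01 _ (by positivity) h3n
    _ ≤ (1 + η) * volume.real H := by nlinarith

end Pool.Agent.Potatoes.PL
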