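import Pool.Agent.Work.MP_72041b_co.PL.Stmts

set_option autoImplicit false

/-!
# MP_72041b_co, block PL, item Ineq: the inequality between a body and its half-length
parallelograms
-/

namespace Pool.Agent.Potatoes.PL

open MeasureTheory Set Metric
open scoped RealInnerProductSpace Pointwise

namespace AuxIneq

/-- the part of the body in a vertical strip -/
noncomputable def m (K : Set (ℝ × ℝ)) (α β : ℝ) : ℝ :=
  volume.real (K ∩ {z | α < z.1 ∧ z.1 < β})

lemma fin {K : Set (ℝ × ℝ)} (hK : Bd K) (α β : ℝ) :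
    volume (K ∩ {z | α < z.1 ∧ z.1 < β}) ≠ ⊤ :=
  ((measure_mono inter_subset_left).trans_lt hK.compact.measure_lt_top).ne

lemma m_le {K : Set (ℝ × ℝ)} (hK : Bd K) (α β : ℝ) : m K α β ≤ volume.real K :=
  ENNReal.toReal_mono hK.compact.measure_lt_top.ne (measure_mono inter_subset_left)

lemma m_nonneg (K : Set (ℝ × ℝ)) (α β : ℝ) : 0 ≤ m K α β := measureReal_nonneg

lemma m_add {K : Set (ℝ × ℝ)} (hK : Bd K) {α β γ : ℝ} (h1 : α ≤ β) (h2 : β ≤ γ) :
    m K α β + m K β γ ≤ m K α γ := by
  have hmeas : MeasurableSet (K ∩ {z : ℝ × ℝ | β < z.1 ∧ z.1 < γ}) := by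
    refine hK.compact.isClosed.measurableSet.inter ?_
    exact (measurableSet_lt measurable_const measurable_fst).inter
      (measurableSet_lt measurable_fst measurable_const)
  have hdis : Disjoint (K ∩ {z : ℝ × ℝ | α < z.1 ∧ z.1 < β})
      (K ∩ {z : ℝ × ℝ | β < z.1 ∧ z.1 < γ}) := by
    rw [Set.disjoint_left]
    rintro z ⟨_, _, h3⟩ ⟨_, h4, _⟩
    linarith
  have hsub : (K ∩ {z : ℝ × ℝ | α < z.1 ∧ z.1 < β}) ∪ (K ∩ {z : ℝ × ℝ | β < z.1 ∧ z.1 < γ}) ⊆
      K ∩ {z : ℝ × ℝ | α < z.1 ∧ z.1 < γ} := by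
    rintro z (⟨h3, h4, h5⟩ | ⟨h3, h4, h5⟩)
    · exact ⟨h3, h4, by linarith⟩
    · exact ⟨h3, by linarith, h5⟩
  unfold m
  rw [← measureReal_union hdis hmeas (fin hK α β) (fin hK β γ)]
  exact ENNReal.toReal_mono (fin hK α γ) (measure_mono hsub)

/-- the final inequality between the two products -/
lemma final {h S V : ℝ} (hh : 0 < h) (hS : 0 < S) (hV : (3 * h + S) / 2 ≤ V) :
    √3 ≤ V ∨ √3 * (h * S) ≤ V := by
  have h3 : (√3 : ℝ) ^ 2 = 3 := Real.sq_sqrt (by norm_num)
  have h30 : 0 ≤ √3 := Real.sqrt_nonneg 3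
  have hhS : 0 < h * S := mul_pos hh hS
  have key : 12 * (h * S) ≤ (3 * h + S) ^ 2 := by nlinarith [sq_nonneg (3 * h - S)]
  rcases le_total 1 (h * S) with h1 | h1
  · left
    refine le_trans ?_ hV
    have : 2 * √3 ≤ 3 * h + S := by
      apply abs_le_of_sq_le_sq' _ (by positivity) |>.2
      rw [mul_pow, h3]
      linarith
    linarith
  · right
    refine le_trans ?_ hV
    have : 2 * (√3 * (h * S)) ≤ 3 * h + S := by
      apply abs_le_of_sq_le_sq' _ (by positivity) |>.2
      have e : (2 * (√3 * (h * S))) ^ 2 = 12 * (h * S) ^ 2 := by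
        rw [mul_pow, mul_pow, h3]
        ring
      rw [e]
      nlinarith
    linarith

end AuxIneq

open AuxIneq

theorem pr_Ineq (hT : S_Trap) : S_Ineq := by
  intro K e ys h x2 x1 q2 q1 g xs hK k00 k10 k01 k11 hE hF hV
  have hh : 0 < h := by
    have := hV.hl
    linarith
  have hmax : ∀ s s' x, (x, s) ∈ K → (x, s') ∈ K → s' - s ≤ 2 * h := fun s s' x h1 h2 =>
    hV.max s s' x h1 h2
  have hG1 : (xs, g) ∈ K := hV.E1
  have hG2 : (xs, g + 2 * h) ∈ K := hV.E2
  have e2 : 2 * h / 2 = h := by ring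
  have hT1 : (x1, q1) ∈ K := hV.T1
  have hT2 : (x1, q1 + h) ∈ K := by
    have := hV.T2
    rw [e2] at this
    exact this
  have hB1 : (x2, q2) ∈ K := hV.B1
  have hB2 : (x2, q2 + h) ∈ K := by
    have := hV.B2
    rw [e2] at this
    exact this
  have hout : ∀ s s' x, (x, s) ∈ K → (x, s') ∈ K → (x < x2 ∨ x1 < x) → s' - s < h := by
    intro s s' x h1 h2 h3
    have := hV.out s s' x h1 h2 h3
    linarith
  have hx : x2 < x1 := hV.hy
  have hxs2 : x2 ≤ xs := hV.h2
  have hxs1 : xs ≤ x1 := hV.h1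
  have hE0 : (e, ys + 0) ∈ K := by rw [add_zero]; exact hE
  have hF0 : (e + 2, ys + 0) ∈ K := by rw [add_zero]; exact hF
  have k01' : ((0 : ℝ), (0 : ℝ) + 1) ∈ K := by rw [zero_add]; exact k01
  have k11' : ((1 : ℝ), (0 : ℝ) + 1) ∈ K := by rw [zero_add]; exact k11
  rcases le_or_gt 1 h with h1 | h1
  · -- a long vertical chord
    left
    have a1 : (xs - e) * h ≤ m K (min e xs) xs := by
      rcases le_total e xs with hc | hc
      · rw [min_eq_left hc]
        have := hT K e xs ys g 0 (2 * h) hK hc le_rfl (by positivity) hE hE0 hG1 hG2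
        unfold m
        linarith
      · have := m_nonneg K (min e xs) xs
        nlinarith
    have a2 : (e + 2 - xs) * h ≤ m K xs (max (e + 2) xs) := by
      rcases le_total xs (e + 2) with hc | hc
      · rw [max_eq_left hc]
        have := hT K xs (e + 2) g ys (2 * h) 0 hK hc (by positivity) le_rfl hG1 hG2 hF hF0
        unfold m
        linarith
      · have := m_nonneg K xs (max (e + 2) xs)
        nlinarith
    have a3 := m_add hK (min_le_right e xs) (le_max_right (e + 2) xs)
    have a4 := m_le hK (min e xs) (max (e + 2) xs)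
    have h3 : √3 ≤ 2 := by
      rw [show (2 : ℝ) = √4 by
        rw [show (4 : ℝ) = 2 ^ 2 by norm_num]
        exact (Real.sqrt_sq (by norm_num)).symm]
      exact Real.sqrt_le_sqrt (by norm_num)
    nlinarith
  · have b0 : x2 ≤ 0 ∧ 0 ≤ x1 := by
      constructor
      · by_contra hc
        push Not at hc
        have := hout 0 1 0 k00 k01 (Or.inl hc)
        linarith
      · by_contra hc
        push Not at hc
        have := hout 0 1 0 k00 k01 (Or.inr hc)
        linarith
    have b1 : x2 ≤ 1 ∧ 1 ≤ x1 := by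
      constructor
      · linarith [b0.1]
      · by_contra hc
        push Not at hc
        have := hout 0 1 1 k10 k11 (Or.inr hc)
        linarith
    have b2 : 1 ≤ 2 * h := by
      have := hmax 0 1 0 k00 k01
      linarith
    apply final hh (by linarith : 0 < x1 - x2)
    have a1 : (x2 - e) * h / 2 ≤ m K (min e x2) x2 := by
      rcases le_total e x2 with hc | hc
      · rw [min_eq_left hc]
        have := hT K e x2 ys q2 0 h hK hc le_rfl hh.le hE hE0 hB1 hB2
        unfold m
        linarith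
      · have := m_nonneg K (min e x2) x2
        nlinarith
    have a2 : (e + 2 - x1) * h / 2 ≤ m K x1 (max (e + 2) x1) := by
      rcases le_total x1 (e + 2) with hc | hc
      · rw [max_eq_left hc]
        have := hT K x1 (e + 2) q1 ys h 0 hK hc hh.le le_rfl hT1 hT2 hF hF0
        unfold m
        linarith
      · have := m_nonneg K x1 (max (e + 2) x1)
        nlinarith
    have a3 := m_add hK (min_le_right e x2) (hx.le.trans (le_max_right (e + 2) x1))
    have a4 := m_add hK hx.le (le_max_right (e + 2) x1)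
    have a5 := m_le hK (min e x2) (max (e + 2) x1)
    have key : (1 + h) / 2 * (x1 - x2 - 1) + (1 + 2 * h) / 2 ≤ m K x2 x1 := by
      rcases lt_or_ge xs 0 with hc | hc
      · have c1 := hT K x2 xs q2 g h (2 * h) hK hxs2 hh.le (by positivity) hB1 hB2 hG1 hG2
        have c2 := hT K xs 1 g 0 (2 * h) 1 hK (by linarith) (by positivity) zero_le_one
          hG1 hG2 k10 k11'
        have c3 := hT K 1 x1 0 q1 1 h hK b1.2 zero_le_one hh.le k10 k11' hT1 hT2
        have c4 := m_add hK hxs2 (by linarith [b1.2] : xs ≤ x1)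
        have c5 := m_add hK (by linarith : xs ≤ 1) b1.2
        unfold m at c4 c5 ⊢
        nlinarith
      · rcases le_or_gt xs 1 with hc' | hc'
        · have c1 := hT K x2 0 q2 0 h 1 hK b0.1 hh.le zero_le_one hB1 hB2 k00 k01'
          have c2 := hT K 0 xs 0 g 1 (2 * h) hK hc zero_le_one (by positivity) k00 k01' hG1 hG2
          have c3 := hT K xs 1 g 0 (2 * h) 1 hK hc' (by positivity) zero_le_one hG1 hG2 k10 k11'
          have c4 := hT K 1 x1 0 q1 1 h hK b1.2 zero_le_one hh.le k10 k11' hT1 hT2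
          have c5 := m_add hK b0.1 b0.2
          have c6 := m_add hK hc hxs1
          have c7 := m_add hK hc' b1.2
          unfold m at c5 c6 c7 ⊢
          nlinarith
        · have c1 := hT K x2 0 q2 0 h 1 hK b0.1 hh.le zero_le_one hB1 hB2 k00 k01'
          have c2 := hT K 0 xs 0 g 1 (2 * h) hK hc zero_le_one (by positivity) k00 k01' hG1 hG2
          have c3 := hT K xs x1 g q1 (2 * h) h hK hxs1 (by positivity) hh.le hG1 hG2 hT1 hT2
          have c4 := m_add hK b0.1 b0.2
          have c5 := m_add hK hc hxs1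
          unfold m at c4 c5 ⊢
          nlinarith
    nlinarith

end Pool.Agent.Potatoes.PL
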