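import Pool.Agent.Work.MP_72041b_co.PL.Stmts
import Pool.Agent.Work.MP_72041b_co.LV.I_LowB

set_option autoImplicit false

/-!
# MP_72041b_co, block PL, item LowT: the lower bound by discs (Thue)
-/

namespace Pool.Agent.Potatoes.PL

open MeasureTheory Set Metric
open scoped RealInnerProductSpace Pointwise

namespace AuxLowT

/-- the area of a disc of radius `1/2` -/
lemma vol_ball : volume.real (ball (0 : E 2) (1 / 2)) = Real.pi / 4 := by
  have h := EuclideanSpace.volume_ball_fin_two (0 : E 2) (1 / 2)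
  rw [measureReal_def, h]
  have h2 : ENNReal.ofReal (1 / 2) ^ 2 = ENNReal.ofReal (1 / 4) := by
    rw [← ENNReal.ofReal_pow (by norm_num)]
    norm_num
  rw [h2, ENNReal.toReal_mul, ENNReal.toReal_ofReal (by norm_num),
    ENNReal.toReal_ofReal Real.pi_pos.le]
  ring

end AuxLowT

theorem pr_LowT (h2 : S_Thue) : S_LowT := by
  intro t c ht hc hW
  have hk0 : 0 < 2 := by norm_num
  have hveq := LV.AuxLowB.vol_eq hk0
  have hω := AuxLowT.vol_ball
  have hπ0 : 0 < Real.pi := Real.pi_pos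
  have hπ4 : Real.pi ≤ 4 := Real.pi_le_four
  have hω0 : 0 < Real.pi / 4 := by positivity
  have hω1 : Real.pi / 4 ≤ 1 := by linarith
  have hvolω : volume (closedBall (0 : E 2) (1 / 2)) = ENNReal.ofReal (Real.pi / 4) := by
    rw [hveq, ← hω, measureReal_def, ENNReal.ofReal_toReal measure_ball_lt_top.ne]
  have ht0 : 0 ≤ t / (Real.pi / 4) := by positivity
  obtain ⟨N, hN1, hN2⟩ : ∃ N : ℕ, (N : ℝ) ≤ t / (Real.pi / 4) ∧ t / (Real.pi / 4) < N + 1 :=
    ⟨⌊t / (Real.pi / 4)⌋₊, Nat.floor_le ht0, Nat.lt_floor_add_one _⟩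
  have hNle : (N : ℝ) * (Real.pi / 4) ≤ t := (le_div_iff₀ hω0).mp hN1
  have hNge : t - 1 ≤ (N : ℝ) * (Real.pi / 4) := by
    have h := (div_lt_iff₀ hω0).mp hN2
    nlinarith
  have hstd := ((claimStd 2 1 t c hk0 hc).1.mp hW) (Fin N)
    (fun _ => closedBall (0 : E 2) (1 / 2)) (fun _ => LV.AuxLowB.body 2)
    (fun _ => LV.AuxLowB.diam_le 2) (by
      rw [tsum_fintype, Finset.sum_const, Finset.card_univ, Fintype.card_fin, hvolω,
        nsmul_eq_mul, ← ENNReal.ofReal_natCast, ← ENNReal.ofReal_mul (Nat.cast_nonneg N)]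
      exact ENNReal.ofReal_le_ofReal hNle)
  obtain ⟨g, hg1, hg2⟩ := hstd
  have hB := h2 N (c / √2) (fun i => g i 0) (by positivity)
    (by
      intro i l
      have h := hg1 i ⟨0, mem_closedBall_self (by norm_num), rfl⟩ l
      simpa using h)
    (by
      intro i j hij
      have h := hg2 i j hij
      rw [IsometryEquiv.image_closedBall, IsometryEquiv.image_closedBall,
        disjoint_closedBall_closedBall_iff (by norm_num) (by norm_num)] at h
      linarith)
  refine le_trans ?_ hB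
  have hX : 0 ≤ 2 * √3 / Real.pi := by positivity
  calc (t - 1) * (2 * √3 / Real.pi)
      ≤ ((N : ℝ) * (Real.pi / 4)) * (2 * √3 / Real.pi) := mul_le_mul_of_nonneg_right hNge hX
    _ = (N : ℝ) * (√3 / 2) := by field_simp; ring

end Pool.Agent.Potatoes.PL
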