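import Pool.Agent.Work.MP_72041b_co.PL.Stmts
import Pool.Agent.Work.MP_72041b_co.LV.I_Main

set_option autoImplicit false

namespace Pool.Agent.Potatoes.PL

open MeasureTheory Set Metric Filter Topology
open scoped RealInnerProductSpace Pointwise

namespace AuxMainP

theorem root_eq (x : ℝ) : x ^ (1 / (((2 : ℕ) : ℝ))) = √x := by
  rw [Real.sqrt_eq_rpow]
  norm_num

theorem sqrt_sc {a v : ℝ} (ha : 0 < a) (_hv : 0 ≤ v) : √(a ^ 2 * v) = a * √v := by
  rw [Real.sqrt_mul (by positivity), Real.sqrt_sq ha.le]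

theorem up (F : ℝ → ℝ) (L θ t₀ : ℝ)
    (hLim : ∀ ε : ℝ, 0 < ε → ∃ B : ℝ, 0 < B ∧ ∀ b : ℝ, B ≤ b →
      |F b - L * √b| ≤ ε * √b) (h : ∀ t, t₀ ≤ t → F t ≤ θ * √t) : L ≤ θ := by
  apply le_of_forall_pos_le_add
  intro ε hε
  obtain ⟨B, hB, hb⟩ := hLim ε hε
  have ht : 0 < max B t₀ := lt_of_lt_of_le hB (le_max_left _ _)
  have h1 := hb (max B t₀) (le_max_left _ _)
  have h2 := h (max B t₀) (le_max_right _ _)
  have h3 : 0 < √(max B t₀) := Real.sqrt_pos.2 ht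
  have h4 := (abs_le.1 h1).1
  by_contra hc
  push Not at hc
  have h5 : (θ + ε) * √(max B t₀) < L * √(max B t₀) := mul_lt_mul_of_pos_right hc h3
  linarith

theorem low (F : ℝ → ℝ) (L α D : ℝ)
    (hLim : ∀ ε : ℝ, 0 < ε → ∃ B : ℝ, 0 < B ∧ ∀ b : ℝ, B ≤ b →
      |F b - L * √b| ≤ ε * √b) (h : ∀ t, 1 < t → α * √(t - 1) - D ≤ F t) : α ≤ L := by
  apply le_of_forall_pos_le_add
  intro ε hε
  obtain ⟨B, hB, hb⟩ := hLim (ε / 2) (half_pos hε)
  -- `√(t - 1) ≥ √t - 1`, and `√t` is large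
  set M : ℝ := max (max (√B) 2) (2 * (|α| + |D|) / ε) with hM
  have hM1 : √B ≤ M := le_trans (le_max_left _ _) (le_max_left _ _)
  have hM2 : 2 ≤ M := le_trans (le_max_right _ _) (le_max_left _ _)
  have hM3 : 2 * (|α| + |D|) / ε ≤ M := le_max_right _ _
  have hM0 : 0 < M := by linarith
  have ht : √(M ^ 2) = M := Real.sqrt_sq hM0.le
  have hBM : B ≤ M ^ 2 := by
    have h1 : √B ^ 2 = B := Real.sq_sqrt hB.le
    have h2 : √B ^ 2 ≤ M ^ 2 := pow_le_pow_left₀ (Real.sqrt_nonneg _) hM1 2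
    linarith
  have h1 := hb (M ^ 2) hBM
  have h2 := h (M ^ 2) (by nlinarith)
  rw [ht] at h1
  have h3 := (abs_le.1 h1).2
  have h4 : M - 1 ≤ √(M ^ 2 - 1) := by
    apply Real.le_sqrt_of_sq_le
    nlinarith
  have h5 : √(M ^ 2 - 1) ≤ M := by
    rw [Real.sqrt_le_left hM0.le]
    linarith
  have h6 : α * M - |α| ≤ α * √(M ^ 2 - 1) := by
    have h7 : |α * (M - √(M ^ 2 - 1))| ≤ |α| * 1 := by
      rw [abs_mul]
      apply mul_le_mul_of_nonneg_left _ (abs_nonneg _)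
      rw [abs_le]
      constructor <;> linarith
    have h8 := (abs_le.1 h7).2
    linarith
  have h7 : 2 * (|α| + |D|) ≤ ε * M := by
    rw [div_le_iff₀ hε] at hM3
    linarith
  have h8 : D ≤ |D| := le_abs_self D
  have h9 : α * M ≤ (L + ε) * M := by linarith
  exact le_of_mul_le_mul_right h9 hM0

end AuxMainP

open AuxMainP LV.AuxMain in
/-- the theorem -/
theorem pr_MainP (h1 : LV.S_fS) (h2 : LV.S_fG) (h3 : LV.S_Lim) (h4 : S_LowT) (h5 : S_UpP) :
    S_MainP := by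
  obtain ⟨L, hLim', hLow'⟩ := h3 2 (f 2 1) √((2 : ℕ) : ℝ) le_rfl
    (Real.sqrt_pos.2 (by norm_num)) (fun b hb => vol le_rfl hb)
    (fun v b N hv hb hN hbN => h2 2 N v b le_rfl hN hv hb hbN)
  have hLim : ∀ ε : ℝ, 0 < ε → ∃ B : ℝ, 0 < B ∧ ∀ b : ℝ, B ≤ b →
      |f 2 1 b - L * √b| ≤ ε * √b := by
    intro ε hε
    obtain ⟨B, hB, hb⟩ := hLim' ε hε
    refine ⟨B, hB, fun b hbB => ?_⟩
    have := hb b hbB
    rwa [root_eq] at this
  have hLow : ∀ v : ℝ, 1 < v → L * √(v - 1) ≤ f 2 1 v := by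
    intro v hv
    have := hLow' v hv
    rwa [root_eq] at this
  have hγ : 0 < 2 * √3 / Real.pi := by positivity
  have hs2 : 0 < √(2 : ℝ) := Real.sqrt_pos.2 two_pos
  have hs3 : 0 < √(3 : ℝ) := Real.sqrt_pos.2 three_pos
  -- the lower bound
  have hlow : √2 * √(2 * √3 / Real.pi) ≤ L := by
    apply low (f 2 1) L _ (√2 * 2) hLim
    intro t ht
    have ht0 : 0 < t := by linarith
    apply le_f le_rfl ht0
    intro c hc hW
    have h8 := h4 t c ht hc hW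
    have h9 : √((t - 1) * (2 * √3 / Real.pi)) ≤ c / √2 + 2 := by
      rw [Real.sqrt_le_left (by positivity)]
      exact h8
    rw [Real.sqrt_mul (by linarith)] at h9
    have h10 : √2 * (√(t - 1) * √(2 * √3 / Real.pi)) ≤ √2 * (c / √2 + 2) :=
      mul_le_mul_of_nonneg_left h9 hs2.le
    have h11 : √2 * (c / √2 + 2) = c + √2 * 2 := by field_simp
    have h12 : √2 * √(2 * √3 / Real.pi) * √(t - 1) =
        √2 * (√(t - 1) * √(2 * √3 / Real.pi)) := by ring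
    rw [h12]
    linarith
  have hlow0 : 0 < √2 * √(2 * √3 / Real.pi) := mul_pos hs2 (Real.sqrt_pos.2 hγ)
  have hL0 : 0 < L := lt_of_lt_of_le hlow0 hlow
  refine ⟨L, hL0, ?_, ?_, ?_, ?_⟩
  · have h6 : (√2 * √(2 * √3 / Real.pi)) ^ 2 ≤ L ^ 2 := pow_le_pow_left₀ hlow0.le hlow 2
    rw [mul_pow, Real.sq_sqrt (by norm_num), Real.sq_sqrt hγ.le] at h6
    calc 4 * √3 / Real.pi = 2 * (2 * √3 / Real.pi) := by ring
      _ ≤ L ^ 2 := h6
  · by_contra hc
    push Not at hc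
    set θ : ℝ := √((2 / √3 + L ^ 2 / 2) / 2) with hθ
    have h6 : 0 < (2 / √3 + L ^ 2 / 2) / 2 := by positivity
    have hθ0 : 0 < θ := Real.sqrt_pos.2 h6
    have hθ2 : θ ^ 2 = (2 / √3 + L ^ 2 / 2) / 2 := Real.sq_sqrt h6.le
    have e : 4 / √3 = 2 * (2 / √3) := by ring
    have hθ3 : 2 / √3 < θ ^ 2 := by rw [hθ2]; linarith
    obtain ⟨t₀, ht₀, hW⟩ := h5 θ hθ0 hθ3
    have h7 := up (f 2 1) L (√2 * θ) t₀ hLim (by
      intro t ht
      have ht0 : 0 < t := lt_of_lt_of_le ht₀ ht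
      have h8 := f_le (by positivity) (hW t ht)
      rw [mul_assoc]
      exact h8)
    have h8 : L ^ 2 ≤ (√2 * θ) ^ 2 := pow_le_pow_left₀ hL0.le h7 2
    rw [mul_pow, Real.sq_sqrt (by norm_num), hθ2] at h8
    linarith
  · intro ε hε
    obtain ⟨B, hB, hb⟩ := hLim ε hε
    refine ⟨B, hB, ?_⟩
    intro a b ha hab
    have hak : 0 < a ^ 2 := by positivity
    have hb0 : 0 < b := lt_of_lt_of_le (by positivity) hab
    have hv : B ≤ b / a ^ 2 := by rw [le_div_iff₀ hak]; exact hab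
    have hv0 : 0 ≤ b / a ^ 2 := by positivity
    have e : √b = a * √(b / a ^ 2) := by
      rw [← sqrt_sc ha hv0]
      congr 1
      field_simp
    rw [h1 2 a b le_rfl ha hb0, e]
    have h7 := hb _ hv
    have e2 : a * f 2 1 (b / a ^ 2) - L * (a * √(b / a ^ 2)) =
        a * (f 2 1 (b / a ^ 2) - L * √(b / a ^ 2)) := by ring
    rw [e2, abs_mul, abs_of_pos ha]
    calc a * |f 2 1 (b / a ^ 2) - L * √(b / a ^ 2)|
        ≤ a * (ε * √(b / a ^ 2)) := mul_le_mul_of_nonneg_left h7 ha.le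
      _ = ε * (a * √(b / a ^ 2)) := by ring
  · intro a b ha hab
    have hak : 0 < a ^ 2 := by positivity
    rcases eq_or_lt_of_le hab with h | h
    · rw [← h, sub_self, Real.sqrt_zero, mul_zero]
      exact f_nonneg _ _ _
    · have hb0 : 0 < b := lt_trans hak h
      have hv : 1 < b / a ^ 2 := by rw [lt_div_iff₀ hak]; linarith
      have e : √(b - a ^ 2) = a * √(b / a ^ 2 - 1) := by
        rw [← sqrt_sc ha (by linarith)]
        congr 1
        field_simp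
      rw [h1 2 a b le_rfl ha hb0, e]
      calc L * (a * √(b / a ^ 2 - 1))
          = a * (L * √(b / a ^ 2 - 1)) := by ring
        _ ≤ a * f 2 1 (b / a ^ 2) := mul_le_mul_of_nonneg_left (hLow _ hv) ha.le

end Pool.Agent.Potatoes.PL
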