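import Pool.Agent.Work.MP_72041b_co.PL.Stmts

set_option autoImplicit false

/-!
# Block PL: many copies in a large square (item Pal)
-/

namespace Pool.Agent.Potatoes.PL

open MeasureTheory Set Metric
open scoped RealInnerProductSpace Pointwise

namespace AuxPal

/-- the unit square -/
def usq : Set (ℝ × ℝ) := Icc (0 : ℝ) 1 ×ˢ Icc (0 : ℝ) 1

theorem bd_usq : Bd usq where
  compact := isCompact_Icc.prod isCompact_Icc
  convex := (convex_Icc 0 1).prod (convex_Icc 0 1)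
  inner := by
    unfold usq
    rw [interior_prod_eq, interior_Icc]
    exact ⟨(1 / 2, 1 / 2), ⟨by norm_num, by norm_num⟩, ⟨by norm_num, by norm_num⟩⟩

theorem real_prod_Icc {p q : ℝ} (h : p ≤ q) :
    volume.real (Icc p q ×ˢ Icc p q : Set (ℝ × ℝ)) = (q - p) ^ 2 := by
  rw [Measure.real, Measure.volume_eq_prod, Measure.prod_prod, Real.volume_Icc,
    ENNReal.toReal_mul, ENNReal.toReal_ofReal (by linarith)]
  ring

theorem real_usq : volume.real usq = 1 := by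
  unfold usq
  rw [real_prod_Icc (by norm_num)]
  norm_num

/-- coordinates with respect to `2 a, 2 b` -/
noncomputable def cs (a b z : ℝ × ℝ) : ℝ := (z.1 * b.2 - z.2 * b.1) / (2 * (a.1 * b.2 - a.2 * b.1))

/-- coordinates with respect to `2 a, 2 b` -/
noncomputable def ct (a b z : ℝ × ℝ) : ℝ := (a.1 * z.2 - a.2 * z.1) / (2 * (a.1 * b.2 - a.2 * b.1))

theorem cramer1 {a b : ℝ × ℝ} (h : a.1 * b.2 - a.2 * b.1 ≠ 0) (z : ℝ × ℝ) :
    z.1 = 2 * cs a b z * a.1 + 2 * ct a b z * b.1 := by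
  have h2 : (2 * (a.1 * b.2 - a.2 * b.1)) ≠ 0 := mul_ne_zero (by norm_num) h
  have e : 2 * cs a b z * a.1 + 2 * ct a b z * b.1 =
      z.1 * ((2 * (a.1 * b.2 - a.2 * b.1)) / (2 * (a.1 * b.2 - a.2 * b.1))) := by
    unfold cs ct
    ring
  rw [e, div_self h2, mul_one]

theorem cramer2 {a b : ℝ × ℝ} (h : a.1 * b.2 - a.2 * b.1 ≠ 0) (z : ℝ × ℝ) :
    z.2 = 2 * cs a b z * a.2 + 2 * ct a b z * b.2 := by
  have h2 : (2 * (a.1 * b.2 - a.2 * b.1)) ≠ 0 := mul_ne_zero (by norm_num) h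
  have e : 2 * cs a b z * a.2 + 2 * ct a b z * b.2 =
      z.2 * ((2 * (a.1 * b.2 - a.2 * b.1)) / (2 * (a.1 * b.2 - a.2 * b.1))) := by
    unfold cs ct
    ring
  rw [e, div_self h2, mul_one]

/-- the cells of the lattice spanned by `2 a, 2 b` -/
def cell (a b : ℝ × ℝ) (q : ℤ × ℤ) : Set (ℝ × ℝ) :=
  {z | ((q.1 : ℝ) ≤ cs a b z ∧ cs a b z ≤ q.1 + 1) ∧ ((q.2 : ℝ) ≤ ct a b z ∧ ct a b z ≤ q.2 + 1)}

theorem cell_spec (h : S_Aff) {a b : ℝ × ℝ} (hab : a.1 * b.2 - a.2 * b.1 ≠ 0) (q : ℤ × ℤ) :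
    Bd (cell a b q) ∧ volume.real (cell a b q) = 4 * |a.1 * b.2 - a.2 * b.1| := by
  have h2 : (2 * (a.1 * b.2 - a.2 * b.1)) ≠ 0 := by positivity
  have hdet : (b.2 / (2 * (a.1 * b.2 - a.2 * b.1))) * (a.1 / (2 * (a.1 * b.2 - a.2 * b.1))) -
      (-a.2 / (2 * (a.1 * b.2 - a.2 * b.1))) * (-b.1 / (2 * (a.1 * b.2 - a.2 * b.1))) =
      1 / (4 * (a.1 * b.2 - a.2 * b.1)) := by
    field_simp
    ring
  have key := h usq (b.2 / (2 * (a.1 * b.2 - a.2 * b.1)), -a.2 / (2 * (a.1 * b.2 - a.2 * b.1)))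
    (-b.1 / (2 * (a.1 * b.2 - a.2 * b.1)), a.1 / (2 * (a.1 * b.2 - a.2 * b.1)))
    (-(q.1 : ℝ), -(q.2 : ℝ)) bd_usq (by
      simp only
      rw [hdet]
      exact one_div_ne_zero (mul_ne_zero (by norm_num) hab))
  simp only at key
  rw [hdet] at key
  have hset : (fun z : ℝ × ℝ => ((-(q.1 : ℝ), -(q.2 : ℝ)) : ℝ × ℝ) +
      z.1 • ((b.2 / (2 * (a.1 * b.2 - a.2 * b.1)), -a.2 / (2 * (a.1 * b.2 - a.2 * b.1))) : ℝ × ℝ) +
      z.2 • ((-b.1 / (2 * (a.1 * b.2 - a.2 * b.1)), a.1 / (2 * (a.1 * b.2 - a.2 * b.1))) : ℝ × ℝ))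
      ⁻¹' usq = cell a b q := by
    ext z
    have e1 : -(q.1 : ℝ) + z.1 * (b.2 / (2 * (a.1 * b.2 - a.2 * b.1))) +
        z.2 * (-b.1 / (2 * (a.1 * b.2 - a.2 * b.1))) = cs a b z - q.1 := by
      unfold cs
      ring
    have e2 : -(q.2 : ℝ) + z.1 * (-a.2 / (2 * (a.1 * b.2 - a.2 * b.1))) +
        z.2 * (a.1 / (2 * (a.1 * b.2 - a.2 * b.1))) = ct a b z - q.2 := by
      unfold ct
      ring
    simp only [usq, cell, mem_preimage, mem_prod, mem_Icc, mem_ofPred_eq, Prod.fst_add,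
      Prod.snd_add, Prod.smul_fst, Prod.smul_snd, smul_eq_mul, e1, e2]
    constructor
    · rintro ⟨⟨h1, h2⟩, h3, h4⟩
      exact ⟨⟨by linarith, by linarith⟩, by linarith, by linarith⟩
    · rintro ⟨⟨h1, h2⟩, h3, h4⟩
      exact ⟨⟨by linarith, by linarith⟩, by linarith, by linarith⟩
  rw [hset] at key
  refine ⟨key.1, ?_⟩
  have k2 := key.2.1
  rw [real_usq, abs_div, abs_one, abs_mul, abs_of_pos (show (0 : ℝ) < 4 by norm_num)] at k2
  have h4 : (4 * |a.1 * b.2 - a.2 * b.1|) ≠ 0 := by positivity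
  field_simp at k2
  linarith

/-- the lattice vectors -/
def lam (a b : ℝ × ℝ) (q : ℤ × ℤ) : ℝ × ℝ :=
  (2 * (q.1 : ℝ)) • a + (2 * (q.2 : ℝ)) • b

theorem cs_lam {a b : ℝ × ℝ} (h : a.1 * b.2 - a.2 * b.1 ≠ 0) (q : ℤ × ℤ) :
    cs a b (lam a b q) = q.1 := by
  have h2 : (2 * (a.1 * b.2 - a.2 * b.1)) ≠ 0 := mul_ne_zero (by norm_num) h
  have e : cs a b (lam a b q) =
      q.1 * ((2 * (a.1 * b.2 - a.2 * b.1)) / (2 * (a.1 * b.2 - a.2 * b.1))) := by
    simp only [cs, lam, Prod.fst_add, Prod.snd_add, Prod.smul_fst, Prod.smul_snd, smul_eq_mul]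
    ring
  rw [e, div_self h2, mul_one]

theorem ct_lam {a b : ℝ × ℝ} (h : a.1 * b.2 - a.2 * b.1 ≠ 0) (q : ℤ × ℤ) :
    ct a b (lam a b q) = q.2 := by
  have h2 : (2 * (a.1 * b.2 - a.2 * b.1)) ≠ 0 := mul_ne_zero (by norm_num) h
  have e : ct a b (lam a b q) =
      q.2 * ((2 * (a.1 * b.2 - a.2 * b.1)) / (2 * (a.1 * b.2 - a.2 * b.1))) := by
    simp only [ct, lam, Prod.fst_add, Prod.snd_add, Prod.smul_fst, Prod.smul_snd, smul_eq_mul]
    ring
  rw [e, div_self h2, mul_one]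

/-- sum of the absolute values -/
def D (a b : ℝ × ℝ) : ℝ := |a.1| + |a.2| + |b.1| + |b.2|

theorem abs_coord {a b z : ℝ × ℝ} {M : ℝ} (hM : 0 ≤ M) (h1 : |z.1| ≤ M) (h2 : |z.2| ≤ M) :
    |cs a b z| ≤ D a b * M / (2 * |a.1 * b.2 - a.2 * b.1|) ∧
    |ct a b z| ≤ D a b * M / (2 * |a.1 * b.2 - a.2 * b.1|) := by
  unfold cs ct
  rw [abs_div, abs_div, abs_mul, abs_of_pos (show (0 : ℝ) < 2 by norm_num)]
  have b1 := abs_nonneg a.1
  have b2 := abs_nonneg a.2
  have b3 := abs_nonneg b.1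
  have b4 := abs_nonneg b.2
  constructor
  · refine div_le_div_of_nonneg_right ?_ (by positivity)
    calc |z.1 * b.2 - z.2 * b.1| ≤ |z.1 * b.2| + |z.2 * b.1| := abs_sub _ _
      _ = |z.1| * |b.2| + |z.2| * |b.1| := by rw [abs_mul, abs_mul]
      _ ≤ M * |b.2| + M * |b.1| := by gcongr
      _ ≤ D a b * M := by
        unfold D
        nlinarith [mul_nonneg hM b1, mul_nonneg hM b2]
  · refine div_le_div_of_nonneg_right ?_ (by positivity)
    calc |a.1 * z.2 - a.2 * z.1| ≤ |a.1 * z.2| + |a.2 * z.1| := abs_sub _ _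
      _ = |a.1| * |z.2| + |a.2| * |z.1| := by rw [abs_mul, abs_mul]
      _ ≤ |a.1| * M + |a.2| * M := by gcongr
      _ ≤ D a b * M := by
        unfold D
        nlinarith [mul_nonneg hM b3, mul_nonneg hM b4]

/-- a bound for the indices -/
noncomputable def bnd (a b : ℝ × ℝ) (M : ℝ) : ℤ :=
  ⌈D a b * M / (2 * |a.1 * b.2 - a.2 * b.1|)⌉

open scoped Classical in
/-- the index set -/
noncomputable def idx (a b : ℝ × ℝ) (R M : ℝ) : Finset (ℤ × ℤ) :=
  ((Finset.Icc (-bnd a b M) (bnd a b M)) ×ˢ (Finset.Icc (-bnd a b M) (bnd a b M))).filter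
    fun q => (R ≤ (lam a b q).1 ∧ (lam a b q).1 ≤ M - R) ∧
      (R ≤ (lam a b q).2 ∧ (lam a b q).2 ≤ M - R)

theorem mem_idx {a b : ℝ × ℝ} (h : a.1 * b.2 - a.2 * b.1 ≠ 0) {R M : ℝ} (hR : 0 ≤ R)
    (hM : 0 ≤ M) (q : ℤ × ℤ) :
    q ∈ idx a b R M ↔ (R ≤ (lam a b q).1 ∧ (lam a b q).1 ≤ M - R) ∧
      (R ≤ (lam a b q).2 ∧ (lam a b q).2 ≤ M - R) := by
  unfold idx
  rw [Finset.mem_filter]
  refine ⟨fun h => h.2, fun hq => ⟨?_, hq⟩⟩
  obtain ⟨⟨h1, h2⟩, h3, h4⟩ := hq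
  have hb := abs_coord (a := a) (b := b) (z := lam a b q) hM
    (abs_le.2 ⟨by linarith, by linarith⟩) (abs_le.2 ⟨by linarith, by linarith⟩)
  rw [cs_lam h, ct_lam h] at hb
  have hc := Int.le_ceil (D a b * M / (2 * |a.1 * b.2 - a.2 * b.1|))
  have g1 := abs_le.1 (hb.1.trans hc)
  have g2 := abs_le.1 (hb.2.trans hc)
  rw [Finset.mem_product, Finset.mem_Icc, Finset.mem_Icc]
  unfold bnd
  refine ⟨⟨?_, ?_⟩, ?_, ?_⟩
  · exact_mod_cast g1.1
  · exact_mod_cast g1.2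
  · exact_mod_cast g2.1
  · exact_mod_cast g2.2

theorem cover {a b : ℝ × ℝ} (h : a.1 * b.2 - a.2 * b.1 ≠ 0) {R M : ℝ} (hR : 0 ≤ R)
    (hM : 0 ≤ M) :
    (Icc (R + 2 * D a b) (M - R - 2 * D a b) ×ˢ Icc (R + 2 * D a b) (M - R - 2 * D a b) :
      Set (ℝ × ℝ)) ⊆ ⋃ q ∈ idx a b R M, cell a b q := by
  rintro z ⟨⟨h1, h2⟩, h3, h4⟩
  have c1 := cramer1 h z
  have c2 := cramer2 h z
  have f1 := Int.floor_le (cs a b z)
  have f2 := Int.lt_floor_add_one (cs a b z)
  have f3 := Int.floor_le (ct a b z)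
  have f4 := Int.lt_floor_add_one (ct a b z)
  have gen : ∀ s t x y : ℝ, 0 ≤ s → s ≤ 1 → 0 ≤ t → t ≤ 1 → |x| + |y| ≤ D a b →
      |2 * s * x + 2 * t * y| ≤ 2 * D a b := by
    intro s t x y hs hs' ht ht' hxy
    calc |2 * s * x + 2 * t * y| ≤ |2 * s * x| + |2 * t * y| := abs_add_le _ _
      _ = 2 * s * |x| + 2 * t * |y| := by
        rw [abs_mul (2 * s), abs_mul (2 * t), abs_of_nonneg (by positivity : 0 ≤ 2 * s),
          abs_of_nonneg (by positivity : 0 ≤ 2 * t)]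
      _ ≤ 2 * D a b := by nlinarith [abs_nonneg x, abs_nonneg y]
  have g1 := abs_le.1 (gen (cs a b z - ⌊cs a b z⌋) (ct a b z - ⌊ct a b z⌋) a.1 b.1
    (by linarith) (by linarith) (by linarith) (by linarith) (by
      unfold D
      linarith [abs_nonneg a.2, abs_nonneg b.2]))
  have g2 := abs_le.1 (gen (cs a b z - ⌊cs a b z⌋) (ct a b z - ⌊ct a b z⌋) a.2 b.2
    (by linarith) (by linarith) (by linarith) (by linarith) (by
      unfold D
      linarith [abs_nonneg a.1, abs_nonneg b.1]))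
  have l1 : (lam a b (⌊cs a b z⌋, ⌊ct a b z⌋)).1 = z.1 -
      (2 * (cs a b z - ⌊cs a b z⌋) * a.1 + 2 * (ct a b z - ⌊ct a b z⌋) * b.1) := by
    simp only [lam, Prod.fst_add, Prod.smul_fst, smul_eq_mul]
    linarith
  have l2 : (lam a b (⌊cs a b z⌋, ⌊ct a b z⌋)).2 = z.2 -
      (2 * (cs a b z - ⌊cs a b z⌋) * a.2 + 2 * (ct a b z - ⌊ct a b z⌋) * b.2) := by
    simp only [lam, Prod.snd_add, Prod.smul_snd, smul_eq_mul]
    linarith
  rw [mem_iUnion₂]
  refine ⟨(⌊cs a b z⌋, ⌊ct a b z⌋), ?_, ?_⟩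
  · rw [mem_idx h hR hM, l1, l2]
    exact ⟨⟨by linarith, by linarith⟩, by linarith, by linarith⟩
  · exact ⟨⟨f1, f2.le⟩, f3, f4.le⟩

theorem count (hA : S_Aff) {a b : ℝ × ℝ} (h : a.1 * b.2 - a.2 * b.1 ≠ 0) {R M : ℝ} (hR : 0 ≤ R)
    (hM : 2 * R + 4 * D a b ≤ M) :
    (M - 2 * R - 4 * D a b) ^ 2 ≤ (idx a b R M).card * (4 * |a.1 * b.2 - a.2 * b.1|) := by
  have hD : 0 ≤ D a b := by
    unfold D
    positivity
  have hM0 : 0 ≤ M := by linarith
  have h1 := real_prod_Icc (p := R + 2 * D a b) (q := M - R - 2 * D a b) (by linarith)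
  have h2 : volume (⋃ q ∈ idx a b R M, cell a b q) ≠ ⊤ := by
    refine ((measure_biUnion_finset_le _ _).trans_lt ?_).ne
    rw [ENNReal.sum_lt_top]
    intro q _
    exact (cell_spec hA h q).1.compact.measure_lt_top
  have h3 := measureReal_mono (μ := volume) (cover h hR hM0) h2
  have h4 := measureReal_biUnion_finset_le (μ := volume) (idx a b R M) (cell a b)
  rw [h1] at h3
  have h5 : ∑ q ∈ idx a b R M, volume.real (cell a b q) =
      (idx a b R M).card * (4 * |a.1 * b.2 - a.2 * b.1|) := by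
    rw [Finset.sum_congr rfl fun q _ => (cell_spec hA h q).2, Finset.sum_const, nsmul_eq_mul]
  calc (M - 2 * R - 4 * D a b) ^ 2 = (M - R - 2 * D a b - (R + 2 * D a b)) ^ 2 := by ring
    _ ≤ _ := h3
    _ ≤ _ := h4
    _ = _ := h5

theorem lam_sub (a b : ℝ × ℝ) (q q' : ℤ × ℤ) : lam a b q' - lam a b q =
    (2 * ((q'.1 - q.1 : ℤ) : ℝ)) • a + (2 * ((q'.2 - q.2 : ℤ) : ℝ)) • b := by
  unfold lam
  push_cast
  module

theorem ne_same {K : Set (ℝ × ℝ)} {a b c : ℝ × ℝ} (h : DLat K a b c) {q q' : ℤ × ℤ}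
    (hq : q ≠ q') {u v : ℝ × ℝ} (hu : u ∈ interior K) (hv : v ∈ interior K) :
    u + lam a b q ≠ v + lam a b q' := by
  intro he
  have h1 : q'.1 - q.1 ≠ 0 ∨ q'.2 - q.2 ≠ 0 := by
    by_contra hc
    push Not at hc
    apply hq
    ext
    · linarith [hc.1]
    · linarith [hc.2]
  apply h.2 _ _ h1 u hu v hv
  rw [← lam_sub]
  linear_combination (exp := 1) he

theorem ne_opp {K : Set (ℝ × ℝ)} (hK : Bd K) {a b c : ℝ × ℝ} (h : DLat K a b c) (q q' : ℤ × ℤ)
    {u v : ℝ × ℝ} (hu : u ∈ interior K) (hv : v ∈ interior K) :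
    u + lam a b q ≠ -v + ((2 : ℝ) • c + lam a b q') := by
  intro he
  have h1 := h.1 (q'.1 - q.1) (q'.2 - q.2)
  apply h1
  have h2 : (1 / 2 : ℝ) • u + (1 / 2 : ℝ) • v ∈ interior K :=
    hK.convex.interior hu hv (by norm_num) (by norm_num) (by norm_num)
  have h3 : (1 / 2 : ℝ) • u + (1 / 2 : ℝ) • v =
      c + ((q'.1 - q.1 : ℤ) : ℝ) • a + ((q'.2 - q.2 : ℤ) : ℝ) • b := by
    have h4 : u + v = (2 : ℝ) • c + (lam a b q' - lam a b q) := by
      have : u + v = (u + lam a b q) + v - lam a b q := by abel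
      rw [this, he]
      abel
    rw [← smul_add, h4, lam_sub]
    module
  rw [← h3]
  exact h2

end AuxPal

open AuxPal

theorem pr_Pal (hA : S_Aff) : S_Pal := by
  intro K a b c hK hD hab
  have hD0 : 0 ≤ D a b := by
    unfold D
    positivity
  have hc1 := abs_nonneg c.1
  have hc2 := abs_nonneg c.2
  set R : ℝ := 2 * |c.1| + 2 * |c.2| + 1 with hR
  have hR0 : 1 ≤ R := by linarith
  refine ⟨2 * R + 4 * D a b + 1, by linarith, fun M hM => ?_⟩
  have hM0 : 0 ≤ M := by linarith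
  classical
  let T := {q // q ∈ idx a b R M} × Bool
  let e : T ≃ Fin (Fintype.card T) := Fintype.equivFin T
  let σ' : T → ℝ := fun p => if p.2 then 1 else -1
  let τ' : T → ℝ × ℝ := fun p => if p.2 then lam a b p.1.1 else (2 : ℝ) • c + lam a b p.1.1
  refine ⟨Fintype.card T, fun s => σ' (e.symm s), fun s => τ' (e.symm s), ?_, ?_, ?_, ?_⟩
  · intro s
    simp only [σ']
    by_cases h : (e.symm s).2 = true
    · left
      simp [h]
    · right
      simp [h]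
  · intro s x y hx hx' hy hy'
    beta_reduce
    generalize e.symm s = p
    obtain ⟨⟨q, hq⟩, β⟩ := p
    rw [mem_idx hab (by linarith) hM0] at hq
    obtain ⟨⟨h1, h2⟩, h3, h4⟩ := hq
    have a1 := neg_abs_le c.1
    have a2 := le_abs_self c.1
    have a3 := neg_abs_le c.2
    have a4 := le_abs_self c.2
    cases β
    · simp only [σ', τ', Bool.false_eq_true, if_false, Prod.fst_add, Prod.snd_add, Prod.smul_fst,
        Prod.smul_snd, smul_eq_mul]
      refine ⟨⟨?_, ?_⟩, ?_, ?_⟩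
      · linarith
      · linarith
      · linarith
      · linarith
    · simp only [σ', τ', if_true]
      exact ⟨⟨by linarith, by linarith⟩, by linarith, by linarith⟩
  · intro s s' hs u hu v hv
    have hne : e.symm s ≠ e.symm s' := fun h => hs (e.symm.injective h)
    beta_reduce
    revert hne
    generalize e.symm s = p
    generalize e.symm s' = p'
    obtain ⟨⟨q, hq⟩, β⟩ := p
    obtain ⟨⟨q', hq'⟩, β'⟩ := p'
    intro hne
    cases β <;> cases β'
    · have hqq : q ≠ q' := by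
        rintro rfl
        exact hne rfl
      simp only [σ', τ', Bool.false_eq_true, if_false]
      intro he
      apply ne_same hD hqq hv hu
      have : v + lam a b q = -(-1 : ℝ) • v + lam a b q := by simp
      have he' := congrArg (fun z => z + u + v - (2 : ℝ) • c) he
      simp only [neg_smul, one_smul] at he'
      calc v + lam a b q = -u + ((2 : ℝ) • c + lam a b q) + u + v - (2 : ℝ) • c := by abel
        _ = -v + ((2 : ℝ) • c + lam a b q') + u + v - (2 : ℝ) • c := he'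
        _ = u + lam a b q' := by abel
    · simp only [σ', τ', Bool.false_eq_true, if_false, if_true]
      intro he
      apply ne_opp hK hD q' q hv hu
      simp only [neg_smul, one_smul] at he
      exact he.symm
    · simp only [σ', τ', Bool.false_eq_true, if_false, if_true]
      intro he
      apply ne_opp hK hD q q' hu hv
      simp only [neg_smul, one_smul] at he
      exact he
    · have hqq : q ≠ q' := by
        rintro rfl
        exact hne rfl
      simp only [σ', τ', if_true, one_smul]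
      exact ne_same hD hqq hu hv
  · have h1 := count hA hab (R := R) (M := M) (by linarith) (by linarith)
    have h2 : (Fintype.card T : ℝ) = 2 * (idx a b R M).card := by
      have : Fintype.card T = (idx a b R M).card * 2 := by
        rw [Fintype.card_prod, Fintype.card_coe, Fintype.card_bool]
      rw [this]
      push_cast
      ring
    rw [h2]
    have h3 : (M - (2 * R + 4 * D a b + 1)) ^ 2 ≤ (M - 2 * R - 4 * D a b) ^ 2 := by
      apply pow_le_pow_left₀ (by linarith)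
      linarith
    calc (M - (2 * R + 4 * D a b + 1)) ^ 2 ≤ _ := h3
      _ ≤ _ := h1
      _ = _ := by ring

end Pool.Agent.Potatoes.PL
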