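import Pool.Agent.Work.MP_72041b_co.PL.Stmts
import Pool.Agent.Work.MP_72041b_co.LV.I_Pck

set_option autoImplicit false

namespace Pool.Agent.Potatoes.PL

open MeasureTheory Set Metric
open scoped RealInnerProductSpace Pointwise

namespace AuxPckP

open LV LV.AuxPck

/-- assignment of places in all classes -/
lemma assign {m : ℕ} (n : Fin m → ℕ) (R : ℝ) (hR : 0 < R) (h2 : S_Asg) {ι : Type}
    (cls : ι → (Fin 2 → ℕ) × Fin m) (v : ι → ℝ)
    (hv : ∀ i, 1 ≤ R * (n (cls i).2 * v i))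
    (hs : Summable fun i => w (cls i).1 * v i) :
    ∃ (pal : (g : (Fin 2 → ℕ) × Fin m) → {j // cls j = g} → ℕ)
      (slot : (g : (Fin 2 → ℕ) × Fin m) → {j // cls j = g} → Fin (n g.2)),
      (∀ g (i j : {j // cls j = g}), i ≠ j → pal g i = pal g j → slot g i ≠ slot g j) ∧
      ∀ g (i : {j // cls j = g}), (pal g i : ℝ) ≤ R * ∑' j : {j // cls j = g}, v j := by
  have h3 : ∀ g : (Fin 2 → ℕ) × Fin m, ∃ (pal : {j // cls j = g} → ℕ)
      (slot : {j // cls j = g} → Fin (n g.2)),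
      (∀ i j, i ≠ j → pal i = pal j → slot i ≠ slot j) ∧
      ∀ i, (pal i : ℝ) ≤ R * ∑' j : {j // cls j = g}, v j := by
    intro g
    refine h2 {j // cls j = g} (fun j => v j) (n g.2) R hR ?_ ?_
    · rintro ⟨i, rfl⟩
      exact hv i
    · have h4 : Summable fun j : {j // cls j = g} => w (cls j).1 * v j :=
        hs.subtype {j | cls j = g}
      have h5 : ∀ j : {j // cls j = g}, w (cls j).1 * v j = w g.1 * v j := by
        rintro ⟨j, rfl⟩
        rfl
      rw [funext h5] at h4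
      exact (summable_mul_left_iff (w_pos g.1).ne').1 h4
  choose pal slot h4 h5 using h3
  exact ⟨pal, slot, h4, h5⟩

end AuxPckP

open AuxPckP LV.AuxPck

theorem pr_PckP (h1 : S_Slots) (h2 : S_Asg) (h3 : LV.S_Bx) : S_PckP := by
  intro c θ hc hθ hθ2
  have ha : (0 : ℝ) < 2 / √3 := by positivity
  set Q : ℝ := (2 / √3 + θ ^ 2) / 2 with hQd
  have hQ1 : 2 / √3 < Q := by rw [hQd]; linarith
  have hQ2 : Q < θ ^ 2 := by rw [hQd]; linarith
  have hQ : 0 < Q := ha.trans hQ1
  have hθ20 : 0 < θ ^ 2 := by positivity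
  set δ : ℝ := (θ ^ 2 - Q) / (2 * θ ^ 2) with hδd
  have hδ : 0 < δ := by
    rw [hδd]
    exact div_pos (by linarith) (by linarith)
  set D : ℝ := (1 - δ) * θ ^ 2 - Q with hDd
  have hD : 0 < D := by
    have : δ * θ ^ 2 = (θ ^ 2 - Q) / 2 := by
      rw [hδd]
      field_simp
    rw [hDd]
    nlinarith
  obtain ⟨M, m, lab, n, σ0, τ0, hM, hσ0, hbox, hkey⟩ := h1 c Q hc hQ1
  obtain ⟨s₀, hs₀, hbx⟩ := h3 2 (1 / 2) δ (by norm_num) (by norm_num) (by norm_num) hδ
  set U : ℝ := 2 * (M + 1) with hUd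
  have hU : 0 < U := by
    rw [hUd]
    linarith
  refine ⟨max (max 1 ((s₀ * U / θ) ^ 2)) (m * 2 ^ 2 * U ^ 2 / D),
    lt_of_lt_of_le one_pos ((le_max_left _ _).trans (le_max_left _ _)), ?_⟩
  intro t ht ι _ q H hH hu hcv hsum htot
  have ht1 : 1 ≤ t := ((le_max_left _ _).trans (le_max_left _ _)).trans ht
  have ht2 : (s₀ * U / θ) ^ 2 ≤ t := ((le_max_right _ _).trans (le_max_left _ _)).trans ht
  have ht3 : m * 2 ^ 2 * U ^ 2 / D ≤ t := (le_max_right _ _).trans ht
  have ht0 : 0 < t := by linarith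
  set s : ℝ := θ * √t / U with hsd
  have htk : √t ^ 2 = t := Real.sq_sqrt ht0.le
  have hroot : 0 < √t := Real.sqrt_pos.2 ht0
  have hs1 : s₀ ≤ s := by
    have h4 : s₀ * U / θ ≤ √t := Real.le_sqrt_of_sq_le ht2
    rw [div_le_iff₀ hθ] at h4
    rw [hsd, le_div_iff₀ hU]
    linarith
  let cls : ι → (Fin 2 → ℕ) × Fin m := fun i => (q i, lab (H i))
  have hsw : ∀ i, (∏ l, 2 * (1 / 2 : ℝ) ^ q i l) * volume.real (H i) =
      2 ^ 2 * (w (cls i).1 * volume.real (H i)) := by
    intro i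
    rw [w_two, mul_assoc]
  have hs2 : Summable fun i => w (cls i).1 * volume.real (H i) := by
    rw [funext hsw] at hsum
    exact (summable_mul_left_iff (by positivity)).1 hsum
  have htot2 : 2 ^ 2 * ∑' i, w (cls i).1 * volume.real (H i) ≤ t := by
    rw [← tsum_mul_left, ← funext hsw]
    exact htot
  have hM2 : 0 < (M + 1) ^ 2 := by positivity
  set R : ℝ := Q / (M + 1) ^ 2 with hRd
  have hR : 0 < R := by positivity
  have hRv : ∀ i, 1 ≤ R * (n (cls i).2 * volume.real (H i)) := by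
    intro i
    have h4 := (hkey (H i) (hH i) (hu i) (hcv i)).1
    have h5 : R * (n (cls i).2 * volume.real (H i)) =
        Q * (n (lab (H i)) * volume.real (H i)) / (M + 1) ^ 2 := by
      rw [hRd, div_mul_eq_mul_div]
    rw [h5, le_div_iff₀ hM2, one_mul]
    exact h4
  obtain ⟨pal', slot, hsl, hpb'⟩ := assign n R hR h2 cls (fun i => volume.real (H i)) hRv hs2
  let pal : ι → ℕ := fun i => pal' (cls i) ⟨i, rfl⟩
  obtain ⟨hT1, hT2⟩ := total cls pal (fun i => volume.real (H i)) (fun i => measureReal_nonneg)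
    R hR.le hs2 (fun i => hpb' (cls i) ⟨i, rfl⟩)
  let β := range fun i => (cls i, pal i)
  have hβ : Countable β := (countable_range _).to_subtype
  have hle : ∑' b : β, w b.1.1.1 ≤ (1 - δ) * s ^ 2 := by
    refine hT2.trans ?_
    have hsk : s ^ 2 = θ ^ 2 * t / U ^ 2 := by
      rw [hsd, div_pow, mul_pow, htk]
    have hUk : 0 < U ^ 2 := by positivity
    have h4 : m * 2 ^ 2 * U ^ 2 ≤ D * t := by
      rw [div_le_iff₀ hD] at ht3
      linarith
    have h5 : U ^ 2 = 2 ^ 2 * (M + 1) ^ 2 := by rw [hUd, mul_pow]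
    have h6 : R * ∑' i, w (cls i).1 * volume.real (H i) ≤ Q * t / U ^ 2 := by
      have h9 : Q * t / U ^ 2 = R * (t / 2 ^ 2) := by
        rw [hRd, h5]
        field_simp
      rw [h9]
      refine mul_le_mul_of_nonneg_left ?_ hR.le
      rw [le_div_iff₀ (by norm_num)]
      linarith
    have h10 : (m : ℝ) * 2 ^ 2 ≤ D * t / U ^ 2 := by
      rw [le_div_iff₀ hUk]
      exact h4
    calc (m : ℝ) * 2 ^ 2 + R * ∑' i, w (cls i).1 * volume.real (H i)
        ≤ D * t / U ^ 2 + Q * t / U ^ 2 := add_le_add h10 h6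
      _ = (1 - δ) * s ^ 2 := by
          rw [hsk, hDd]
          ring
  obtain ⟨p, hpa, hpb⟩ := hbx s hs1 β (fun b => b.1.1.1) hT1 hle
  let b : ι → β := fun i => ⟨(cls i, pal i), mem_range_self i⟩
  let lam : ι → Fin 2 → ℝ := fun i l => 2 * (1 / 2 : ℝ) ^ q i l
  have hlam : ∀ i l, 0 < lam i l := fun i l => by positivity
  have hUlam : ∀ i l, U * (1 / 2 : ℝ) ^ q i l = (M + 1) * lam i l := by
    intro i l
    show U * (1 / 2 : ℝ) ^ q i l = (M + 1) * (2 * (1 / 2 : ℝ) ^ q i l)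
    rw [hUd]
    ring
  let sg : ι → ℝ := fun i => σ0 (cls i).2 (slot (cls i) ⟨i, rfl⟩)
  let ps : ι → E 2 := fun i => τ0 (cls i).2 (slot (cls i) ⟨i, rfl⟩)
  let τ : ι → E 2 := fun i => WithLp.toLp 2 fun l =>
    U * p (b i) l + lam i l * (ps i l + 1 / 2)
  have hval : ∀ i l (x : ℝ), τ i l + sg i * (2 * (1 / 2 : ℝ) ^ q i l * x) =
      U * p (b i) l + lam i l * (sg i * x + ps i l + 1 / 2) := by
    intro i l x
    show U * p (b i) l + lam i l * (ps i l + 1 / 2) + sg i * (lam i l * x) = _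
    ring
  have hbd : ∀ i, ∀ x ∈ H i, ∀ l,
      U * p (b i) l < τ i l + sg i * (2 * (1 / 2 : ℝ) ^ q i l * x l) ∧
      τ i l + sg i * (2 * (1 / 2 : ℝ) ^ q i l * x l) <
        U * (p (b i) l + (1 / 2 : ℝ) ^ q i l) := by
    intro i x hx l
    rw [hval, mul_add U, hUlam]
    obtain ⟨h4, h4'⟩ := hbox (cls i).2 (slot (cls i) ⟨i, rfl⟩) x (hu i hx) l
    have h4a : 0 ≤ sg i * x l + ps i l := h4
    have h4b : sg i * x l + ps i l ≤ M := h4'
    have h5 := hlam i l
    constructor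
    · have : 0 < lam i l * (sg i * x l + ps i l + 1 / 2) := mul_pos h5 (by linarith)
      linarith
    · have : lam i l * (sg i * x l + ps i l + 1 / 2) < lam i l * (M + 1) :=
        mul_lt_mul_of_pos_left (by linarith) h5
      linarith
  have hcoord : ∀ i l (x : E 2), (τ i + sg i • LV.dil (fun l => 2 * (1 / 2 : ℝ) ^ q i l) x) l =
      τ i l + sg i * (2 * (1 / 2 : ℝ) ^ q i l * x l) := fun i l x => rfl
  refine ⟨sg, τ, fun i => hσ0 _ _, ?_, ?_⟩
  · intro i x hx l
    obtain ⟨h4, h5⟩ := hbd i x hx l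
    obtain ⟨h6, h7⟩ := hpa (b i) l
    constructor
    · have := mul_nonneg hU.le h6
      linarith
    · have h8 : U * (p (b i) l + (1 / 2 : ℝ) ^ q i l) ≤ U * s := mul_le_mul_of_nonneg_left h7 hU.le
      have h9 : U * s = θ * √t := by
        rw [hsd]
        field_simp
      linarith
  · intro i j hij x hx y hy hxy
    have hc' : ∀ l, τ i l + sg i * (2 * (1 / 2 : ℝ) ^ q i l * x l) =
        τ j l + sg j * (2 * (1 / 2 : ℝ) ^ q j l * y l) := by
      intro l
      have := congrArg (fun z : E 2 => z l) hxy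
      exact this
    by_cases hb : b i = b j
    · have hb1 : (cls i, pal i) = (cls j, pal j) := congrArg Subtype.val hb
      have hcl : cls i = cls j := congrArg Prod.fst hb1
      have hpl : pal i = pal j := congrArg Prod.snd hb1
      have hq : q i = q j := congrArg Prod.fst hcl
      have hlb : lab (H i) = lab (H j) := congrArg Prod.snd hcl
      have e : ∀ g (h : cls j = g), pal' (cls j) ⟨j, rfl⟩ = pal' g ⟨j, h⟩ ∧
          sg j = σ0 g.2 (slot g ⟨j, h⟩) ∧ ps j = τ0 g.2 (slot g ⟨j, h⟩) := by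
        rintro g rfl
        exact ⟨rfl, rfl, rfl⟩
      obtain ⟨e1, e2, e3⟩ := e (cls i) hcl.symm
      have hpl' : pal' (cls i) ⟨i, rfl⟩ = pal' (cls j) ⟨j, rfl⟩ := hpl
      rw [e1] at hpl'
      have h7 := hsl (cls i) ⟨i, rfl⟩ ⟨j, hcl.symm⟩ (fun h => hij (congrArg Subtype.val h)) hpl'
      refine (hkey (H i) (hH i) (hu i) (hcv i)).2 (H j) (hH j) (hu j) (hcv j) hlb.symm
        (slot (cls i) ⟨i, rfl⟩) (slot (cls i) ⟨j, hcl.symm⟩) h7 x hx y hy ?_
      have h8 : ∀ l, sg i * x l + ps i l = sg j * y l + ps j l := by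
        intro l
        have h4 := hc' l
        rw [hval, hval, hb] at h4
        have h5 : lam j l = lam i l := by
          show 2 * (1 / 2 : ℝ) ^ q j l = 2 * (1 / 2 : ℝ) ^ q i l
          rw [hq]
        rw [h5] at h4
        have h6 : lam i l * (sg i * x l + ps i l + 1 / 2) =
            lam i l * (sg j * y l + ps j l + 1 / 2) := by
          linarith
        have h7 := mul_left_cancel₀ (hlam i l).ne' h6
        linarith
      rw [e2, e3] at h8
      ext l
      exact h8 l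
    · obtain ⟨l, hl⟩ := hpb (b i) (b j) hb
      obtain ⟨h4, h5⟩ := hbd i x hx l
      obtain ⟨h6, h7⟩ := hbd j y hy l
      have h8 := hc' l
      rcases hl with hl | hl
      · have h9 := mul_le_mul_of_nonneg_left hl hU.le
        have h10 : U * (p (b i) l + (1 / 2 : ℝ) ^ q i l) ≤ U * p (b j) l := h9
        linarith
      · have h9 := mul_le_mul_of_nonneg_left hl hU.le
        have h10 : U * (p (b j) l + (1 / 2 : ℝ) ^ q j l) ≤ U * p (b i) l := h9
        linarith

end Pool.Agent.Potatoes.PL
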