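import Pool.Agent.Work.MP_72041b_co.PL.Stmts

/-! # The sectors of different neighbours are disjoint (item Sec of block PL) -/

set_option autoImplicit false

open scoped RealInnerProductSpace

namespace Pool.Agent.Potatoes.PL

namespace AuxSec

/-- The algebraic core: `n` is `‖x‖²`, `p, q` are the inner products with `x`, `D, D'` the
determinants. -/
theorem core (n a b p q r D D' : ℝ) (hn : 0 < n) (ha1 : 1 ≤ a) (ha : a < 4 / 3) (hb1 : 1 ≤ b)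
    (hb : b < 4 / 3) (hp : 0 < p) (hq : 0 < q) (hp2 : n * (3 / 4) * a ^ 2 < p ^ 2)
    (hq2 : n * (3 / 4) * b ^ 2 < q ^ 2) (hD : D ^ 2 = n * a - p ^ 2)
    (hD' : D' ^ 2 = n * b - q ^ 2) (hr : n * r = p * q + D * D') (hr2 : 2 * r ≤ a + b - 1) :
    False := by
  have hK : 0 < 3 / 2 * (a * b) - a - b + 1 := by nlinarith [mul_nonneg (sub_nonneg.2 ha1) (sub_nonneg.2 hb1)]
  have hD1 : D ^ 2 ≤ n * (a * (1 - 3 / 4 * a)) := by nlinarith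
  have hD1' : D' ^ 2 ≤ n * (b * (1 - 3 / 4 * b)) := by nlinarith
  have hpoly : 4 * ((a * (1 - 3 / 4 * a)) * (b * (1 - 3 / 4 * b))) ≤
      (3 / 2 * (a * b) - a - b + 1) ^ 2 := by
    nlinarith [mul_nonneg (sub_nonneg.2 ha1) (sub_nonneg.2 hb1), sq_nonneg (a - 1), sq_nonneg (b - 1)]
  have hDD : (D * D') ^ 2 ≤ (n * (3 / 2 * (a * b) - a - b + 1) / 2) ^ 2 := by
    have h1 : (D * D') ^ 2 ≤ (n * (a * (1 - 3 / 4 * a))) * (n * (b * (1 - 3 / 4 * b))) := by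
      rw [mul_pow]
      exact mul_le_mul hD1 hD1' (sq_nonneg _) (le_trans (sq_nonneg _) hD1)
    nlinarith [mul_le_mul_of_nonneg_left hpoly (sq_nonneg n)]
  have hDD2 : -(n * (3 / 2 * (a * b) - a - b + 1) / 2) ≤ D * D' :=
    (abs_le.1 (abs_le_of_sq_le_sq hDD (by positivity))).1
  have hpq : n * (3 / 4 * (a * b)) < p * q := by
    have h1 : (n * (3 / 4 * (a * b))) ^ 2 < (p * q) ^ 2 := by
      have : (n * (3 / 4) * a ^ 2) * (n * (3 / 4) * b ^ 2) < p ^ 2 * q ^ 2 :=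
        mul_lt_mul'' hp2 hq2 (by positivity) (by positivity)
      nlinarith
    exact lt_of_pow_lt_pow_left₀ 2 (by positivity) h1
  nlinarith [mul_le_mul_of_nonneg_left hr2 hn.le]

end AuxSec

open AuxSec in
theorem pr_Sec : S_Sec := by
  intro w w' x hw1 hw hw1' hw' hww hx hx'
  have hx0 : x ≠ 0 := by
    rintro rfl
    simp at hx
  have hX : 0 < ‖x‖ := norm_pos_iff.2 hx0
  have h3 : (√3 : ℝ) ^ 2 = 3 := Real.sq_sqrt (by norm_num)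
  have h30 : (0 : ℝ) < √3 := Real.sqrt_pos.2 (by norm_num)
  have key : ∀ v : E 2, 1 ≤ ‖v‖ → ‖v‖ < 2 / √3 → 1 ≤ ‖v‖ ^ 2 ∧ ‖v‖ ^ 2 < 4 / 3 := by
    intro v h1 h2
    refine ⟨one_le_pow₀ h1, ?_⟩
    have : ‖v‖ ^ 2 < (2 / √3) ^ 2 := pow_lt_pow_left₀ h2 (norm_nonneg _) two_ne_zero
    rwa [div_pow, h3, show (2 : ℝ) ^ 2 = 4 by norm_num] at this
  have key2 : ∀ v : E 2, 1 ≤ ‖v‖ → ‖x‖ * (√3 / 2 * ‖v‖) * ‖v‖ < ⟪x, v⟫ →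
      0 < ⟪x, v⟫ ∧ ‖x‖ ^ 2 * (3 / 4) * (‖v‖ ^ 2) ^ 2 < ⟪x, v⟫ ^ 2 := by
    intro v h1 h2
    have h0 : 0 ≤ ‖x‖ * (√3 / 2 * ‖v‖) * ‖v‖ := by positivity
    refine ⟨lt_of_le_of_lt h0 h2, ?_⟩
    have : (‖x‖ * (√3 / 2 * ‖v‖) * ‖v‖) ^ 2 < ⟪x, v⟫ ^ 2 := pow_lt_pow_left₀ h2 h0 two_ne_zero
    calc ‖x‖ ^ 2 * (3 / 4) * (‖v‖ ^ 2) ^ 2 = ‖x‖ ^ 2 * ((√3) ^ 2 / 4) * (‖v‖ ^ 2) ^ 2 := by rw [h3]
      _ = (‖x‖ * (√3 / 2 * ‖v‖) * ‖v‖) ^ 2 := by ring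
      _ < _ := this
  obtain ⟨ha1, ha⟩ := key w hw1 hw
  obtain ⟨hb1, hb⟩ := key w' hw1' hw'
  obtain ⟨hp, hp2⟩ := key2 w hw1 hx
  obtain ⟨hq, hq2⟩ := key2 w' hw1' hx'
  have hr2 : 2 * ⟪w, w'⟫ ≤ ‖w‖ ^ 2 + ‖w'‖ ^ 2 - 1 := by
    have h1 : (1 : ℝ) ≤ ‖w - w'‖ ^ 2 := one_le_pow₀ hww
    rw [norm_sub_sq_real] at h1
    linarith
  have nsq : ∀ v : E 2, ‖v‖ ^ 2 = v 0 ^ 2 + v 1 ^ 2 := by
    intro v
    rw [EuclideanSpace.real_norm_sq_eq, Fin.sum_univ_two]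
  have inn : ∀ u v : E 2, ⟪u, v⟫ = u 0 * v 0 + u 1 * v 1 := by
    intro u v
    rw [PiLp.inner_apply, Fin.sum_univ_two]
    simp [mul_comm]
  refine core (‖x‖ ^ 2) (‖w‖ ^ 2) (‖w'‖ ^ 2) ⟪x, w⟫ ⟪x, w'⟫ ⟪w, w'⟫ (x 0 * w 1 - x 1 * w 0)
    (x 0 * w' 1 - x 1 * w' 0) (by positivity) ha1 ha hb1 hb hp hq hp2 hq2 ?_ ?_ ?_ hr2
  · rw [nsq, nsq, inn]; ring
  · rw [nsq, nsq, inn]; ring
  · rw [nsq, inn, inn, inn]; ring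

end Pool.Agent.Potatoes.PL
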