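import Pool.Agent.Work.MP_72041b_co.PL.Stmts

set_option autoImplicit false

namespace Pool.Agent.Potatoes.PL

open MeasureTheory Set Metric
open scoped RealInnerProductSpace Pointwise

namespace AuxSlots

/-- the point of `E 2` with given coordinates -/
noncomputable def up (z : ℝ × ℝ) : E 2 := WithLp.toLp 2 ![z.1, z.2]

theorem up0 (z : ℝ × ℝ) : up z 0 = z.1 := by simp [up]

theorem up1 (z : ℝ × ℝ) : up z 1 = z.2 := by simp [up]

/-- good labels -/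
def Good (c : ℝ) {m : ℕ} (lab : Set (ℝ × ℝ) → Fin m) (j : Fin m) : Prop :=
  ∃ H : Set (ℝ × ℝ), Bd H ∧ (∀ z ∈ H, 0 ≤ z.1 ∧ z.1 ≤ 1 ∧ 0 ≤ z.2 ∧ z.2 ≤ 1) ∧
    c ≤ volume.real H ∧ lab H = j

/-- places in a square of side `M` -/
def Places (K : Set (ℝ × ℝ)) (C M : ℝ) : Prop :=
  ∃ (n : ℕ) (σ : Fin n → ℝ) (τ : Fin n → ℝ × ℝ), (∀ s, σ s = 1 ∨ σ s = -1) ∧
    (∀ s, ∀ x y : ℝ, 0 ≤ x → x ≤ 1 → 0 ≤ y → y ≤ 1 → (0 ≤ σ s * x + (τ s).1 ∧
      σ s * x + (τ s).1 ≤ M) ∧ (0 ≤ σ s * y + (τ s).2 ∧ σ s * y + (τ s).2 ≤ M)) ∧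
    (∀ s s', s ≠ s' → ∀ u ∈ interior K, ∀ v ∈ interior K, σ s • u + τ s ≠ σ s' • v + τ s') ∧
    √3 * (M - C) ^ 2 ≤ n * (2 * volume.real K)

theorem ex_places (h1 : S_Half) (h3 : S_Pal) (K : Set (ℝ × ℝ)) (hK : Bd K) :
    ∃ C : ℝ, 0 < C ∧ ∀ M : ℝ, C ≤ M → Places K C M := by
  obtain ⟨a, b, c, hD, hdet, hv⟩ := h1 K hK
  obtain ⟨C, hC, h⟩ := h3 K a b c hK hD hdet
  refine ⟨C, hC, fun M hM => ?_⟩
  obtain ⟨n, σ, τ, h4, h5, h6, h7⟩ := h M hM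
  refine ⟨n, σ, τ, h4, h5, h6, ?_⟩
  have h8 : √3 * (M - C) ^ 2 ≤ √3 * (n * (2 * |a.1 * b.2 - a.2 * b.1|)) :=
    mul_le_mul_of_nonneg_left h7 (Real.sqrt_nonneg 3)
  have h9 : (n : ℝ) * (2 * (√3 * |a.1 * b.2 - a.2 * b.1|)) ≤ n * (2 * volume.real K) := by
    apply mul_le_mul_of_nonneg_left _ (Nat.cast_nonneg n)
    linarith
  calc √3 * (M - C) ^ 2 ≤ √3 * (n * (2 * |a.1 * b.2 - a.2 * b.1|)) := h8
    _ = (n : ℝ) * (2 * (√3 * |a.1 * b.2 - a.2 * b.1|)) := by ring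
    _ ≤ _ := h9

theorem ev_large (q Q C : ℝ) (hq : 0 < q) (hQ : q < Q) :
    ∀ᶠ M : ℝ in Filter.atTop, (M + 1) ^ 2 * q ≤ Q * (M - C) ^ 2 := by
  have hr : 1 < √(Q / q) := by
    rw [Real.lt_sqrt (by norm_num)]
    rw [one_pow, lt_div_iff₀ hq]
    linarith
  set r := √(Q / q) with hr'
  have hQ0 : 0 < Q := hq.trans hQ
  have hr2 : r ^ 2 = Q / q := Real.sq_sqrt (by positivity)
  have hQq : Q = r ^ 2 * q := by
    rw [hr2]; field_simp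
  filter_upwards [Filter.eventually_ge_atTop ((1 + r * C) / (r - 1)),
    Filter.eventually_ge_atTop 0] with M hM hM0
  have h1 : 1 + r * C ≤ M * (r - 1) := by
    rwa [div_le_iff₀ (by linarith)] at hM
  have h2 : M + 1 ≤ r * (M - C) := by linarith
  have h3 : (M + 1) ^ 2 ≤ (r * (M - C)) ^ 2 := pow_le_pow_left₀ (by linarith) h2 2
  rw [hQq]
  calc (M + 1) ^ 2 * q ≤ (r * (M - C)) ^ 2 * q := mul_le_mul_of_nonneg_right h3 hq.le
    _ = _ := by ring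

/-- one label -/
theorem one_label (h1 : S_Half) (h3 : S_Pal) (q Q : ℝ) (hq : 0 < q) (hQ : q < Q)
    (G : Prop) (K : Set (ℝ × ℝ)) (hK : G → Bd K) :
    ∀ᶠ M : ℝ in Filter.atTop, ∃ (n : ℕ) (σ : Fin n → ℝ) (τ : Fin n → E 2),
      (∀ s, σ s = 1 ∨ σ s = -1) ∧
      (∀ s, ∀ x ∈ LV.ubox 2, ∀ l, 0 ≤ σ s * x l + τ s l ∧ σ s * x l + τ s l ≤ M) ∧
      (G → (∀ s s', s ≠ s' → ∀ u : E 2, p2 u ∈ interior K → ∀ v : E 2, p2 v ∈ interior K →
        σ s • u + τ s ≠ σ s' • v + τ s') ∧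
        √3 * ((M + 1) ^ 2 * q) ≤ Q * (n * (2 * volume.real K))) := by
  by_cases hG : G
  · obtain ⟨C, hC, h⟩ := ex_places h1 h3 K (hK hG)
    filter_upwards [ev_large q Q C hq hQ, Filter.eventually_ge_atTop C] with M hM1 hM2
    obtain ⟨n, σ, τ, h4, h5, h6, h7⟩ := h M hM2
    refine ⟨n, σ, fun s => up (τ s), h4, ?_, ?_⟩
    · intro s x hx l
      have h8 := h5 s (x 0) (x 1) (hx 0).1 (hx 0).2 (hx 1).1 (hx 1).2
      fin_cases l
      · simpa [up0] using h8.1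
      · simpa [up1] using h8.2
    · intro _
      refine ⟨?_, ?_⟩
      · intro s s' hs u hu v hv heq
        apply h6 s s' hs _ hu _ hv
        have e0 : (σ s • u + up (τ s)) 0 = (σ s' • v + up (τ s')) 0 := by rw [heq]
        have e1 : (σ s • u + up (τ s)) 1 = (σ s' • v + up (τ s')) 1 := by rw [heq]
        simp only [PiLp.add_apply, PiLp.smul_apply, up0, up1, smul_eq_mul] at e0 e1
        ext
        · simpa [p2] using e0
        · simpa [p2] using e1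
      · have hQ0 : 0 < Q := hq.trans hQ
        calc √3 * ((M + 1) ^ 2 * q) ≤ √3 * (Q * (M - C) ^ 2) :=
              mul_le_mul_of_nonneg_left hM1 (Real.sqrt_nonneg 3)
          _ = Q * (√3 * (M - C) ^ 2) := by ring
          _ ≤ _ := mul_le_mul_of_nonneg_left h7 hQ0.le
  · refine Filter.Eventually.of_forall fun M => ?_
    refine ⟨0, fun s => s.elim0, fun s => s.elim0, fun s => s.elim0, fun s => s.elim0,
      fun h => absurd h hG⟩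

end AuxSlots

theorem pr_Slots (h1 : S_Half) (h2 : S_Hull) (h3 : S_Pal) (h4 : S_Conv) : S_Slots := by
  intro c Q hc hQ
  have h30 : (0 : ℝ) < √3 := Real.sqrt_pos.2 (by norm_num)
  obtain ⟨q', hq1, hq2⟩ := exists_between hQ
  have hq'0 : 0 < q' := lt_trans (by positivity) hq1
  obtain ⟨η, hη, hqη⟩ : ∃ η : ℝ, 0 < η ∧ √3 * q' = 2 * (1 + η) := by
    refine ⟨√3 * q' / 2 - 1, ?_, by ring⟩
    rw [div_lt_iff₀ h30] at hq1
    nlinarith
  obtain ⟨m, lab, hull, hh⟩ := h2 c η hc hη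
  have key := fun j : Fin m => AuxSlots.one_label h1 h3 q' Q hq'0 hq2 (AuxSlots.Good c lab j)
    (hull j) (fun hG => by
      obtain ⟨H, hH1, hH2, hH3, hH4⟩ := hG
      rw [← hH4]
      exact (hh H hH1 hH2 hH3).1)
  obtain ⟨M, hM, hM0⟩ := ((Filter.eventually_all.2 key).and (Filter.eventually_gt_atTop 0)).exists
  choose n σ τ hs1 hs2 hs3 using hM
  refine ⟨M, m, fun H => lab (p2 '' H), n, σ, τ, hM0, hs1, hs2, ?_⟩
  have good : ∀ H : Set (E 2), IsBody H → H ⊆ LV.ubox 2 → c ≤ volume.real H →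
      Bd (p2 '' H) ∧ (∀ z ∈ p2 '' H, 0 ≤ z.1 ∧ z.1 ≤ 1 ∧ 0 ≤ z.2 ∧ z.2 ≤ 1) ∧
        c ≤ volume.real (p2 '' H) := by
    intro H hH hHb hHc
    obtain ⟨k1, k2, k3⟩ := h4 H hH
    refine ⟨k1, ?_, by rw [k2]; exact hHc⟩
    rintro _ ⟨x, hx, rfl⟩
    have hx' := hHb hx
    exact ⟨(hx' 0).1, (hx' 0).2, (hx' 1).1, (hx' 1).2⟩
  intro H hH hHb hHc
  obtain ⟨g1, g2, g3⟩ := good H hH hHb hHc
  obtain ⟨t1, t2, t3⟩ := hh (p2 '' H) g1 g2 g3
  obtain ⟨r1, r2⟩ := hs3 (lab (p2 '' H)) ⟨p2 '' H, g1, g2, g3, rfl⟩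
  have hQ0 : 0 < Q := hq'0.trans hq2
  refine ⟨?_, ?_⟩
  · rw [(h4 H hH).2.1] at t3
    have e1 : √3 * ((M + 1) ^ 2 * q') ≤
        Q * (n (lab (p2 '' H)) * (2 * ((1 + η) * volume.real H))) := by
      refine r2.trans ?_
      apply mul_le_mul_of_nonneg_left _ hQ0.le
      apply mul_le_mul_of_nonneg_left _ (Nat.cast_nonneg _)
      linarith
    have e2 : (M + 1) ^ 2 * (√3 * q') ≤
        (Q * (n (lab (p2 '' H)) * volume.real H)) * (√3 * q') := by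
      calc (M + 1) ^ 2 * (√3 * q') = √3 * ((M + 1) ^ 2 * q') := by ring
        _ ≤ Q * (n (lab (p2 '' H)) * (2 * ((1 + η) * volume.real H))) := e1
        _ = (Q * (n (lab (p2 '' H)) * volume.real H)) * (2 * (1 + η)) := by ring
        _ = _ := by rw [hqη]
    exact le_of_mul_le_mul_right e2 (by positivity)
  · intro H' hH' hHb' hHc' hlab s s' hss x hx y hy
    obtain ⟨g1', g2', g3'⟩ := good H' hH' hHb' hHc'
    obtain ⟨t1', t2', t3'⟩ := hh (p2 '' H') g1' g2' g3'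
    apply r1 s s' hss x (t2 ⟨x, hx, rfl⟩) y
    have hlab' : lab (p2 '' H') = lab (p2 '' H) := hlab
    rw [← hlab']
    exact t2' ⟨y, hy, rfl⟩

end Pool.Agent.Potatoes.PL
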