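import Pool.Agent.Work.MP_72041b_co.PL.I_DL

set_option autoImplicit false

/-!
# MP_72041b_co, block PL, item Trap: a trapezoid in a convex body
-/

namespace Pool.Agent.Potatoes.PL

open MeasureTheory Set Metric
open scoped RealInnerProductSpace Pointwise

namespace AuxTrap

open AuxHL

/-- points of a vertical chord -/
lemma seg_v {K : Set (ℝ × ℝ)} (hK : Convex ℝ K) {x y y' t : ℝ} (h : (x, y) ∈ K)
    (h' : (x, y') ∈ K) (h1 : y ≤ t) (h2 : t ≤ y') : (x, t) ∈ K := by
  rcases eq_or_lt_of_le (h1.trans h2) with h3 | h3
  · have : t = y := by linarith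
    rw [this]
    exact h
  · have hn : y' - y ≠ 0 := by linarith
    have h4 := seg hK h h' (s := (t - y) / (y' - y)) (div_nonneg (by linarith) (by linarith))
      (by rw [div_le_one (by linarith)]; linarith)
    have e1 : (1 - (t - y) / (y' - y)) * x + (t - y) / (y' - y) * x = x := by ring
    have e2 : (1 - (t - y) / (y' - y)) * y + (t - y) / (y' - y) * y' = t := by
      field_simp
      ring
    rwa [e1, e2] at h4

end AuxTrap

open AuxTrap AuxHL

theorem pr_Trap : S_Trap := by
  intro K α β q q' p p' hK hαβ hp hp' h1 h2 h3 h4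
  rcases eq_or_lt_of_le hαβ with h0 | h0
  · rw [h0, sub_self, mul_zero]
    exact measureReal_nonneg
  have hn : β - α ≠ 0 := by linarith
  have hpos : 0 < β - α := by linarith
  let f : ℝ → ℝ := fun x => q + (q' - q) / (β - α) * (x - α)
  let g : ℝ → ℝ := fun x => q + p + (q' + p' - (q + p)) / (β - α) * (x - α)
  have hfc : Continuous f := by fun_prop
  have hgc : Continuous g := by fun_prop
  have hgf : ∀ x, g x - f x = p + (p' - p) / (β - α) * (x - α) := by
    intro x
    simp only [f, g]
    field_simp
    ring
  have hfg : ∀ x ∈ Ioo α β, f x ≤ g x := by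
    intro x hx
    have e : p + (p' - p) / (β - α) * (x - α) = (p * (β - x) + p' * (x - α)) / (β - α) := by
      field_simp
      ring
    have h5 : 0 ≤ (p * (β - x) + p' * (x - α)) / (β - α) := by
      apply div_nonneg _ hpos.le
      have := mul_nonneg hp (by linarith [hx.2] : (0 : ℝ) ≤ β - x)
      have := mul_nonneg hp' (by linarith [hx.1] : (0 : ℝ) ≤ x - α)
      linarith
    have := hgf x
    linarith
  have hsub : regionBetween f g (Ioo α β) ⊆ K ∩ {z | α < z.1 ∧ z.1 < β} := by
    rintro ⟨x, y⟩ ⟨hx, hy⟩
    simp only at hx hy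
    refine ⟨?_, hx.1, hx.2⟩
    have hs0 : 0 ≤ (x - α) / (β - α) := div_nonneg (by linarith [hx.1]) hpos.le
    have hs1 : (x - α) / (β - α) ≤ 1 := by
      rw [div_le_one hpos]
      linarith [hx.2]
    have m1 := seg hK.convex h1 h3 hs0 hs1
    have m2 := seg hK.convex h2 h4 hs0 hs1
    have e1 : (1 - (x - α) / (β - α)) * α + (x - α) / (β - α) * β = x := by
      field_simp
      ring
    have e2 : (1 - (x - α) / (β - α)) * q + (x - α) / (β - α) * q' = f x := by
      simp only [f]
      ring
    have e3 : (1 - (x - α) / (β - α)) * (q + p) + (x - α) / (β - α) * (q' + p') = g x := by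
      simp only [g]
      ring
    rw [e1, e2] at m1
    rw [e1, e3] at m2
    exact seg_v hK.convex m1 m2 hy.1.le hy.2.le
  have hvol := volume_regionBetween_eq_integral (μ := volume) (f := f) (g := g) (s := Ioo α β)
    ((hfc.integrableOn_Icc).mono_set Ioo_subset_Icc_self)
    ((hgc.integrableOn_Icc).mono_set Ioo_subset_Icc_self) measurableSet_Ioo hfg
  have hint : ∫ y in Ioo α β, (g - f) y = (p + p') / 2 * (β - α) := by
    rw [← integral_Ioc_eq_integral_Ioo, ← intervalIntegral.integral_of_le hαβ]
    have e1 : (fun y => (g - f) y) = fun y => p + (p' - p) / (β - α) * (y - α) := by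
      funext y
      exact hgf y
    rw [e1]
    have hd : ∀ y ∈ uIcc α β, HasDerivAt
        (fun y => p * y + (p' - p) / (β - α) * ((y - α) ^ 2 / 2))
        (p + (p' - p) / (β - α) * (y - α)) y := by
      intro y _
      have h5 : HasDerivAt (fun y : ℝ => (y - α) ^ 2 / 2) (y - α) y := by
        have h7 : HasDerivAt (fun y : ℝ => y - α) 1 y := (hasDerivAt_id' y).sub_const α
        have h8 := (h7.mul h7).div_const 2
        have e2 : (fun y : ℝ => (y - α) ^ 2 / 2) = fun y => (y - α) * (y - α) / 2 := by
          funext y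
          ring
        rw [e2]
        have e3 : (1 * (y - α) + (y - α) * 1) / 2 = y - α := by ring
        rw [e3] at h8
        exact h8
      have h6 := ((hasDerivAt_id' y).const_mul p).add (h5.const_mul ((p' - p) / (β - α)))
      rw [mul_one] at h6
      exact h6
    rw [intervalIntegral.integral_eq_sub_of_hasDerivAt hd
      (Continuous.intervalIntegrable (by fun_prop) _ _)]
    field_simp
    ring
  rw [hint] at hvol
  have hnn : 0 ≤ (p + p') / 2 * (β - α) := by positivity
  have hfin : volume (K ∩ {z | α < z.1 ∧ z.1 < β}) ≠ ⊤ :=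
    (measure_mono inter_subset_left).trans_lt hK.compact.measure_lt_top |>.ne
  have h6 := measure_mono (μ := volume) hsub
  rw [show (volume : Measure (ℝ × ℝ)) (regionBetween f g (Ioo α β)) =
    ENNReal.ofReal ((p + p') / 2 * (β - α)) from hvol] at h6
  rw [measureReal_def]
  exact (ENNReal.ofReal_le_iff_le_toReal hfin).1 h6

end Pool.Agent.Potatoes.PL
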