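import Pool.Agent.Work.MP_72041b_co.PL.Stmts

set_option autoImplicit false

/-!
# MP_72041b_co, block PL, item UpP: the upper bound in the plane
-/

namespace Pool.Agent.Potatoes.PL

open MeasureTheory Set Metric
open scoped RealInnerProductSpace Pointwise

namespace AuxUpP

/-- the sum of the real volumes -/
lemma sum_real {k : ℕ} {ι : Type} (K : ι → Set (E k)) (t : ℝ)
    (h : ∑' i, volume (K i) ≤ ENNReal.ofReal t) (ht : 0 ≤ t) :
    (Summable fun i => volume.real (K i)) ∧ ∑' i, volume.real (K i) ≤ t := by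
  have hne : ∑' i, volume (K i) ≠ ⊤ := ne_top_of_le_ne_top ENNReal.ofReal_ne_top h
  refine ⟨ENNReal.summable_toReal hne, ?_⟩
  have h1 : ∑' i, volume.real (K i) = (∑' i, volume (K i)).toReal :=
    (ENNReal.tsum_toReal_eq fun i => ENNReal.ne_top_of_tsum_ne_top hne i).symm
  rw [h1]
  exact ENNReal.toReal_le_of_le_ofReal ht h

/-- the point reflection or the identity -/
lemma sign (σ : ℝ) (h : σ = 1 ∨ σ = -1) : ∃ e : E 2 ≃ᵢ E 2, ∀ x, e x = σ • x := by
  rcases h with rfl | rfl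
  · exact ⟨IsometryEquiv.refl _, fun x => by rw [one_smul]; rfl⟩
  · exact ⟨IsometryEquiv.neg _, fun x => by rw [neg_one_smul]; rfl⟩

end AuxUpP

open AuxUpP in
theorem pr_UpP (h1 : LV.S_Nrm) (h2 : S_PckP) : S_UpP := by
  intro θ hθ0 hθ
  obtain ⟨c, hc, hN⟩ := h1 2 (by norm_num)
  obtain ⟨t₀, ht₀, hP⟩ := h2 c θ hc hθ0 hθ
  refine ⟨t₀, ht₀, ?_⟩
  intro t ht
  have ht0 : 0 < t := ht₀.trans_le ht
  set s : ℝ := θ * √t with hs
  have hs0 : 0 < s := mul_pos hθ0 (Real.sqrt_pos.2 ht0)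
  have hk1 : (0 : ℝ) < √((2 : ℕ) : ℝ) := Real.sqrt_pos.2 (by norm_num)
  have e0 : √2 * s = √((2 : ℕ) : ℝ) * s := by norm_num
  rw [e0]
  refine ((claimStd 2 1 t (√((2 : ℕ) : ℝ) * s) (by norm_num) (mul_pos hk1 hs0)).1).2 ?_
  intro ι _ K hK hd hv
  rw [mul_div_cancel_left₀ s hk1.ne']
  choose q H g hH1 hH2 hH3 hH4 hH5 using fun i => hN (K i) (hK i) (hd i)
  obtain ⟨hsum, hle⟩ := sum_real K t hv ht0.le
  have e1 : (fun i => volume.real (K i)) =
      fun i => (∏ l, 2 * (1 / 2 : ℝ) ^ q i l) * volume.real (H i) := funext hH4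
  rw [e1] at hsum
  have hle' : ∑' i, (∏ l, 2 * (1 / 2 : ℝ) ^ q i l) * volume.real (H i) ≤ t := by
    rw [← e1]
    exact hle
  obtain ⟨σ, τ, hσ, hτ1, hτ2⟩ := hP t ht ι q H hH1 hH2 hH3 hsum hle'
  choose r hr using fun i => sign (σ i) (hσ i)
  let half : E 2 := WithLp.toLp 2 fun _ => s / 2
  have hval : ∀ i x, (((g i).trans (r i)).trans (IsometryEquiv.addRight (τ i - half))) x =
      σ i • g i x + (τ i - half) := by
    intro i x
    change r i (g i x) + (τ i - half) = _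
    rw [hr]
  refine ⟨fun i => ((g i).trans (r i)).trans (IsometryEquiv.addRight (τ i - half)), ?_, ?_⟩
  · rintro i _ ⟨x, hx, rfl⟩
    have hx' : g i x ∈ LV.dil (fun l => 2 * (1 / 2 : ℝ) ^ q i l) '' H i := by
      rw [← hH5 i]
      exact mem_image_of_mem _ hx
    obtain ⟨y, hy, hyx⟩ := hx'
    intro l
    rw [hval]
    have e2 : (σ i • g i x + (τ i - half)) l =
        σ i * (2 * (1 / 2 : ℝ) ^ q i l * y l) + (τ i l - s / 2) := by
      rw [← hyx]
      rfl
    rw [e2, abs_le]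
    have := hτ1 i y hy l
    constructor <;> linarith [this.1, this.2]
  · intro i j hij
    rw [Set.disjoint_left]
    rintro z ⟨x, hx, hxz⟩ ⟨x', hx', hxz'⟩
    simp only at hxz hxz'
    rw [hval] at hxz hxz'
    have hx1 : g i x ∈ LV.dil (fun l => 2 * (1 / 2 : ℝ) ^ q i l) '' H i := by
      rw [← hH5 i]
      exact mem_image_of_mem _ hx
    have hx2 : g j x' ∈ LV.dil (fun l => 2 * (1 / 2 : ℝ) ^ q j l) '' H j := by
      rw [← hH5 j]
      exact mem_image_of_mem _ hx'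
    obtain ⟨y, hy, hyx⟩ := hx1
    obtain ⟨y', hy', hyx'⟩ := hx2
    apply hτ2 i j hij y hy y' hy'
    rw [hyx, hyx']
    have e3 : τ i + σ i • g i x = z + half := by
      rw [← hxz]
      abel
    have e4 : τ j + σ j • g j x' = z + half := by
      rw [← hxz']
      abel
    rw [e3, e4]

end Pool.Agent.Potatoes.PL
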