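import Pool.Agent.Work.MP_72041b_co.LV.I_Grp
import Pool.Agent.Work.MP_72041b_co.LV.I_Bx
import Pool.Agent.Work.MP_72041b_co.LV.I_Lim
import Pool.Agent.Work.MP_72041b_co.LV.I_Nrm
import Pool.Agent.Work.MP_72041b_co.LV.I_fG
import Pool.Agent.Work.MP_72041b_co.LV.I_fS
import Pool.Agent.Work.MP_72041b_co.PL.I_HL
import Pool.Agent.Work.MP_72041b_co.PL.I_DL
import Pool.Agent.Work.MP_72041b_co.PL.I_Trap
import Pool.Agent.Work.MP_72041b_co.PL.I_Ineq
import Pool.Agent.Work.MP_72041b_co.PL.I_Half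
import Pool.Agent.Work.MP_72041b_co.PL.I_Aff
import Pool.Agent.Work.MP_72041b_co.PL.I_Pal
import Pool.Agent.Work.MP_72041b_co.PL.I_Hull
import Pool.Agent.Work.MP_72041b_co.PL.I_Conv
import Pool.Agent.Work.MP_72041b_co.PL.I_Slots
import Pool.Agent.Work.MP_72041b_co.PL.I_Asg
import Pool.Agent.Work.MP_72041b_co.PL.I_PckP
import Pool.Agent.Work.MP_72041b_co.PL.I_UpP
import Pool.Agent.Work.MP_72041b_co.PL.I_Cap
import Pool.Agent.Work.MP_72041b_co.PL.I_Sec
import Pool.Agent.Work.MP_72041b_co.PL.I_Thue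
import Pool.Agent.Work.MP_72041b_co.PL.I_LowT
import Pool.Agent.Work.MP_72041b_co.PL.I_MainP

set_option autoImplicit false

/-!
# MP_72041b_co, block PL: assembly
-/

namespace Pool.Agent.Potatoes.PL

theorem all_Half : S_Half := pr_Half pr_HL pr_DL pr_Aff (pr_Ineq pr_Trap)

theorem all_Slots : S_Slots := pr_Slots all_Half pr_Hull (pr_Pal pr_Aff) pr_Conv

theorem all_UpP : S_UpP := pr_UpP LV.pr_Nrm (pr_PckP all_Slots pr_Asg LV.pr_Bx)

theorem all_LowT : S_LowT := pr_LowT (pr_Thue pr_Cap pr_Sec)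

theorem all_MainP : S_MainP :=
  pr_MainP LV.pr_fS (LV.pr_fG LV.pr_Grp) LV.pr_Lim all_LowT all_UpP

end Pool.Agent.Potatoes.PL
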