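import Pool.Agent.Work.MP_72041b_co.PL.Stmts

set_option autoImplicit false

/-!
# MP_72041b_co, block PL, item Half: every convex body has a double lattice packing of density
at least `√3 / 2`
-/

namespace Pool.Agent.Potatoes.PL

open MeasureTheory Set Metric
open scoped RealInnerProductSpace Pointwise

theorem pr_Half (h1 : S_HL) (h2 : S_DL) (h3 : S_Aff) (h4 : S_Ineq) : S_Half := by
  intro K hK
  obtain ⟨l, y2, y1, p2, p1, e, ys, hL⟩ := h1 K hK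
  have hl := hL.hl
  have hy := hL.hy
  have hd0 : 0 < l / 2 * (y1 - y2) := mul_pos (by linarith) (by linarith)
  obtain ⟨A, hA⟩ : ∃ A : ℝ × ℝ, A = (l / 2, 0) := ⟨_, rfl⟩
  obtain ⟨B, hB⟩ : ∃ B : ℝ × ℝ, B = (p1 - p2, y1 - y2) := ⟨_, rfl⟩
  have hdet : A.1 * B.2 - A.2 * B.1 = l / 2 * (y1 - y2) := by
    rw [hA, hB]
    ring
  obtain ⟨hK', hvol, hDL⟩ := h3 K A B (p2, y2) hK (by rw [hdet]; exact hd0.ne')
  rw [hdet, abs_of_pos hd0] at hvol
  have hmem : ∀ x y x' y' : ℝ, p2 + x * (l / 2) + y * (p1 - p2) = x' → y2 + y * (y1 - y2) = y' →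
      (x', y') ∈ K → (x, y) ∈ (fun z : ℝ × ℝ => (p2, y2) + z.1 • A + z.2 • B) ⁻¹' K := by
    intro x y x' y' hx hy' hxy
    have e0 : ((p2, y2) : ℝ × ℝ) + x • A + y • B = (x', y') := by
      rw [hA, hB]
      ext
      · simpa using hx
      · simpa using hy'
    show ((p2, y2) : ℝ × ℝ) + x • A + y • B ∈ K
    rw [e0]
    exact hxy
  have k00 := hmem 0 0 p2 y2 (by ring) (by ring) hL.B1
  have k10 := hmem 1 0 (p2 + l / 2) y2 (by ring) (by ring) hL.B2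
  have k01 := hmem 0 1 p1 y1 (by ring) (by ring) hL.T1
  have k11 := hmem 1 1 (p1 + l / 2) y1 (by ring) (by ring) hL.T2
  have hyn : y1 - y2 ≠ 0 := by linarith
  have hE := hmem ((e - p2 - (ys - y2) / (y1 - y2) * (p1 - p2)) / (l / 2)) ((ys - y2) / (y1 - y2))
    e ys (by field_simp; ring) (by field_simp; ring) hL.E1
  have hF := hmem ((e - p2 - (ys - y2) / (y1 - y2) * (p1 - p2)) / (l / 2) + 2)
    ((ys - y2) / (y1 - y2)) (e + l) ys (by field_simp; ring) (by field_simp; ring) hL.E2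
  generalize (fun z : ℝ × ℝ => (p2, y2) + z.1 • A + z.2 • B) ⁻¹' K = K' at *
  -- the swapped body
  have hswap : ((fun z : ℝ × ℝ => (0 : ℝ × ℝ) + z.1 • ((0, 1) : ℝ × ℝ) +
      z.2 • ((1, 0) : ℝ × ℝ)) ⁻¹' K') = {z : ℝ × ℝ | (z.2, z.1) ∈ K'} := by
    ext z
    have e0 : (0 : ℝ × ℝ) + z.1 • ((0, 1) : ℝ × ℝ) + z.2 • ((1, 0) : ℝ × ℝ) = (z.2, z.1) := by
      ext
      · simp
      · simp
    show (0 : ℝ × ℝ) + z.1 • ((0, 1) : ℝ × ℝ) + z.2 • ((1, 0) : ℝ × ℝ) ∈ K' ↔ _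
    rw [e0]
    rfl
  obtain ⟨hS, _, hDS⟩ := h3 K' (0, 1) (1, 0) 0 hK' (by norm_num)
  rw [hswap] at hS hDS
  obtain ⟨l', x2, x1, q2, q1, g, xs, hL'⟩ := h1 _ hS
  have hl' := hL'.hl
  have hx := hL'.hy
  have e2 : 2 * (l' / 2) = l' := by ring
  rcases h4 K' _ _ (l' / 2) x2 x1 q2 q1 g xs hK' k00 k10 k01 k11 hE hF (by rw [e2]; exact hL')
    with h5 | h5
  · refine ⟨(l / 2, 0), (p1 - p2, y1 - y2), (p1, y1), h2 K l y2 y1 p2 p1 e ys hK hL, ?_, ?_⟩
    · simp only [zero_mul, sub_zero]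
      exact hd0.ne'
    · simp only [zero_mul, sub_zero]
      rw [abs_of_pos hd0, hvol]
      nlinarith
  · have hD2 := hDL _ _ _ (hDS _ _ _ (h2 _ l' x2 x1 q2 q1 g xs hS hL'))
    have hd1 : 0 < l' / 2 * (x1 - x2) := mul_pos (by linarith) (by linarith)
    refine ⟨_, _, _, hD2, ?_, ?_⟩
    · rw [hA, hB]
      simp only [Prod.smul_mk, Prod.mk_add_mk, smul_eq_mul, mul_zero, mul_one, zero_add, add_zero,
        zero_mul]
      have : (l' / 2 * (p1 - p2)) * ((q1 - q2) * (y1 - y2)) -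
          (l' / 2 * (y1 - y2)) * ((x1 - x2) * (l / 2) + (q1 - q2) * (p1 - p2)) =
          -((l' / 2 * (x1 - x2)) * (l / 2 * (y1 - y2))) := by ring
      rw [this]
      exact (neg_lt_zero.2 (mul_pos hd1 hd0)).ne
    · rw [hA, hB]
      simp only [Prod.smul_mk, Prod.mk_add_mk, smul_eq_mul, mul_zero, mul_one, zero_add, add_zero,
        zero_mul]
      have : (l' / 2 * (p1 - p2)) * ((q1 - q2) * (y1 - y2)) -
          (l' / 2 * (y1 - y2)) * ((x1 - x2) * (l / 2) + (q1 - q2) * (p1 - p2)) =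
          -((l' / 2 * (x1 - x2)) * (l / 2 * (y1 - y2))) := by ring
      rw [this, abs_neg, abs_of_pos (mul_pos hd1 hd0), hvol]
      have := mul_le_mul_of_nonneg_left h5 hd0.le
      linarith

end Pool.Agent.Potatoes.PL
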