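import Pool.Agent.Work.MP_72041b_co.PL.Stmts

set_option autoImplicit false

/-!
# MP_72041b_co, block PL: Thue's theorem, truncated Voronoi cells
-/

namespace Pool.Agent.Potatoes.PL

open MeasureTheory Set Metric
open scoped RealInnerProductSpace Pointwise

namespace AuxThue

/-- segment -/
def Seg (w : E 2) : Set (E 2) := {x : E 2 | ‖x‖ < 1 / √3 ∧ ‖w‖ ^ 2 / 2 ≤ ⟪x, w⟫}

/-- sector -/
def Sect (w : E 2) : Set (E 2) :=
  {x : E 2 | ‖x‖ < 1 / √3 ∧ ‖x‖ * (√3 / 2 * ‖w‖) * ‖w‖ < ⟪x, w⟫}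

/-- truncated Voronoi cell of the origin -/
def Cell {ι : Type} (J : Set ι) (w : ι → E 2) : Set (E 2) :=
  {x : E 2 | ‖x‖ < 1 / √3 ∧ ∀ j ∈ J, ‖x‖ < ‖x - w j‖}

theorem s3 : √3 ^ 2 = (3 : ℝ) := Real.sq_sqrt (by norm_num)

theorem s3pos : (0 : ℝ) < √3 := Real.sqrt_pos.2 (by norm_num)

theorem s3lt : √3 < (2 : ℝ) := by
  have := s3
  nlinarith [s3pos]

theorem s3gt : (1 : ℝ) < √3 := by
  have := s3
  nlinarith [s3pos]

theorem ball_real (x : E 2) : volume.real (ball x (1 / √3)) = Real.pi / 3 := by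
  rw [measureReal_def, EuclideanSpace.volume_ball_fin_two, ENNReal.toReal_mul,
    ENNReal.toReal_pow, ENNReal.toReal_ofReal (by positivity),
    ENNReal.toReal_ofReal Real.pi_pos.le, div_pow, s3]
  ring

theorem sub_ball_fin {A : Set (E 2)} {x : E 2} (h : A ⊆ ball x (1 / √3)) : volume A ≠ ⊤ :=
  measure_ne_top_of_subset h measure_ball_lt_top.ne

theorem Seg_sub (w : E 2) : Seg w ⊆ ball 0 (1 / √3) := fun x hx => by
  simpa [mem_ball_zero_iff] using hx.1

theorem Sect_sub (w : E 2) : Sect w ⊆ ball 0 (1 / √3) := fun x hx => by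
  simpa [mem_ball_zero_iff] using hx.1

theorem Cell_sub {ι : Type} (J : Set ι) (w : ι → E 2) : Cell J w ⊆ ball 0 (1 / √3) :=
  fun x hx => by simpa [mem_ball_zero_iff] using hx.1

theorem Sect_open (w : E 2) : IsOpen (Sect w) := by
  have h1 : IsOpen {x : E 2 | ‖x‖ < 1 / √3} := isOpen_lt continuous_norm continuous_const
  have h2 : IsOpen {x : E 2 | ‖x‖ * (√3 / 2 * ‖w‖) * ‖w‖ < ⟪x, w⟫} :=
    isOpen_lt (by fun_prop) (by fun_prop)
  exact h1.inter h2

theorem Cell_open {ι : Type} [Finite ι] (J : Set ι) (w : ι → E 2) : IsOpen (Cell J w) := by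
  have h1 : IsOpen {x : E 2 | ‖x‖ < 1 / √3} := isOpen_lt continuous_norm continuous_const
  have h2 : IsOpen {x : E 2 | ∀ j ∈ J, ‖x‖ < ‖x - w j‖} := by
    have : {x : E 2 | ∀ j ∈ J, ‖x‖ < ‖x - w j‖} = ⋂ j ∈ J, {x : E 2 | ‖x‖ < ‖x - w j‖} := by
      ext x
      simp
    rw [this]
    exact (Set.toFinite J).isOpen_biInter fun j _ =>
      isOpen_lt continuous_norm (by fun_prop)
  exact h1.inter h2

/-- the area of a truncated cell -/
theorem cell_area (h1 : S_Cap) (h2 : S_Sec) {ι : Type} [Fintype ι] [DecidableEq ι]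
    (J : Set ι) (w : ι → E 2)
    (hw : ∀ j ∈ J, 1 ≤ ‖w j‖) (hd : ∀ j ∈ J, ∀ k ∈ J, j ≠ k → 1 ≤ ‖w j - w k‖) :
    √3 / 2 ≤ volume.real (Cell J w) := by
  classical
  set T : Finset ι := Finset.univ.filter (fun j => j ∈ J ∧ ‖w j‖ < 2 / √3) with hT
  have hTm : ∀ j, j ∈ T ↔ j ∈ J ∧ ‖w j‖ < 2 / √3 := fun j => by simp [hT]
  -- covering of the ball
  have hcov : ball (0 : E 2) (1 / √3) ⊆ Cell J w ∪ ⋃ j ∈ T, Seg (w j) := by
    intro x hx
    rw [mem_ball_zero_iff] at hx
    by_cases hc : x ∈ Cell J w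
    · exact Or.inl hc
    · right
      have : ∃ j ∈ J, ‖x - w j‖ ≤ ‖x‖ := by
        by_contra hcon
        push Not at hcon
        exact hc ⟨hx, hcon⟩
      obtain ⟨j, hj, hle⟩ := this
      have hsq : ‖x - w j‖ ^ 2 ≤ ‖x‖ ^ 2 := by gcongr
      rw [norm_sub_sq_real] at hsq
      have hi : ‖w j‖ ^ 2 / 2 ≤ ⟪x, w j⟫ := by linarith
      have hcs : ⟪x, w j⟫ ≤ ‖x‖ * ‖w j‖ := real_inner_le_norm x (w j)
      have hwp : 0 < ‖w j‖ := lt_of_lt_of_le one_pos (hw j hj)
      have hlt : ‖w j‖ < 2 / √3 := by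
        have h5 : ‖w j‖ ^ 2 / 2 < 1 / √3 * ‖w j‖ :=
          lt_of_le_of_lt (hi.trans hcs) (mul_lt_mul_of_pos_right hx hwp)
        have h6 : ‖w j‖ * ‖w j‖ < (2 / √3) * ‖w j‖ := by
          have : (2 / √3) = 2 * (1 / √3) := by ring
          rw [this]
          nlinarith
        exact lt_of_mul_lt_mul_right h6 hwp.le
      exact mem_biUnion ((hTm j).2 ⟨hj, hlt⟩) ⟨hx, hi⟩
  have hfinC : volume (Cell J w) ≠ ⊤ := sub_ball_fin (Cell_sub J w)
  have hsub : (⋃ j ∈ T, Seg (w j)) ⊆ ball 0 (1 / √3) :=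
    iUnion₂_subset fun j _ => Seg_sub (w j)
  have hA : Real.pi / 3 ≤ volume.real (Cell J w) + ∑ j ∈ T, volume.real (Seg (w j)) := by
    rw [← ball_real 0]
    refine (measureReal_mono hcov ?_).trans ?_
    · exact sub_ball_fin (union_subset (Cell_sub J w) hsub)
    · refine (measureReal_union_le _ _).trans ?_
      have := measureReal_biUnion_finset_le (μ := (volume : Measure (E 2))) T
        (fun j => Seg (w j))
      linarith
  have hB : ∑ j ∈ T, volume.real (Seg (w j)) ≤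
      (1 - 3 * √3 / (2 * Real.pi)) * ∑ j ∈ T, volume.real (Sect (w j)) := by
    rw [Finset.mul_sum]
    refine Finset.sum_le_sum fun j hj => ?_
    exact h1 (w j) (hw j ((hTm j).1 hj).1) ((hTm j).1 hj).2
  have hC : ∑ j ∈ T, volume.real (Sect (w j)) ≤ Real.pi / 3 := by
    rw [← measureReal_biUnion_finset (μ := (volume : Measure (E 2))) (s := T)
      (f := fun j => Sect (w j)) ?_ (fun j _ => (Sect_open (w j)).measurableSet)
      (fun j _ => sub_ball_fin (Sect_sub (w j))), ← ball_real 0]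
    · exact measureReal_mono (iUnion₂_subset fun j _ => Sect_sub (w j)) measure_ball_lt_top.ne
    · intro j hj k hk hjk
      have hj' := (hTm j).1 hj
      have hk' := (hTm k).1 hk
      refine disjoint_left.2 fun x hx hx' => ?_
      exact h2 (w j) (w k) x (hw j hj'.1) hj'.2 (hw k hk'.1) hk'.2 (hd j hj'.1 k hk'.1 hjk)
        hx.2 hx'.2
  have hq : 0 ≤ 1 - 3 * √3 / (2 * Real.pi) := by
    have h3 : (3 : ℝ) < Real.pi := Real.pi_gt_three
    have h4 : 3 * √3 / (2 * Real.pi) ≤ 1 := by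
      rw [div_le_one (by positivity)]
      have := s3lt
      linarith
    linarith
  have hD := mul_le_mul_of_nonneg_left hC hq
  have hE : (1 - 3 * √3 / (2 * Real.pi)) * (Real.pi / 3) = Real.pi / 3 - √3 / 2 := by
    have := Real.pi_pos.ne'
    field_simp
  linarith

end AuxThue

open AuxThue in
/-- Thue's inequality -/
theorem pr_Thue (h1 : S_Cap) (h2 : S_Sec) : S_Thue := by
  intro N s c hs hc hd
  -- the cells
  let D : Fin N → Set (E 2) := fun i =>
    (fun x => x + -c i) ⁻¹' Cell {j | j ≠ i} (fun j => c j - c i)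
  have hDm : ∀ i x, x ∈ D i ↔ ‖x - c i‖ < 1 / √3 ∧ ∀ j, j ≠ i → ‖x - c i‖ < ‖x - c j‖ := by
    intro i x
    have h : ∀ j, x - c i - (c j - c i) = x - c j := fun j => by abel
    simp only [D, Cell, mem_preimage, mem_ofPred_eq, ← sub_eq_add_neg, h]
  have hDo : ∀ i, IsOpen (D i) := fun i =>
    (Cell_open _ _).preimage (by fun_prop)
  have hDv : ∀ i, √3 / 2 ≤ volume.real (D i) := by
    intro i
    have h3 : volume.real (D i) = volume.real (Cell {j | j ≠ i} (fun j => c j - c i)) := by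
      rw [measureReal_def, measureReal_def]
      congr 1
      exact measure_preimage_add_right _ _ _
    rw [h3]
    refine cell_area h1 h2 _ _ ?_ ?_
    · intro j hj
      have := hd j i hj
      rwa [dist_eq_norm] at this
    · intro j _ k _ hjk
      have := hd j k hjk
      rw [dist_eq_norm] at this
      have h4 : c j - c i - (c k - c i) = c j - c k := by abel
      rwa [h4]
  have hr1 : 1 / √3 < (1 : ℝ) := by
    rw [div_lt_one s3pos]
    exact s3gt
  have hDs : ∀ i, D i ⊆ stdCube 2 (s + 2) := by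
    intro i x hx l
    have h3 := ((hDm i x).1 hx).1
    have h4 : |x l - c i l| ≤ ‖x - c i‖ := by
      have := PiLp.norm_apply_le (x - c i) l
      simpa using this
    have h5 : |x l| ≤ |x l - c i l| + |c i l| := by
      have := abs_add_le (x l - c i l) (c i l)
      simpa using this
    have h6 := hc i l
    linarith
  have hv : volume (stdCube 2 (s + 2)) = ENNReal.ofReal ((s + 2) ^ 2) :=
    Vol.volume_stdCube 2 (by linarith)
  have hvf : volume (stdCube 2 (s + 2)) ≠ ⊤ := by rw [hv]; exact ENNReal.ofReal_ne_top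
  have hdis : Pairwise (Function.onFun Disjoint D) := by
    intro i j hij
    refine disjoint_left.2 fun x hx hx' => ?_
    have h3 := ((hDm i x).1 hx).2 j hij.symm
    have h4 := ((hDm j x).1 hx').2 i hij
    exact lt_asymm h3 h4
  have hsum : ∑ i, volume.real (D i) ≤ (s + 2) ^ 2 := by
    rw [← measureReal_iUnion_fintype (μ := (volume : Measure (E 2))) hdis
      (fun i => (hDo i).measurableSet) (fun i => measure_ne_top_of_subset (hDs i) hvf)]
    refine (measureReal_mono (iUnion_subset hDs) hvf).trans ?_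
    rw [measureReal_def, hv, ENNReal.toReal_ofReal (by positivity)]
  have hlow : (N : ℝ) * (√3 / 2) ≤ ∑ i, volume.real (D i) := by
    calc (N : ℝ) * (√3 / 2) = ∑ _i : Fin N, √3 / 2 := by simp
      _ ≤ _ := Finset.sum_le_sum fun i _ => hDv i
  exact hlow.trans hsum

end Pool.Agent.Potatoes.PL
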